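import Pool.Agent.H77B.Stm2

/-!
# Stub ACT of project GB: the odd map on the deleted join
-/

set_option autoImplicit false
set_option linter.unusedSectionVars false

noncomputable section

namespace Pool.Agent.H77B.ACT

open Finset Pool.Agent.H77RA Pool.Agent.W555.KS Pool.Agent.Y131.KS

variable {n : ℕ}

/-- bump functions -/
def sf (a : Fin n → ℕ) (y : Fin n → ℝ) : unitInterval :=
  Set.projIcc 0 1 zero_le_one (2 - 2 * ‖y - fun v => (a v : ℝ)‖)

theorem sf_cont (a : Fin n → ℕ) : Continuous (sf a) := by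
  unfold sf
  exact continuous_projIcc.comp (continuous_const.sub (continuous_const.mul (continuous_id.sub continuous_const).norm))

theorem sf_ne {a : Fin n → ℕ} {y : Fin n → ℝ} (h : sf a y ≠ 0) : ∀ v, |y v - a v| < 1 := by
  intro v
  by_contra h1
  push Not at h1
  apply h
  unfold sf
  have h2 : |y v - a v| ≤ ‖y - fun v => (a v : ℝ)‖ := norm_le_pi_norm (y - fun v => (a v : ℝ)) v
  rw [Set.projIcc_of_le_left zero_le_one (by linarith)]
  rfl

theorem sf_one {a : Fin n → ℕ} {y : Fin n → ℝ} (h : ∀ v, |y v - a v| ≤ 1 / 2) : sf a y = 1 := by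
  unfold sf
  have h2 : ‖y - fun v => (a v : ℝ)‖ ≤ 1 / 2 := by
    rw [pi_norm_le_iff_of_nonneg (by norm_num)]
    exact h
  rw [Set.projIcc_of_right_le zero_le_one (by linarith)]
  rfl

/-- the lattice points in a box with support a simplex -/
def box (L : Finset (Finset (Fin n))) (N : ℕ) : Finset (Fin n → ℕ) :=
  (Fintype.piFinset fun _ => range (N + 1)).filter fun a => sp a ∈ L

theorem mem_box {L : Finset (Finset (Fin n))} {N : ℕ} {a : Fin n → ℕ} :
    a ∈ box L N ↔ (∀ i, a i ≤ N) ∧ sp a ∈ L := by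
  unfold box
  rw [mem_filter, Fintype.mem_piFinset]
  simp only [mem_range, Nat.lt_succ_iff]

/-- the list of pairs -/
def lA {Q : Type} (g : (Fin n → ℕ) → Q) (L : Finset (Finset (Fin n))) (N : ℕ) :
    List (Q × ((Fin n → ℝ) → unitInterval)) := (box L N).toList.map fun a => (g a, sf a)

open Classical in
theorem count_le {Q : Type} (g : (Fin n → ℕ) → Q) (L : Finset (Finset (Fin n))) (N : ℕ) (y : Fin n → ℝ) :
    (lA g L N).countP (fun q => decide (q.2 y ≠ 0)) ≤ 2 ^ n := by
  unfold lA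
  rw [List.countP_map, List.countP_eq_length_filter]
  have h1 : ((box L N).toList.filter ((fun q : Q × ((Fin n → ℝ) → unitInterval) =>
      decide (q.2 y ≠ 0)) ∘ fun a => (g a, sf a))).toFinset ⊆
      Fintype.piFinset (fun v => Finset.Icc ((⌊y v⌋).toNat) ((⌊y v⌋).toNat + 1)) := by
    intro a ha
    rw [List.mem_toFinset, List.mem_filter] at ha
    have h2 : sf a y ≠ 0 := by simpa using ha.2
    rw [Fintype.mem_piFinset]
    intro v
    have h3 := abs_lt.mp (sf_ne h2 v)
    have h4 := Int.floor_le (y v)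
    have h5 := Int.lt_floor_add_one (y v)
    have h6 : ((⌊y v⌋ : ℤ) : ℝ) < ((a v + 1 : ℤ) : ℝ) := by push_cast; linarith
    have h7 : ((a v : ℤ) : ℝ) < ((⌊y v⌋ + 2 : ℤ) : ℝ) := by push_cast; linarith
    have h8 : ⌊y v⌋ < a v + 1 := by exact_mod_cast h6
    have h9 : (a v : ℤ) < ⌊y v⌋ + 2 := by exact_mod_cast h7
    rw [Finset.mem_Icc]
    constructor <;> omega
  have h2 := card_le_card h1
  rw [List.toFinset_card_of_nodup ((Finset.nodup_toList _).filter _)] at h2
  refine h2.trans ?_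
  rw [Fintype.card_piFinset]
  rw [Finset.prod_congr rfl (g := fun _ => 2)]
  · simp
  · intro v _
    rw [Nat.card_Icc]
    omega

theorem t : Pool.Agent.H77B.ACT := by
  intro Q _ n L g o W _ _ _ _ _
  classical
  obtain ⟨p, ⟨H⟩⟩ := id_nullhomotopic W
  set HH : C(unitInterval × W, W) := H.toContinuousMap with hHH
  have hH0 : ∀ w, HH (0, w) = w := fun w => H.apply_zero w
  have hH1 : ∀ w, HH (1, w) = p := fun w => H.apply_one w
  set S : Set Q := {h : Q | ∃ a a' : Fin n → ℕ, sp a ∪ sp a' ∈ L ∧ (∀ i, a i ≤ a' i + 1 ∧ a' i ≤ a i + 1) ∧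
    h = (g a)⁻¹ * g a'} with hS
  set K : Set W := KK HH p S (2 ^ n) with hK
  have hKc : IsCompact K := KK_compact HH p o.lip _
  have hT : Set.Finite {γ : Q | (fun w => γ • w) '' K ∩ K ≠ ∅} := by
    have := ProperlyDiscontinuousSMul.finite_disjoint_inter_image (Γ := Q) hKc hKc
    simpa [Set.nonempty_iff_ne_empty] using this
  obtain ⟨C, hC⟩ := o.sep _ hT
  set R : ℕ := n * (C + 1) + 1 with hR
  set F : (Fin n → ℝ) → W := fun y => foldF HH (lA g L (R + 1)) y p with hF
  have hFc : Continuous F := by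
    refine foldF_cont HH _ ?_ p
    intro q hq
    obtain ⟨a, _, rfl⟩ := List.mem_map.mp hq
    exact sf_cont a
  -- location of the values
  have hloc : ∀ (y : Fin n → ℝ) (σ : Finset (Fin n)), σ ∈ L → (∀ i, 0 ≤ y i ∧ y i ≤ R) → (∀ i, i ∉ σ → y i = 0) →
      ∃ a : Fin n → ℕ, (∀ i, |y i - a i| ≤ 1 / 2) ∧ sp a ⊆ σ ∧ (g a)⁻¹ • F y ∈ K := by
    intro y σ hσ hy hy0
    set a : Fin n → ℕ := fun i => ⌊y i + 1 / 2⌋₊ with ha
    have h1 : ∀ i, |y i - a i| ≤ 1 / 2 := by
      intro i
      have h2 := Nat.floor_le (show 0 ≤ y i + 1 / 2 by linarith [(hy i).1])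
      have h3 := Nat.lt_floor_add_one (y i + 1 / 2)
      simp only [ha]
      rw [abs_le]
      constructor <;> linarith
    have hsp : sp a ⊆ σ := by
      intro i hi
      by_contra h2
      rw [mem_sp] at hi
      apply hi
      simp only [ha, hy0 i h2]
      rw [Nat.floor_eq_zero]
      norm_num
    have hmem : a ∈ box L (R + 1) := by
      rw [mem_box]
      refine ⟨fun i => ?_, o.cx.2 _ hσ _ hsp⟩
      have h2 := (abs_le.mp (h1 i)).1
      have h3 : (a i : ℝ) ≤ ((R + 1 : ℕ) : ℝ) := by push_cast; linarith [(hy i).2]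
      exact_mod_cast h3
    refine ⟨a, h1, hsp, ?_⟩
    refine KK_mono HH p S (count_le g L (R + 1) y) ?_
    refine foldF_mem HH p hH0 hH1 S (lA g L (R + 1)) y (g a) ?_ ?_ p
    · intro q hq hq'
      obtain ⟨a', _, rfl⟩ := List.mem_map.mp hq
      have h2 := sf_ne hq'
      have hsp' : sp a' ⊆ σ := by
        intro i hi
        by_contra h3
        rw [mem_sp] at hi
        have h4 := h2 i
        rw [hy0 i h3, zero_sub, abs_neg, abs_of_nonneg (Nat.cast_nonneg _)] at h4
        have h5 : a' i < 1 := by exact_mod_cast h4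
        exact hi (by omega)
      refine ⟨a, a', o.cx.2 _ hσ _ (union_subset hsp hsp'), fun i => ?_, rfl⟩
      have h3 := abs_le.mp (h1 i)
      have h4 := abs_lt.mp (h2 i)
      have h5 : (a i : ℝ) < ((a' i + 2 : ℕ) : ℝ) := by push_cast; linarith
      have h6 : (a' i : ℝ) < ((a i + 2 : ℕ) : ℝ) := by push_cast; linarith
      have h7 : a i < a' i + 2 := by exact_mod_cast h5
      have h8 : a' i < a i + 2 := by exact_mod_cast h6
      constructor <;> omega
    · exact ⟨(g a, sf a), List.mem_map.mpr ⟨a, Finset.mem_toList.mpr hmem, rfl⟩, sf_one h1⟩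
  -- the map
  refine ⟨fun x => F fun i => (R : ℝ) * max (x i) 0, ?_, ?_⟩
  · refine hFc.comp ?_
    fun_prop
  · rintro x ⟨hx1, hx2, hx3⟩ heq
    simp only at heq
    have habs : ∀ i, |x i| ≤ 1 := by
      intro i
      rw [← hx1]
      exact Finset.single_le_sum (f := fun i => |x i|) (fun _ _ => abs_nonneg _) (mem_univ i)
    have hR0 : (0 : ℝ) ≤ R := Nat.cast_nonneg _
    have hb : ∀ s : ℝ, |s| ≤ 1 → 0 ≤ (R : ℝ) * max s 0 ∧ (R : ℝ) * max s 0 ≤ R := by
      intro s hs
      have h1 : 0 ≤ max s 0 := le_max_right _ _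
      have h2 : max s 0 ≤ 1 := max_le ((le_abs_self s).trans hs) zero_le_one
      exact ⟨mul_nonneg hR0 h1, by nlinarith⟩
    obtain ⟨a, ha1, ha2, ha3⟩ := hloc (fun i => (R : ℝ) * max (x i) 0) _ hx2 (fun i => hb _ (habs i)) (by
      intro i hi
      have h1 : x i ≤ 0 := by
        by_contra h2
        push Not at h2
        exact hi (mem_filter.mpr ⟨mem_univ i, h2⟩)
      change (R : ℝ) * max (x i) 0 = 0
      rw [max_eq_right h1, mul_zero])
    obtain ⟨a', ha1', ha2', ha3'⟩ := hloc (fun i => (R : ℝ) * max ((-x) i) 0) _ hx3 (fun i => hb _ (by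
      rw [Pi.neg_apply, abs_neg]; exact habs i)) (by
      intro i hi
      have h1 : 0 ≤ x i := by
        by_contra h2
        push Not at h2
        exact hi (mem_filter.mpr ⟨mem_univ i, h2⟩)
      change (R : ℝ) * max (-(x i)) 0 = 0
      rw [max_eq_right (by linarith), mul_zero])
    have hmem : (g a)⁻¹ * g a' ∈ {γ : Q | (fun w => γ • w) '' K ∩ K ≠ ∅} := by
      rw [Set.mem_setOf_eq, ← Set.nonempty_iff_ne_empty]
      refine ⟨(g a)⁻¹ • F fun i => (R : ℝ) * max (x i) 0,
        ⟨(g a')⁻¹ • F fun i => (R : ℝ) * max ((-x) i) 0, ha3', ?_⟩, ha3⟩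
      simp only
      rw [smul_smul, mul_assoc, mul_inv_cancel, mul_one, heq]
    have hdisj : Disjoint (sp a) (sp a') := by
      rw [disjoint_left]
      intro i hi hi'
      have h1 := (mem_filter.mp (ha2 hi)).2
      have h2 := (mem_filter.mp (ha2' hi')).2
      linarith
    have h5 := hC a a' (o.cx.2 _ hx2 _ ha2) (o.cx.2 _ hx3 _ ha2') hdisj hmem
    have h6 : ∀ i, (R : ℝ) * |x i| ≤ C + 1 := by
      intro i
      have h7 : (a i : ℝ) ≤ C := by exact_mod_cast (h5 i).1
      have h8 : (a' i : ℝ) ≤ C := by exact_mod_cast (h5 i).2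
      have h9 := (abs_le.mp (ha1 i)).2
      have h10 := (abs_le.mp (ha1' i)).2
      rcases le_total 0 (x i) with h | h
      · rw [abs_of_nonneg h]
        rw [max_eq_left h] at h9
        linarith
      · rw [abs_of_nonpos h]
        rw [Pi.neg_apply, max_eq_left (neg_nonneg.mpr h)] at h10
        linarith
    have h7 : (R : ℝ) ≤ n * (C + 1) := by
      calc (R : ℝ) = ∑ i, (R : ℝ) * |x i| := by rw [← Finset.mul_sum, hx1, mul_one]
        _ ≤ ∑ _i : Fin n, ((C : ℝ) + 1) := sum_le_sum fun i _ => h6 i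
        _ = n * (C + 1) := by rw [sum_const, card_univ, Fintype.card_fin, nsmul_eq_mul]
    have h8 : (R : ℝ) = n * (C + 1) + 1 := by rw [hR]; push_cast; ring
    linarith

end Pool.Agent.H77B.ACT
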