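import Pool.Agent.H77B.Stm

/-!
# CYC: a central element `z` such that `c z - 1` is a unit kills the homology
-/

set_option autoImplicit false
set_option linter.unusedSectionVars false

noncomputable section

namespace Pool.Agent.H77B.CYC

open Pool.Agent.H77GP Pool.Agent.H77B

variable {Q R : Type} [Group Q] [Ring R]

/-- left multiplication of the lists -/
def th (z : Q) : XM Q R →ₗ[R] XM Q R := Finsupp.lmapDomain R R (List.map (z * ·))

theorem th_single (z : Q) (l : List Q) (r : R) : th z (Finsupp.single l r) = Finsupp.single (l.map (z * ·)) r :=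
  Finsupp.mapDomain_single

theorem th_cn (z a : Q) (x : XM Q R) : th z (cn a x) = cn (z * a) (th z x) := by
  have e : (th z).comp (cn a) = (cn (R := R) (z * a)).comp (th z) := by
    refine Finsupp.lhom_ext fun l r => ?_
    rw [LinearMap.comp_apply, LinearMap.comp_apply, cn_single, th_single, th_single, cn_single, List.map_cons]
  exact LinearMap.congr_fun e x

theorem th_dl (z : Q) (l : List Q) : th z (dl R l) = dl R (l.map (z * ·)) := by
  induction l with
  | nil => exact map_zero _
  | cons a l ih => rw [List.map_cons, dl_cons, dl_cons, map_sub, th_cn, ih, th_single]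

/-- the prism on lists -/
def prl (R : Type) [Ring R] {Q : Type} [Group Q] (z : Q) : List Q → XM Q R
  | [] => 0
  | a :: l => Finsupp.single (a :: (a :: l).map (z * ·)) 1 - cn a (prl R z l)

theorem prl_cons (z a : Q) (l : List Q) :
    prl R z (a :: l) = Finsupp.single (a :: (a :: l).map (z * ·)) 1 - cn a (prl R z l) := rfl

def pr (z : Q) : XM Q R →ₗ[R] XM Q R := Finsupp.linearCombination R (prl R z)

theorem pr_single (z : Q) (l : List Q) (r : R) : pr z (Finsupp.single l r) = r • prl R z l :=
  Finsupp.linearCombination_single _ _ _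

theorem pr_cn (z a : Q) (x : XM Q R) : pr z (cn a x) = cn a (cn (z * a) (th z x)) - cn a (pr z x) := by
  have e : (pr z).comp (cn a) = ((cn (R := R) a).comp (cn (z * a))).comp (th z) - (cn a).comp (pr z) := by
    refine Finsupp.lhom_ext fun l r => ?_
    rw [LinearMap.comp_apply, cn_single, pr_single, prl_cons, LinearMap.sub_apply, LinearMap.comp_apply,
      LinearMap.comp_apply, th_single, cn_single, cn_single, LinearMap.comp_apply, pr_single, map_smul, smul_sub,
      Finsupp.smul_single, smul_eq_mul, mul_one, List.map_cons]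
  exact LinearMap.congr_fun e x

theorem prism (z : Q) (l : List Q) :
    dd (prl R z l) + pr z (dl R l) = Finsupp.single (l.map (z * ·)) 1 - Finsupp.single l 1 := by
  induction l with
  | nil =>
    rw [show prl R z [] = 0 from rfl, show dl R ([] : List Q) = 0 from rfl, map_zero, map_zero, List.map_nil]
    abel
  | cons a l ih =>
    have h1 : dd (prl R z (a :: l)) = Finsupp.single ((a :: l).map (z * ·)) 1 - cn a (dl R ((a :: l).map (z * ·))) -
        (prl R z l - cn a (dd (prl R z l))) := by
      rw [prl_cons, map_sub, dd_single, one_smul, dl_cons, dd_cn]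
    have h2 : pr z (dl R (a :: l)) = prl R z l - (cn a (cn (z * a) (th z (dl R l))) - cn a (pr z (dl R l))) := by
      rw [dl_cons, map_sub, pr_single, one_smul, pr_cn]
    have h3 : dl R ((a :: l).map (z * ·)) = Finsupp.single (l.map (z * ·)) 1 - cn (z * a) (th z (dl R l)) := by
      rw [List.map_cons, dl_cons, th_dl]
    have h4 : cn a (dd (prl R z l)) + cn a (pr z (dl R l)) = cn a (Finsupp.single (l.map (z * ·)) (1 : R)) -
        cn a (Finsupp.single l 1) := by
      rw [← map_add, ih, map_sub]
    rw [h1, h2, h3, map_sub]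
    have h5 : cn a (Finsupp.single l (1 : R)) = Finsupp.single (a :: l) 1 := cn_single _ _ _
    rw [h5] at h4
    have h6 : cn a (dd (prl R z l)) = cn a (Finsupp.single (l.map (z * ·)) (1 : R)) - Finsupp.single (a :: l) 1 -
        cn a (pr z (dl R l)) := by
      rw [← h4]; abel
    rw [h6]
    abel

theorem prism' (z : Q) (x : XM Q R) : dd (pr z x) + pr z (dd x) = th z x - x := by
  have e : dd.comp (pr z) + (pr z).comp dd = (th z : XM Q R →ₗ[R] XM Q R) - LinearMap.id := by
    refine Finsupp.lhom_ext fun l r => ?_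
    rw [LinearMap.add_apply, LinearMap.comp_apply, LinearMap.comp_apply, pr_single, dd_single, map_smul, map_smul,
      ← smul_add, prism, smul_sub, Finsupp.smul_single, Finsupp.smul_single, smul_eq_mul, mul_one,
      LinearMap.sub_apply, th_single, LinearMap.id_apply]
  exact LinearMap.congr_fun e x

theorem prl_dg (z : Q) (l : List Q) : ∀ n, l.length = n → prl R z l ∈ dg Q R (n + 1) := by
  induction l with
  | nil => intro n _; exact Submodule.zero_mem _
  | cons a l ih =>
    intro n h
    rw [prl_cons]
    refine Submodule.sub_mem _ (single_mem_dg _ _ ?_) ?_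
    · rw [List.length_cons, List.length_map, h]
    · rw [List.length_cons] at h
      rw [← h]
      exact cn_dg a (ih _ rfl)

theorem pr_dg (z : Q) {n : ℕ} {x : XM Q R} (hx : x ∈ dg Q R n) : pr z x ∈ dg Q R (n + 1) :=
  map_dg (pr z) _ (fun l hl => by rw [pr_single, one_smul]; exact prl_dg z l n hl) hx

variable (c : Q →* R)

theorem ac_prl (z h : Q) (hz : Commute z h) (l : List Q) :
    ac c h (prl R z l) = c h⁻¹ • prl R z (l.map (h * ·)) := by
  induction l with
  | nil =>
    rw [List.map_nil, show prl R z ([] : List Q) = 0 from rfl, map_zero, smul_zero]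
  | cons a l ih =>
    rw [List.map_cons, prl_cons, prl_cons, map_sub, ac_cn, ih, ac_single, one_mul, smul_sub, map_smul,
      Finsupp.smul_single, smul_eq_mul, mul_one]
    congr 2
    have h1 : ∀ b : Q, h * (z * b) = z * (h * b) := fun b => by rw [← mul_assoc, ← hz.eq, mul_assoc]
    simp only [List.map_cons, List.map_map, h1]
    congr 1
    congr 1
    refine List.map_congr_left fun b _ => ?_
    exact h1 b

theorem pr_ac (z h : Q) (hz : Commute z h) (x : XM Q R) : pr z (ac c h x) = ac c h (pr z x) := by
  have e : (pr z).comp (ac c h) = (ac c h).comp (pr z) := by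
    refine Finsupp.lhom_ext fun l r => ?_
    rw [LinearMap.comp_apply, LinearMap.comp_apply, ac_single, pr_single, pr_single, map_smul, ac_prl c z h hz,
      smul_smul]
  exact LinearMap.congr_fun e x

theorem pr_Jt (z : Q) {H : Subgroup Q} (hz : ∀ h ∈ H, Commute z h) {x : XM Q R} (hx : x ∈ Jt c H) :
    pr z x ∈ Jt c H := by
  have h : Jt c H ≤ (Jt c H).comap (pr z) := by
    refine Jt_le c ?_ ?_
    · intro y hy
      rw [Submodule.mem_comap]
      refine map_dg (pr z) _ (fun l hl => ?_) hy
      rw [List.length_eq_zero_iff.mp hl, pr_single, one_smul]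
      exact Submodule.zero_mem _
    · intro g hg y
      rw [Submodule.mem_comap, map_sub, pr_ac c z g (hz g hg)]
      exact rel_mem c hg _
  exact h hx

theorem rm_ac (u : R) (h : Q) (hu : Commute u (c h⁻¹)) (x : XM Q R) : rm u (ac c h x) = ac c h (rm u x) := by
  have e : (rm u).comp (ac c h) = (ac c h).comp (rm u) := by
    refine Finsupp.lhom_ext fun l r => ?_
    rw [LinearMap.comp_apply, LinearMap.comp_apply, ac_single, rm_single, rm_single, ac_single, mul_assoc,
      mul_assoc, hu.eq]
  exact LinearMap.congr_fun e x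

theorem rm_dg (u : R) {n : ℕ} {x : XM Q R} (hx : x ∈ dg Q R n) : rm u x ∈ dg Q R n :=
  map_dg (rm u) _ (fun l hl => by rw [rm_single]; exact single_mem_dg _ _ hl) hx

theorem rm_Jt (u : R) {H : Subgroup Q} (hu : ∀ h ∈ H, Commute u (c h)) {x : XM Q R} (hx : x ∈ Jt c H) :
    rm u x ∈ Jt c H := by
  have h : Jt c H ≤ (Jt c H).comap (rm u) := by
    refine Jt_le c ?_ ?_
    · intro y hy
      rw [Submodule.mem_comap]
      exact dg0_le c H (rm_dg u hy)
    · intro g hg y
      rw [Submodule.mem_comap, map_sub, rm_ac c u g (hu _ (H.inv_mem hg))]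
      exact rel_mem c hg _
  exact h hx

theorem rm_dl (u : R) (l : List Q) : rm u (dl R l) = u • dl R l := by
  induction l with
  | nil => rw [show dl R ([] : List Q) = 0 from rfl, map_zero, smul_zero]
  | cons a l ih =>
    have h1 : ∀ y : XM Q R, rm u (cn a y) = cn a (rm u y) := by
      intro y
      have e : (rm u).comp (cn a) = (cn (R := R) a).comp (rm u) := by
        refine Finsupp.lhom_ext fun l r => ?_
        rw [LinearMap.comp_apply, LinearMap.comp_apply, cn_single, rm_single, rm_single, cn_single]
      exact LinearMap.congr_fun e y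
    rw [dl_cons, map_sub, h1, ih, rm_single, smul_sub, map_smul, Finsupp.smul_single, smul_eq_mul, one_mul, mul_one]

theorem rm_dd (u : R) (x : XM Q R) : rm u (dd x) = dd (rm u x) := by
  have e : (rm u).comp dd = (dd : XM Q R →ₗ[R] XM Q R).comp (rm u) := by
    refine Finsupp.lhom_ext fun l r => ?_
    rw [LinearMap.comp_apply, LinearMap.comp_apply, dd_single, rm_single, dd_single, map_smul, rm_dl, smul_smul]
  exact LinearMap.congr_fun e x

theorem rm_rm (u v : R) (x : XM Q R) : rm v (rm u x) = rm (u * v) x := by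
  have e : (rm v).comp (rm u) = (rm (u * v) : XM Q R →ₗ[R] XM Q R) := by
    refine Finsupp.lhom_ext fun l r => ?_
    rw [LinearMap.comp_apply, rm_single, rm_single, rm_single, mul_assoc]
  exact LinearMap.congr_fun e x

theorem rm_one (x : XM Q R) : rm (1 : R) x = x := by
  have e : (rm 1 : XM Q R →ₗ[R] XM Q R) = LinearMap.id := by
    refine Finsupp.lhom_ext fun l r => ?_
    rw [rm_single, mul_one, LinearMap.id_apply]
  exact LinearMap.congr_fun e x

theorem rm_sub_one (u : R) (x : XM Q R) : rm (u - 1) x = rm u x - x := by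
  have e : (rm (u - 1) : XM Q R →ₗ[R] XM Q R) = rm u - LinearMap.id := by
    refine Finsupp.lhom_ext fun l r => ?_
    rw [rm_single, LinearMap.sub_apply, rm_single, LinearMap.id_apply, mul_sub, mul_one, Finsupp.single_sub]
  exact LinearMap.congr_fun e x

theorem th_eq (z : Q) (x : XM Q R) : th z x = rm (c z) (ac c z x) := by
  have e : (th z : XM Q R →ₗ[R] XM Q R) = (rm (c z)).comp (ac c z) := by
    refine Finsupp.lhom_ext fun l r => ?_
    rw [th_single, LinearMap.comp_apply, ac_single, rm_single, mul_assoc, ← map_mul, inv_mul_cancel, map_one,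
      mul_one]
  exact LinearMap.congr_fun e x

theorem t : Pool.Agent.H77B.CYC := by
  intro Q R _ _ c H z hzH hz hunit n x hx hdx
  obtain ⟨u, hu⟩ := hunit
  have hcz : ∀ h ∈ H, Commute (c z) (c h) := fun h hh => (hz h hh).map c
  have hu1 : ∀ h ∈ H, Commute (u : R) (c h) := fun h hh => by
    rw [hu]
    exact (hcz h hh).sub_left (Commute.one_left _)
  have hw : ∀ h ∈ H, Commute ((u⁻¹ : Rˣ) : R) (c h) := fun h hh => (hu1 h hh).units_inv_left
  refine ⟨rm ((u⁻¹ : Rˣ) : R) (pr z x), rm_dg _ (pr_dg z hx), ?_⟩
  have h1 := prism' z x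
  rw [th_eq c z x] at h1
  have h2 : rm (c z - 1) x = dd (pr z x) + (pr z (dd x) + rm (c z) (x - ac c z x)) := by
    rw [rm_sub_one, map_sub, ← add_assoc, h1]
    abel
  have h3 : x = dd (rm ((u⁻¹ : Rˣ) : R) (pr z x)) +
      rm ((u⁻¹ : Rˣ) : R) (pr z (dd x) + rm (c z) (x - ac c z x)) := by
    rw [← rm_dd, ← map_add, ← h2, ← hu, rm_rm, Units.mul_inv, rm_one]
  have h4 : x - dd (rm ((u⁻¹ : Rˣ) : R) (pr z x)) =
      rm ((u⁻¹ : Rˣ) : R) (pr z (dd x) + rm (c z) (x - ac c z x)) := by
    rw [sub_eq_iff_eq_add']
    exact h3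
  rw [h4]
  refine rm_Jt c _ hw (Submodule.add_mem _ (pr_Jt c z hz hdx) (rm_Jt c _ hcz (rel_mem c hzH x)))

end Pool.Agent.H77B.CYC
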