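import Pool.Agent.H77B.Stm

/-!
# Stub DIC: two independent elements or a central element
-/

set_option autoImplicit false

namespace Pool.Agent.H77B.DIC

theorem t : Pool.Agent.H77B.DIC := by
  classical
  intro G _ _ _ htf
  by_cases h : ∃ x y : G, x ≠ 1 ∧ y ≠ 1 ∧ Subgroup.zpowers x ⊓ Subgroup.zpowers y = ⊥
  · exact Or.inl h
  refine Or.inr ?_
  push Not at h
  have hpow : ∀ (g : G) (m : ℤ), g ≠ 1 → m ≠ 0 → g ^ m ≠ 1 := by
    intro g m hg hm h1
    exact htf g hg (isOfFinOrder_iff_zpow_eq_one.2 ⟨m, hm, h1⟩)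
  obtain ⟨z, hz⟩ := exists_ne (1 : G)
  -- each element commutes with a nontrivial power of z
  have key : ∀ s : G, ∃ m : ℤ, m ≠ 0 ∧ Commute (z ^ m) s := by
    intro s
    rcases eq_or_ne s 1 with rfl | hs
    · exact ⟨1, one_ne_zero, Commute.one_right _⟩
    have h1 := h z s hz hs
    rw [Ne, Subgroup.eq_bot_iff_forall] at h1
    push Not at h1
    obtain ⟨w, hw, hw1⟩ := h1
    obtain ⟨⟨m, hm⟩, n, hn⟩ := Subgroup.mem_inf.1 hw
    simp only at hm hn
    refine ⟨m, ?_, ?_⟩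
    · rintro rfl
      rw [zpow_zero] at hm
      exact hw1 hm.symm
    · rw [hm, ← hn]
      exact (Commute.refl s).zpow_left n
  obtain ⟨S, hS⟩ := Group.FG.out (G := G)
  choose m hm hc using key
  refine ⟨z ^ (∏ s ∈ S, m s), hpow z _ hz (Finset.prod_ne_zero_iff.2 fun s _ => hm s), fun g => ?_⟩
  have hcen : ∀ s ∈ S, Commute (z ^ (∏ s ∈ S, m s)) s := by
    intro s hs
    rw [← Finset.mul_prod_erase S m hs, zpow_mul]
    exact (hc s).zpow_left _
  have hle : Subgroup.closure (S : Set G) ≤ Subgroup.centralizer {z ^ (∏ s ∈ S, m s)} := by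
    rw [Subgroup.closure_le]
    intro s hs
    exact Subgroup.mem_centralizer_singleton_iff.2 (hcen s hs).eq.symm
  have hg : g ∈ Subgroup.centralizer {z ^ (∏ s ∈ S, m s)} := hle (hS ▸ Subgroup.mem_top g)
  exact (Subgroup.mem_centralizer_singleton_iff.1 hg).symm

end Pool.Agent.H77B.DIC
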