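import Pool.Agent.H77GP.A9
import Pool.Agent.H77GP.A11
import Pool.Agent.H77N.Defs

/-!
# Graph products with more general vertex groups: definitions
-/

set_option autoImplicit false
set_option linter.unusedSectionVars false

noncomputable section

attribute [local instance] V7N.bcF_additive

namespace Pool.Agent.H77B

open Finset Pool.Agent.H77RA Pool.Agent.H77GP

section chains

variable {Q R : Type} [Group Q] [Ring R]

/-- one degree of `PE` -/
def PEn (c : Q →* R) (H : Subgroup Q) (n : ℕ) : Prop :=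
  ∀ x ∈ dg Q R (n + 1), dd x ∈ Jt c H → ∃ y ∈ dg Q R (n + 2), x - dd y ∈ Jt c H

/-- the homology in degree `n` is zero -/
def HV {K : Type} [Group K] (c : K →* R) (n : ℕ) : Prop :=
  Subsingleton (((V7N.bcF c).leftDerived n).obj (V7N.trivG K))

/-- right multiplication of the coefficients -/
def rm (u : R) : XM Q R →ₗ[R] XM Q R := Finsupp.mapRange.linearMap (LinearMap.toSpanSingleton R R u)

theorem rm_single (u : R) (l : List Q) (r : R) : rm u (Finsupp.single l r) = Finsupp.single l (r * u) := by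
  unfold rm
  rw [Finsupp.mapRange.linearMap_apply, Finsupp.mapRange_single]
  rfl

/-- row vectors of chains times matrices -/
def xv {a b : ℕ} (z : Fin a → XM Q R) (D : Matrix (Fin a) (Fin b) R) : Fin b → XM Q R :=
  fun j => ∑ i, rm (D i j) (z i)

/-- Exactness in total degree `k` of the total complex of the chains of lists and of the complex with matrices `D`. -/
def TotEx {L : Type} [Group L] (c : L →* R) (r : ℕ → ℕ) (D : ∀ n, Matrix (Fin (r (n + 1))) (Fin (r n)) R) (k : ℕ) :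
    Prop :=
  ∀ z : (q : ℕ) → Fin (r q) → XM L R, (∀ q i, z q i ∈ dg L R (k + 1 - q)) →
    (∀ q i, dd (z q i) + ((-1 : ℤ) ^ k) • xv (z (q + 1)) (D q) i ∈ Jt c ⊤) →
    ∃ y : (q : ℕ) → Fin (r q) → XM L R, (∀ q i, y q i ∈ dg L R (k + 2 - q)) ∧
      ∀ q i, z q i - (dd (y q i) - ((-1 : ℤ) ^ k) • xv (y (q + 1)) (D q) i) ∈ Jt c ⊤

end chains

section graph

variable {V : Type}

/-- the subgroup generated by the subgroups `P v`, `v ∈ S`, of the vertex groups -/
def GsP (Γ : SimpleGraph V) (G : V → Type) [∀ v, Group (G v)] (P : ∀ v, Subgroup (G v)) (S : Finset V) :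
    Subgroup (GP Γ G) := Subgroup.closure {x | ∃ v ∈ S, ∃ a ∈ P v, x = gi Γ G v a}

section

variable (Γ : SimpleGraph V) (G : V → Type) [∀ v, Group (G v)] (P P' : ∀ v, Subgroup (G v))

theorem gsp_mem {S : Finset V} {v : V} (hv : v ∈ S) {a : G v} (ha : a ∈ P v) : gi Γ G v a ∈ GsP Γ G P S :=
  Subgroup.subset_closure ⟨v, hv, a, ha, rfl⟩

theorem GsP_le {S : Finset V} {K : Subgroup (GP Γ G)} (h : ∀ v ∈ S, ∀ a ∈ P v, gi Γ G v a ∈ K) : GsP Γ G P S ≤ K := by
  refine (Subgroup.closure_le K).mpr ?_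
  rintro _ ⟨v, hv, a, ha, rfl⟩
  exact h v hv a ha

theorem GsP_mono {S T : Finset V} (h : S ⊆ T) : GsP Γ G P S ≤ GsP Γ G P T :=
  GsP_le Γ G P fun _ hv _ ha => gsp_mem Γ G P (h hv) ha

theorem GsP_mono' {S : Finset V} (h : ∀ v ∈ S, P v ≤ P' v) : GsP Γ G P S ≤ GsP Γ G P' S :=
  GsP_le Γ G P fun v hv _ ha => gsp_mem Γ G P' hv (h v hv ha)

theorem GsP_congr {S : Finset V} (h : ∀ v ∈ S, P v = P' v) : GsP Γ G P S = GsP Γ G P' S :=
  le_antisymm (GsP_mono' Γ G P P' fun v hv => (h v hv).le) (GsP_mono' Γ G P' P fun v hv => (h v hv).ge)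

theorem GsP_le_Gs (S : Finset V) : GsP Γ G P S ≤ Gs Γ G S := GsP_le Γ G P fun _ hv a _ => gi_mem Γ G hv a

theorem GsP_top (S : Finset V) : GsP Γ G (fun _ => ⊤) S = Gs Γ G S :=
  le_antisymm (GsP_le_Gs Γ G _ S) (Gs_le Γ G fun _ hv _ => gsp_mem Γ G _ hv trivial)

theorem GsP_empty : GsP Γ G P ∅ = ⊥ :=
  le_antisymm (GsP_le Γ G P fun v hv => absurd hv (notMem_empty v)) bot_le

theorem GsP_sup [DecidableEq V] (S : Finset V) (v : V) (_hv : v ∈ S) (L : Finset V) :
    GsP Γ G P S ≤ GsP Γ G P (S.erase v) ⊔ GsP Γ G P (insert v L) := by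
  refine GsP_le Γ G P fun u hu a ha => ?_
  by_cases huv : u = v
  · subst huv
    exact Subgroup.mem_sup_right (gsp_mem Γ G P (mem_insert_self _ _) ha)
  · exact Subgroup.mem_sup_left (gsp_mem Γ G P (mem_erase.mpr ⟨huv, hu⟩) ha)

end

/-- exactness, with coefficients in `R`, of the complex of the cliques contained in `S`, at the cliques with `k` vertices -/
def RX (R : Type) [Ring R] [Fintype V] [LinearOrder V] (Γ : SimpleGraph V) (S : Finset V) (k : ℕ) : Prop :=
  ∀ a : Finset V → R, Sup Γ S k a → bd a = 0 → ∃ b, Sup Γ S (k + 1) b ∧ bd b = a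

/-- the graph with doubled vertices; the two copies of a vertex are not adjacent -/
def G2 (Γ : SimpleGraph V) : SimpleGraph (V ×ₗ Bool) := Γ.comap fun p => (ofLex p).1

theorem G2_adj (Γ : SimpleGraph V) (p q : V ×ₗ Bool) : (G2 Γ).Adj p q ↔ Γ.Adj (ofLex p).1 (ofLex q).1 := Iff.rfl

end graph

end Pool.Agent.H77B
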