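import Pool.Agent.H77B.Stm

/-!
# Obstructors
-/

set_option autoImplicit false
set_option linter.unusedSectionVars false

noncomputable section

namespace Pool.Agent.H77B

open Finset Pool.Agent.W555.KS Pool.Agent.Y131.KS

/-- the support -/
def sp {n : ℕ} (a : Fin n → ℕ) : Finset (Fin n) := univ.filter fun i => a i ≠ 0

theorem mem_sp {n : ℕ} {a : Fin n → ℕ} {i : Fin n} : i ∈ sp a ↔ a i ≠ 0 := by
  unfold sp
  simp

/-- A proper expanding Lipschitz map `g` from the lattice points of the open cone over a finite simplicial complex `L`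
(the vectors with entries in `ℕ` whose support is a simplex) to a group `H`: adjacent lattice points of a simplicial cone
have images at bounded distance, and the images of lattice points `a`, `a'` of the cones over disjoint simplices can be at
distance at most a constant only if `a` and `a'` are bounded. -/
structure Obs (H : Type) [Group H] {n : ℕ} (L : Finset (Finset (Fin n))) (g : (Fin n → ℕ) → H) : Prop where
  cx : IsCx L
  lip : {h : H | ∃ a a' : Fin n → ℕ, sp a ∪ sp a' ∈ L ∧ (∀ i, a i ≤ a' i + 1 ∧ a' i ≤ a i + 1) ∧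
    h = (g a)⁻¹ * g a'}.Finite
  sep : ∀ T : Set H, T.Finite → ∃ C : ℕ, ∀ a a' : Fin n → ℕ, sp a ∈ L → sp a' ∈ L → Disjoint (sp a) (sp a') →
    (g a)⁻¹ * g a' ∈ T → ∀ i, a i ≤ C ∧ a' i ≤ C

/-- The group `H` has an obstructor of dimension `D` (Bestvina–Kapovich–Kleiner): a proper expanding Lipschitz map of the
cone over a finite simplicial complex whose mod 2 van Kampen class is not zero in degree `D` (in the deleted join, for the
pairs of disjoint simplices with `D` vertices altogether). -/
def Nob (H : Type) [Group H] (D : ℕ) : Prop :=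
  ∃ (n : ℕ) (L : Finset (Finset (Fin n))) (g : (Fin n → ℕ) → H), Obs H L g ∧ ¬ VK2 L D

/-- the first part of a subset of `Fin (n1 + n2)` -/
def lft {n1 n2 : ℕ} (σ : Finset (Fin (n1 + n2))) : Finset (Fin n1) := univ.filter fun i => Fin.castAdd n2 i ∈ σ

/-- the second part of a subset of `Fin (n1 + n2)` -/
def rgt {n1 n2 : ℕ} (σ : Finset (Fin (n1 + n2))) : Finset (Fin n2) := univ.filter fun i => Fin.natAdd n1 i ∈ σ

theorem mem_lft {n1 n2 : ℕ} {σ : Finset (Fin (n1 + n2))} {i : Fin n1} : i ∈ lft σ ↔ Fin.castAdd n2 i ∈ σ := by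
  unfold lft
  simp

theorem mem_rgt {n1 n2 : ℕ} {σ : Finset (Fin (n1 + n2))} {i : Fin n2} : i ∈ rgt σ ↔ Fin.natAdd n1 i ∈ σ := by
  unfold rgt
  simp

/-- the join of two complexes -/
def joinF {n1 n2 : ℕ} (L1 : Finset (Finset (Fin n1))) (L2 : Finset (Finset (Fin n2))) :
    Finset (Finset (Fin (n1 + n2))) := univ.filter fun σ => lft σ ∈ L1 ∧ rgt σ ∈ L2

theorem mem_joinF {n1 n2 : ℕ} {L1 : Finset (Finset (Fin n1))} {L2 : Finset (Finset (Fin n2))}
    {σ : Finset (Fin (n1 + n2))} : σ ∈ joinF L1 L2 ↔ lft σ ∈ L1 ∧ rgt σ ∈ L2 := by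
  unfold joinF
  simp

end Pool.Agent.H77B
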