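import Pool.Agent.H77B.Stm

set_option autoImplicit false
set_option linter.unusedSectionVars false

noncomputable section

attribute [local instance] VN831.bcFunctor_additive VN831.viaAdd VN831.viaMod V7N.bcF_additive
  V7N.rmAdd V7N.rmMod Pool.Agent.H77GP.bnAdd Pool.Agent.H77GP.bnMod

namespace Pool.Agent.H77B.EQV

open Finset Pool.Agent.H77RA Pool.Agent.H77GP Pool.Agent.H77B

section

variable {K Q R : Type} [Group K] [Group Q] [Ring R] (i : K →* Q) (c : Q →* R)

/-- the range contains the cycle -/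
theorem fwd (n : ℕ) (hi : Function.Injective i) (h : HV (c.comp i) n) : PEn c i.range n := by
  intro x hx hdx
  have key : ∃ z, V7N.bcM (c.comp i) (bD i n) z = Psi i c n x := by
    cases n with
    | zero =>
      obtain ⟨e⟩ := homR_zero i c hi
      have := h
      unfold HV at this
      have hs : Subsingleton (V7N.BCG (c.comp i) (BN i 0) ⧸ LinearMap.range (V7N.bcM (c.comp i) (bD i 0))) :=
        e.symm.toEquiv.subsingleton
      have h1 : (Submodule.Quotient.mk (Psi i c 0 x) : V7N.BCG (c.comp i) (BN i 0) ⧸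
          LinearMap.range (V7N.bcM (c.comp i) (bD i 0))) = 0 := Subsingleton.elim _ _
      exact (Submodule.Quotient.mk_eq_zero _).mp h1
    | succ n =>
      obtain ⟨e⟩ := homR_succ i c hi n
      have := h
      unfold HV at this
      have hs := e.symm.toEquiv.subsingleton
      have h0 : Psi i c (n + 1) x ∈ LinearMap.ker (V7N.bcM (c.comp i) (bD i n)) := by
        rw [LinearMap.mem_ker, ← Psi_dd i c n hx]
        exact Psi_Jt i c n hdx
      have h1 : (Submodule.Quotient.mk ⟨Psi i c (n + 1) x, h0⟩ :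
          (LinearMap.ker (V7N.bcM (c.comp i) (bD i n)) ⧸
        (LinearMap.range (V7N.bcM (c.comp i) (bD i (n + 1)))).submoduleOf
          (LinearMap.ker (V7N.bcM (c.comp i) (bD i n))))) = 0 := Subsingleton.elim _ _
      exact (Submodule.Quotient.mk_eq_zero _).mp h1
  obtain ⟨z, hz⟩ := key
  obtain ⟨y, hy, rfl⟩ := Psi_surj i c (n + 1) z
  refine ⟨y, hy, ?_⟩
  refine mem_Jt_of_Psi i c n (Submodule.sub_mem _ hx (dd_dg hy)) ?_
  rw [map_sub, Psi_dd i c n hy, hz, sub_self]

theorem bwd (n : ℕ) (hi : Function.Injective i) (h : PEn c i.range n) : HV (c.comp i) n := by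
  have key : ∀ z : V7N.BCG (c.comp i) (BN i n), (∀ x ∈ dg Q R (n + 1), Psi i c n x = z → dd x ∈ Jt c i.range) →
      z ∈ LinearMap.range (V7N.bcM (c.comp i) (bD i n)) := by
    intro z hz
    obtain ⟨x, hx, hxz⟩ := Psi_surj i c n z
    obtain ⟨y, hy, hyJ⟩ := h x hx (hz x hx hxz)
    refine ⟨Psi i c (n + 1) y, ?_⟩
    have h1 := Psi_Jt i c n hyJ
    rw [map_sub, sub_eq_zero] at h1
    rw [← Psi_dd i c n hy, ← h1, hxz]
  unfold HV
  cases n with
  | zero =>
    obtain ⟨e⟩ := homR_zero i c hi
    have hs : Subsingleton (V7N.BCG (c.comp i) (BN i 0) ⧸ LinearMap.range (V7N.bcM (c.comp i) (bD i 0))) := by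
      refine subsingleton_of_forall_eq 0 fun q => ?_
      obtain ⟨z, rfl⟩ := Submodule.Quotient.mk_surjective _ q
      rw [Submodule.Quotient.mk_eq_zero]
      exact key z fun x hx _ => dg0_le c _ (dd_dg hx)
    exact e.toEquiv.subsingleton
  | succ n =>
    obtain ⟨e⟩ := homR_succ i c hi n
    have hs : Subsingleton (LinearMap.ker (V7N.bcM (c.comp i) (bD i n)) ⧸
        (LinearMap.range (V7N.bcM (c.comp i) (bD i (n + 1)))).submoduleOf
          (LinearMap.ker (V7N.bcM (c.comp i) (bD i n)))) := by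
      refine subsingleton_of_forall_eq 0 fun q => ?_
      obtain ⟨⟨z, hz⟩, rfl⟩ := Submodule.Quotient.mk_surjective _ q
      rw [Submodule.Quotient.mk_eq_zero]
      refine Submodule.mem_comap.mpr ?_
      refine key z fun x hx hxz => ?_
      refine mem_Jt_of_Psi i c n (dd_dg hx) ?_
      rw [Psi_dd i c n hx, hxz]
      exact hz
    exact e.toEquiv.subsingleton

end

theorem t : Pool.Agent.H77B.EQV := by
  intro K Q R _ _ _ i c n hi
  exact ⟨fwd i c n hi, bwd i c n hi⟩

end Pool.Agent.H77B.EQV
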