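import Pool.Agent.H77B.Stm

/-!
# Project GB, stub FGR: a group with a resolution by free modules of finite rank is finitely generated
-/

set_option autoImplicit false

noncomputable section

namespace Pool.Agent.H77B.FGR

open Finset

section

variable {G : Type} [Group G]

open Classical in
/-- the sum of the coefficients at the elements of `H` -/
def chi (H : Subgroup G) : MonoidAlgebra ℤ G →+ ℤ :=
  (Finsupp.liftAddHom (fun g : G => if g ∈ H then AddMonoidHom.id ℤ else 0)).comp
    (MonoidAlgebra.coeffAddEquiv (R := ℤ) (M := G)).toAddMonoidHom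

open Classical in
theorem chi_single (H : Subgroup G) (g : G) (n : ℤ) :
    chi H (MonoidAlgebra.single g n) = if g ∈ H then n else 0 := by
  unfold chi
  simp only [AddMonoidHom.comp_apply]
  show Finsupp.liftAddHom _ ((MonoidAlgebra.single g n : MonoidAlgebra ℤ G).coeff) = _
  rw [MonoidAlgebra.coeff_single, Finsupp.liftAddHom_apply_single]
  split_ifs <;> rfl

/-- the sum of all coefficients -/
def aug : MonoidAlgebra ℤ G →+ ℤ := chi ⊤

theorem aug_single (g : G) (n : ℤ) : aug (MonoidAlgebra.single g n) = n := by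
  unfold aug
  rw [chi_single, if_pos (Subgroup.mem_top g)]

open Classical in
theorem chi_mul (H : Subgroup G) (g : G) (n : ℤ) (f : MonoidAlgebra ℤ G)
    (hf : ∀ h ∈ f.coeff.support, h ∈ H) :
    chi H (MonoidAlgebra.single g n * f) = if g ∈ H then n * aug f else 0 := by
  have hs : f = ∑ h ∈ f.coeff.support, MonoidAlgebra.single h (f.coeff h) :=
    (MonoidAlgebra.sum_coeff_single f).symm
  have h1 : chi H (MonoidAlgebra.single g n * f)
      = ∑ h ∈ f.coeff.support, if g * h ∈ H then n * f.coeff h else 0 := by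
    conv_lhs => rw [hs]
    rw [Finset.mul_sum, map_sum]
    refine Finset.sum_congr rfl fun h _ => ?_
    rw [MonoidAlgebra.single_mul_single, chi_single]
  have h2 : aug f = ∑ h ∈ f.coeff.support, f.coeff h := by
    conv_lhs => rw [hs]
    rw [map_sum]
    exact Finset.sum_congr rfl fun h _ => aug_single h _
  rw [h1, h2, Finset.mul_sum]
  split_ifs with hg
  · refine Finset.sum_congr rfl fun h hh => ?_
    rw [if_pos (H.mul_mem hg (hf h hh))]
  · refine Finset.sum_eq_zero fun h hh => ?_
    rw [if_neg]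
    intro hgh
    apply hg
    have := H.mul_mem hgh (H.inv_mem (hf h hh))
    rwa [mul_assoc, mul_inv_cancel, mul_one] at this

theorem eps_eq (C : V7N.FreeRes G) (v : Fin (C.r 0) → MonoidAlgebra ℤ G) :
    C.ε v = ∑ i, C.ε (Pi.single i 1) * aug (v i) := by
  have h1 : ∀ i : Fin (C.r 0), C.ε.comp (AddMonoidHom.single (fun _ : Fin (C.r 0) => MonoidAlgebra ℤ G) i)
      = (AddMonoidHom.mulLeft (C.ε (Pi.single i 1))).comp aug := by
    intro i
    apply MonoidAlgebra.addMonoidHom_ext
    intro g n
    simp only [AddMonoidHom.comp_apply, AddMonoidHom.coe_mulLeft]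
    rw [aug_single]
    have e1 : (AddMonoidHom.single (fun _ : Fin (C.r 0) => MonoidAlgebra ℤ G) i)
        (MonoidAlgebra.single g n)
        = n • (fun j => MonoidAlgebra.single g (1 : ℤ) * (Pi.single i 1 : Fin (C.r 0) → MonoidAlgebra ℤ G) j) := by
      funext j
      rw [AddMonoidHom.single_apply, Pi.smul_apply]
      by_cases hj : j = i
      · subst hj
        rw [Pi.single_eq_same, Pi.single_eq_same, mul_one, MonoidAlgebra.smul_single]
        simp
      · rw [Pi.single_eq_of_ne hj, Pi.single_eq_of_ne hj, mul_zero, smul_zero]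
    rw [e1, map_zsmul, C.ε_smul]
    simp [mul_comm]
  have h2 : v = ∑ i, Pi.single i (v i) := (Finset.univ_sum_single v).symm
  conv_lhs => rw [h2]
  rw [map_sum]
  refine Finset.sum_congr rfl fun i _ => ?_
  exact DFunLike.congr_fun (h1 i) (v i)

/-- the functional which vanishes on the kernel of the augmentation -/
def psi (C : V7N.FreeRes G) (H : Subgroup G) (v : Fin (C.r 0) → MonoidAlgebra ℤ G) : ℤ :=
  ∑ i, C.ε (Pi.single i 1) * chi H (v i)

theorem psi_row (C : V7N.FreeRes G) (H : Subgroup G)
    (hH : ∀ a i, ∀ h ∈ (C.d 0 a i).coeff.support, h ∈ H)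
    (w : Fin (C.r 1) → MonoidAlgebra ℤ G) : psi C H (Matrix.vecMul w (C.d 0)) = 0 := by
  classical
  have h1 : ∀ a : Fin (C.r 1), ∑ i, C.ε (Pi.single i 1) * aug (C.d 0 a i) = 0 := by
    intro a
    have h2 : C.ε (fun i => C.d 0 a i) = 0 := by
      apply (C.exact_zero _).2
      refine ⟨Pi.single a 1, ?_⟩
      rw [Matrix.single_one_vecMul]
      rfl
    rw [eps_eq] at h2
    exact h2
  have h3 : ∀ (a : Fin (C.r 1)) (f : MonoidAlgebra ℤ G),
      ∑ i, C.ε (Pi.single i 1) * chi H (f * C.d 0 a i) = 0 := by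
    intro a f
    induction f using MonoidAlgebra.induction_linear with
    | zero => simp
    | add x y hx hy =>
      have : ∑ i, C.ε (Pi.single i 1) * chi H ((x + y) * C.d 0 a i)
          = ∑ i, C.ε (Pi.single i 1) * chi H (x * C.d 0 a i)
            + ∑ i, C.ε (Pi.single i 1) * chi H (y * C.d 0 a i) := by
        rw [← Finset.sum_add_distrib]
        refine Finset.sum_congr rfl fun i _ => ?_
        rw [add_mul, map_add, mul_add]
      rw [this, hx, hy, add_zero]
    | single g n =>
      have : ∀ i, C.ε (Pi.single i 1) * chi H (MonoidAlgebra.single g n * C.d 0 a i)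
          = (if g ∈ H then n else 0) * (C.ε (Pi.single i 1) * aug (C.d 0 a i)) := by
        intro i
        rw [chi_mul H g n _ (hH a i)]
        split_ifs
        · ring
        · ring
      simp_rw [this]
      rw [← Finset.mul_sum, h1, mul_zero]
  unfold psi
  have h4 : ∀ i, chi H (Matrix.vecMul w (C.d 0) i) = ∑ a, chi H (w a * C.d 0 a i) := by
    intro i
    rw [← map_sum]
    rfl
  simp_rw [h4, Finset.mul_sum]
  rw [Finset.sum_comm]
  exact Finset.sum_eq_zero fun a _ => h3 a (w a)

theorem fg (C : V7N.FreeRes G) : Group.FG G := by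
  classical
  obtain ⟨w, hw⟩ := C.ε_surj 1
  set F : Set G := (⋃ a, ⋃ i, ((C.d 0 a i).coeff.support : Set G)) ∪
    ⋃ i, ((w i).coeff.support : Set G) with hF
  have hfin : F.Finite := by
    refine Set.Finite.union ?_ ?_
    · exact Set.finite_iUnion fun a => Set.finite_iUnion fun i => Finset.finite_toSet _
    · exact Set.finite_iUnion fun i => Finset.finite_toSet _
  rw [Group.fg_iff]
  refine ⟨F, ?_, hfin⟩
  set H := Subgroup.closure F with hH
  have h1 : ∀ a i, ∀ h ∈ (C.d 0 a i).coeff.support, h ∈ H := by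
    intro a i h hh
    apply Subgroup.subset_closure
    left
    exact Set.mem_iUnion.2 ⟨a, Set.mem_iUnion.2 ⟨i, hh⟩⟩
  have h2 : ∀ i, ∀ h ∈ (w i).coeff.support, h ∈ H := by
    intro i h hh
    apply Subgroup.subset_closure
    right
    exact Set.mem_iUnion.2 ⟨i, hh⟩
  rw [eq_top_iff]
  intro g _
  by_contra hg
  have h3 : C.ε ((fun i => MonoidAlgebra.single g (1 : ℤ) * w i) - w) = 0 := by
    rw [map_sub, C.ε_smul, sub_self]
  obtain ⟨u, hu⟩ := (C.exact_zero _).1 h3
  have h4 := psi_row C H h1 u
  rw [← hu] at h4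
  unfold psi at h4
  have h5 : ∀ i, C.ε (Pi.single i 1) * chi H (((fun i => MonoidAlgebra.single g (1 : ℤ) * w i) - w) i)
      = -(C.ε (Pi.single i 1) * aug (w i)) := by
    intro i
    rw [Pi.sub_apply, map_sub, chi_mul H g 1 _ (h2 i), if_neg hg]
    have h6 : chi H (w i) = aug (w i) := by
      have := chi_mul H 1 1 (w i) (h2 i)
      rw [if_pos H.one_mem, one_mul, ← MonoidAlgebra.one_def, one_mul] at this
      exact this
    rw [h6]
    ring
  simp_rw [h5] at h4
  rw [Finset.sum_neg_distrib, ← eps_eq, hw] at h4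
  norm_num at h4

end

theorem t : Pool.Agent.H77B.FGR := fun _ _ C => fg C

end Pool.Agent.H77B.FGR
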