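import Pool.Agent.H77B.Stm2

/-!
# The Hodge decomposition over the localization
-/

set_option autoImplicit false
set_option linter.unusedSectionVars false

open scoped Matrix ENNReal

noncomputable section

attribute [local instance] VN831.bcFunctor_additive VN831.viaAdd VN831.viaMod V7N.bcF_additive
  V7N.rmAdd V7N.rmMod

namespace Pool.Agent.H77B.GRG

open Pool.Agent.Helper655.VN Pool.Agent.RK VN831 Pool.Agent.N496.CV Pool.Agent.H77GP

section alg

variable {U : Type} [Ring U]

/-- entrywise commutation -/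
def CM {a b : ℕ} (s : U) (M : Matrix (Fin a) (Fin b) U) : Prop := ∀ x y, Commute s (M x y)

theorem CM.mul {a b d : ℕ} {s : U} {M : Matrix (Fin a) (Fin b) U} {N : Matrix (Fin b) (Fin d) U}
    (h : CM s M) (h' : CM s N) : CM s (M * N) := fun x y => by
  rw [Matrix.mul_apply]
  exact Commute.sum_right _ _ _ fun j _ => (h x j).mul_right (h' j y)

theorem CM.add {a b : ℕ} {s : U} {M N : Matrix (Fin a) (Fin b) U}
    (h : CM s M) (h' : CM s N) : CM s (M + N) := fun x y => (h x y).add_right (h' x y)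

theorem CM.sub {a b : ℕ} {s : U} {M N : Matrix (Fin a) (Fin b) U}
    (h : CM s M) (h' : CM s N) : CM s (M - N) := fun x y => (h x y).sub_right (h' x y)

theorem cm_iff {a : ℕ} {s : U} {L : Matrix (Fin a) (Fin a) U} : CM s L ↔
    Matrix.diagonal (fun _ : Fin a => s) * L = L * Matrix.diagonal (fun _ : Fin a => s) := by
  constructor
  · intro h
    ext1 x y
    rw [Matrix.diagonal_mul, Matrix.mul_diagonal]
    exact h x y
  · intro h x y
    have h5 := congrFun (congrFun h x) y
    rw [Matrix.diagonal_mul, Matrix.mul_diagonal] at h5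
    exact h5

theorem CM.inv {a : ℕ} {s : U} {L g : Matrix (Fin a) (Fin a) U} (h : CM s L) (h1 : g * L = 1)
    (h2 : L * g = 1) : CM s g := by
  rw [cm_iff] at h ⊢
  generalize Matrix.diagonal (fun _ : Fin a => s) = S at h
  symm
  calc g * S = g * (S * (L * g)) := by rw [h2, Matrix.mul_one]
    _ = g * ((S * L) * g) := by rw [Matrix.mul_assoc]
    _ = (g * L) * (S * g) := by
        rw [h]
        simp only [Matrix.mul_assoc]
    _ = S * g := by rw [h1, Matrix.one_mul]

/-- Facts on the projection to the kernel. -/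
theorem W_P {a : ℕ} {L P W : Matrix (Fin a) (Fin a) U} (hP : P * P = P) (hLP : L * P = 0)
    (h1 : W * (L + P) = 1) : W * P = P := by
  have h3 : (L + P) * P = P := by rw [Matrix.add_mul, hLP, hP, zero_add]
  calc W * P = W * ((L + P) * P) := by rw [h3]
    _ = P := by rw [← Matrix.mul_assoc, h1, Matrix.one_mul]

theorem P_W {a : ℕ} {L P W : Matrix (Fin a) (Fin a) U} (hP : P * P = P) (hPL : P * L = 0)
    (h2 : (L + P) * W = 1) : P * W = P := by
  have h3 : P * (L + P) = P := by rw [Matrix.mul_add, hPL, hP, zero_add]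
  calc P * W = (P * (L + P)) * W := by rw [h3]
    _ = P := by rw [Matrix.mul_assoc, h2, Matrix.mul_one]

theorem CM.proj {a : ℕ} {s : U} {L P W : Matrix (Fin a) (Fin a) U} (h : CM s L) (hP : P * P = P)
    (hLP : L * P = 0) (hPL : P * L = 0) (h1 : W * (L + P) = 1) (h2 : (L + P) * W = 1) : CM s P := by
  rw [cm_iff] at h ⊢
  generalize Matrix.diagonal (fun _ : Fin a => s) = S at h
  have e1 := W_P hP hLP h1
  have e2 := P_W hP hPL h2
  have e3 : S * P = P * S * P := by
    have e4 : (L + P) * (S * P) = P * S * P := by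
      rw [Matrix.add_mul, ← Matrix.mul_assoc L, ← h, Matrix.mul_assoc S, hLP, Matrix.mul_zero, zero_add,
        Matrix.mul_assoc]
    calc S * P = W * ((L + P) * (S * P)) := by rw [← Matrix.mul_assoc, h1, Matrix.one_mul]
      _ = W * P * (S * P) := by
          rw [e4]
          simp only [Matrix.mul_assoc]
      _ = P * S * P := by rw [e1, Matrix.mul_assoc]
  have e5 : P * S = P * S * P := by
    have e4 : (P * S) * (L + P) = P * S * P := by
      rw [Matrix.mul_add, Matrix.mul_assoc P S L, h, ← Matrix.mul_assoc P L, hPL, Matrix.zero_mul,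
        zero_add]
    calc P * S = ((P * S) * (L + P)) * W := by rw [Matrix.mul_assoc, h2, Matrix.mul_one]
      _ = P * S * (P * W) := by
          rw [e4]
          simp only [Matrix.mul_assoc]
      _ = P * S * P := by rw [e2]
  rw [e3, ← e5]

variable (r : ℕ → ℕ) (D : ∀ n, Matrix (Fin (r (n + 1))) (Fin (r n)) U)
  (E : ∀ n, Matrix (Fin (r n)) (Fin (r (n + 1))) U)
  (L P W : ∀ n, Matrix (Fin (r n)) (Fin (r n)) U)
  (hD : ∀ n, D (n + 1) * D n = 0) (hP : ∀ n, P n * P n = P n) (hDP : ∀ n, D n * P n = 0)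
  (hPD : ∀ n, P (n + 1) * D n = 0) (hPE : ∀ n, P n * E n = 0) (hEP : ∀ n, E n * P (n + 1) = 0)
  (hL0 : L 0 = E 0 * D 0) (hL : ∀ n, L (n + 1) = E (n + 1) * D (n + 1) + D n * E n)
  (h1 : ∀ n, W n * (L n + P n) = 1) (h2 : ∀ n, (L n + P n) * W n = 1)

include hDP hEP hL0 hL in
theorem LP : ∀ n, L n * P n = 0
  | 0 => by rw [hL0, Matrix.mul_assoc, hDP, Matrix.mul_zero]
  | n + 1 => by
      rw [hL, Matrix.add_mul, Matrix.mul_assoc, Matrix.mul_assoc, hDP, hEP, Matrix.mul_zero,
        Matrix.mul_zero, add_zero]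

include hPD hPE hL0 hL in
theorem PL : ∀ n, P n * L n = 0
  | 0 => by rw [hL0, ← Matrix.mul_assoc, hPE, Matrix.zero_mul]
  | n + 1 => by
      rw [hL, Matrix.mul_add, ← Matrix.mul_assoc, ← Matrix.mul_assoc, hPE, hPD, Matrix.zero_mul,
        Matrix.zero_mul, add_zero]

include hD hL0 hL in
theorem LD : ∀ n, L (n + 1) * D n = D n * L n
  | 0 => by
      rw [hL, hL0, Matrix.add_mul, Matrix.mul_assoc (E 1), hD, Matrix.mul_zero, Matrix.mul_assoc]
      exact zero_add _
  | n + 1 => by
      rw [hL (n + 1), hL n, Matrix.add_mul, Matrix.mul_assoc (E (n + 2)), hD, Matrix.mul_zero, zero_add,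
        Matrix.mul_add, ← Matrix.mul_assoc (D (n + 1)) (D n), hD, Matrix.zero_mul, add_zero,
        Matrix.mul_assoc]

/-- the contraction -/
def KK (n : ℕ) : Matrix (Fin (r n)) (Fin (r (n + 1))) U := E n * (W (n + 1) - P (n + 1))

include hP hPD hPE hDP hEP hL0 hL h1 h2 in
theorem Lg (n : ℕ) : L n * (W n - P n) = 1 - P n := by
  have e1 := LP r D E L P hDP hEP hL0 hL n
  have e2 := PL r D E L P hPD hPE hL0 hL n
  have e3 := P_W (hP n) e2 (h2 n)
  have e4 : L n * W n = 1 - P n := by
    have := h2 n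
    rw [Matrix.add_mul, e3] at this
    rw [← this, add_sub_cancel_right]
  rw [Matrix.mul_sub, e1, e4, sub_zero]

include hD hL0 hL hPD hDP h1 h2 in
theorem gD (n : ℕ) : (W (n + 1) - P (n + 1)) * D n = D n * (W n - P n) := by
  have e1 := LD r D E L hD hL0 hL n
  have e2 : (L (n + 1) + P (n + 1)) * D n = D n * (L n + P n) := by
    rw [Matrix.add_mul, Matrix.mul_add, e1, hPD, hDP]
  rw [Matrix.sub_mul, Matrix.mul_sub, hPD, hDP, sub_zero, sub_zero]
  calc W (n + 1) * D n = W (n + 1) * (D n * ((L n + P n) * W n)) := by rw [h2, Matrix.mul_one]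
    _ = W (n + 1) * ((D n * (L n + P n)) * W n) := by rw [Matrix.mul_assoc]
    _ = (W (n + 1) * (L (n + 1) + P (n + 1))) * (D n * W n) := by
        rw [← e2]
        simp only [Matrix.mul_assoc]
    _ = D n * W n := by rw [h1, Matrix.one_mul]

include hD hP hDP hPD hPE hEP hL0 hL h1 h2 in
theorem q0 : KK r E P W 0 * D 0 = 1 - P 0 := by
  unfold KK
  rw [Matrix.mul_assoc, gD r D E L P W hD hDP hPD hL0 hL h1 h2, ← Matrix.mul_assoc, ← hL0,
    Lg r D E L P W hP hDP hPD hPE hEP hL0 hL h1 h2]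

include hD hP hDP hPD hPE hEP hL0 hL h1 h2 in
theorem q1 (n : ℕ) : D n * KK r E P W n + KK r E P W (n + 1) * D (n + 1) = 1 - P (n + 1) := by
  unfold KK
  rw [Matrix.mul_assoc (E (n + 1)), gD r D E L P W hD hDP hPD hL0 hL h1 h2, ← Matrix.mul_assoc,
    ← Matrix.mul_assoc, ← Matrix.add_mul, add_comm (D n * E n), ← hL,
    Lg r D E L P W hP hDP hPD hPE hEP hL0 hL h1 h2]

end alg

section hodge

variable {K : Type} [Group K] {a b d : ℕ}

theorem hodge (A : Matrix (Fin a) (Fin b) (NG K)) (B : Matrix (Fin b) (Fin d) (NG K)) (hAB : A * B = 0) :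
    ∃ e : Matrix (Fin b) (Fin b) (NG K), e * e = e ∧ eᴴ = e ∧ A * e = 0 ∧ e * B = 0 ∧
      (rk (tau K) A + rk (tau K) B = b → e = 0) ∧
      ∀ x : Fin b → NG K, Matrix.vecMul x (Aᴴ * A + B * Bᴴ + e) = 0 → x = 0 := by
  classical
  obtain ⟨p, q, hp, hq, hpq, hqp, hTr⟩ := projections A B hAB
  have hqB : q * B = 0 := by
    rw [← hp.mul, ← Matrix.mul_assoc, hqp, Matrix.zero_mul]
  have hAq : A * q = A := by
    have := congrArg Matrix.conjTranspose hq.mul
    rwa [Matrix.conjTranspose_mul, hq.star, Matrix.conjTranspose_conjTranspose] at this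
  have hAp : A * p = 0 := Pool.Agent.RK.Lp.lp_min_mat hp A hAB
  have heB : (1 - p - q) * B = 0 := by
    rw [Matrix.sub_mul, Matrix.sub_mul, Matrix.one_mul, hp.mul, hqB, sub_self, sub_zero]
  have hAe : A * (1 - p - q) = 0 := by
    rw [Matrix.mul_sub, Matrix.mul_sub, Matrix.mul_one, hAp, hAq, sub_zero, sub_self]
  have hee : (1 - p - q) * (1 - p - q) = 1 - p - q := by
    rw [Matrix.mul_sub, Matrix.mul_sub, Matrix.mul_one, Matrix.sub_mul, Matrix.sub_mul, Matrix.one_mul, hp.idem, hqp,
      Matrix.sub_mul, Matrix.sub_mul, Matrix.one_mul, hpq, hq.idem]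
    simp
  have hes : (1 - p - q)ᴴ = 1 - p - q := by
    rw [Matrix.conjTranspose_sub, Matrix.conjTranspose_sub, Matrix.conjTranspose_one, hp.star, hq.star]
  have hrow : ∀ {n : ℕ} (Y : Matrix Unit (Fin n) (NG K)), Tr (tau K) (Y * Yᴴ) = 0 → Y = 0 := by
    intro n Y hY
    refine (Pool.Agent.RK.Tr.tr_star (vn_NG (G := K)) Y).2 ?_
    rw [Pool.Agent.RK.Tr.tr_comm (vn_NG (G := K))]
    exact hY
  have hpos : ∀ {n : ℕ} (Y : Matrix Unit (Fin n) (NG K)), 0 ≤ Tr (tau K) (Y * Yᴴ) := by
    intro n Y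
    rw [Pool.Agent.RK.Tr.tr_comm (vn_NG (G := K))]
    exact (Pool.Agent.RK.Tr.tr_star (vn_NG (G := K)) Y).1
  refine ⟨1 - p - q, hee, hes, hAe, heB, ?_, ?_⟩
  · intro h0
    refine (Pool.Agent.RK.Tr.tr_star (vn_NG (G := K)) (1 - p - q)).2 ?_
    rw [hes, hee, hTr]
    linarith
  · intro x hx
    let X : Matrix Unit (Fin b) (NG K) := fun _ => x
    have h1 : X * (Aᴴ * A + B * Bᴴ + (1 - p - q)) = 0 := by
      ext1 i j
      exact congrFun hx j
    have h2 : (X * Aᴴ) * (X * Aᴴ)ᴴ + (X * B) * (X * B)ᴴ +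
        (X * (1 - p - q)) * (X * (1 - p - q))ᴴ = 0 := by
      have h3 : (X * (Aᴴ * A + B * Bᴴ + (1 - p - q))) * Xᴴ = 0 := by rw [h1, Matrix.zero_mul]
      rw [← h3]
      conv_rhs => rw [← hee]
      simp only [Matrix.conjTranspose_mul, Matrix.conjTranspose_conjTranspose, hes]
      simp only [Matrix.mul_add, Matrix.add_mul, Matrix.mul_assoc]
    have h4 : Tr (tau K) ((X * Aᴴ) * (X * Aᴴ)ᴴ) + Tr (tau K) ((X * B) * (X * B)ᴴ) +
        Tr (tau K) ((X * (1 - p - q)) * (X * (1 - p - q))ᴴ) = 0 := by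
      have h5 := congrArg (Tr (tau K)) h2
      unfold Tr at h5 ⊢
      simp only [Matrix.add_apply, map_add, Finset.sum_add_distrib, Matrix.zero_apply, map_zero,
        Finset.sum_const_zero] at h5
      exact h5
    have h6 := hpos (X * Aᴴ)
    have h7 := hpos (X * B)
    have h7' := hpos (X * (1 - p - q))
    have h8 := hrow (X * Aᴴ) (by linarith)
    have h9 := hrow (X * B) (by linarith)
    have h9' := hrow (X * (1 - p - q)) (by linarith)
    have h10 : X = 0 := by
      have h11 := Pool.Agent.RK.Lp.lp_min_mat hq X h8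
      have h12 := Pool.Agent.RK.Lp.lp_min_mat hp X h9
      rw [Matrix.mul_sub, Matrix.mul_sub, h11, h12, sub_zero, sub_zero, Matrix.mul_one] at h9'
      exact h9'
    exact congrFun h10 ()

theorem hodge_n (C : V7N.FreeRes K) : ∀ n : ℕ, ∃ e : Matrix (Fin (C.r n)) (Fin (C.r n)) (NG K),
    e * e = e ∧ eᴴ = e ∧ nm C n * e = 0 ∧ (∀ m, ∀ h : m + 1 = n,
      (h ▸ e : Matrix (Fin (C.r (m + 1))) (Fin (C.r (m + 1))) (NG K)) * nm C m = 0) ∧
      (l2Betti K n = 0 → e = 0) ∧
      ∀ x : Fin (C.r n) → NG K, Matrix.vecMul x (Lap C n + e) = 0 → x = 0 := by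
  intro n
  cases n with
  | zero =>
    obtain ⟨e, h1, h2, h3, h4, h5, h6⟩ := hodge (nm C 0)
      (0 : Matrix (Fin (C.r 0)) (Fin 0) (NG K)) (by rw [Matrix.mul_zero])
    refine ⟨e, h1, h2, h3, ?_, ?_, ?_⟩
    · intro m h
      omega
    · intro hb
      apply h5
      rw [rk_cols_zero, add_zero]
      exact (zero_iff C).1 hb
    · intro x hx
      apply h6
      rw [Matrix.zero_mul, add_zero]
      exact hx
  | succ n =>
    obtain ⟨e, h1, h2, h3, h4, h5, h6⟩ := hodge (nm C (n + 1)) (nm C n) (nm_mul C n)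
    refine ⟨e, h1, h2, h3, ?_, ?_, ?_⟩
    · intro m h
      obtain rfl : m = n := by omega
      exact h4
    · intro hb
      exact h5 ((succ_iff C n).1 hb)
    · intro x hx
      exact h6 x hx

end hodge

section main

variable {G Q U : Type} [Group G] [Group Q] [Ring U] (i : G →* Q) (hi : Function.Injective i)
  (ι : NG Q →+* U)

theorem inv_exists (hι : Loc ι) {n : ℕ} (M : Matrix (Fin n) (Fin n) (NG G))
    (hM : ∀ x : Fin n → NG G, Matrix.vecMul x M = 0 → x = 0) :
    ∃ g : Matrix (Fin n) (Fin n) U,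
      g * M.map (ι.comp (jK i hi)) = 1 ∧ M.map (ι.comp (jK i hi)) * g = 1 := by
  have hsurj : ∀ (v : Fin n → U), ∃ w, v = Matrix.vecMul w (M.map (ι.comp (jK i hi))) := by
    intro v
    have := U_surj ι hι (M.map (jK i hi)) (jK_inj_mat i hi _ hM) v
    rw [Matrix.map_map] at this
    exact this
  have hinj : ∀ (v : Fin n → U), Matrix.vecMul v (M.map (ι.comp (jK i hi))) = 0 → v = 0 := by
    intro v hv
    refine U_inj ι hι (M.map (jK i hi)) (jK_inj_mat i hi _ hM) v ?_
    rw [Matrix.map_map]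
    exact hv
  generalize M.map (ι.comp (jK i hi)) = Λ at hsurj hinj
  choose w hw using fun x : Fin n => hsurj ((1 : Matrix (Fin n) (Fin n) U) x)
  have h1 : Matrix.of w * Λ = 1 := by
    ext1 x y
    exact (congrFun (hw x) y).symm
  refine ⟨Matrix.of w, h1, ?_⟩
  have h2 : (Λ * Matrix.of w - 1) * Λ = 0 := by
    rw [Matrix.sub_mul, Matrix.mul_assoc, h1, Matrix.mul_one, Matrix.one_mul, sub_self]
  have h3 : Λ * Matrix.of w - 1 = 0 := by
    ext1 x y
    have h4 := hinj ((Λ * Matrix.of w - 1) x) (by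
      funext z
      exact congrFun (congrFun h2 x) z)
    exact congrFun h4 y
  exact sub_eq_zero.1 h3

theorem comm_ev (c : G →* U) (s : U) (hs : ∀ g, Commute s (c g)) (x : MonoidAlgebra ℤ G) :
    Commute s (V7N.evM c x) := by
  induction x using MonoidAlgebra.induction_linear with
  | zero => rw [map_zero]; exact Commute.zero_right s
  | add x y hx hy => rw [map_add]; exact hx.add_right hy
  | single g n =>
    rw [V7N.phi_evM_single]
    exact (Int.commute_cast s n).mul_right (hs g)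

theorem star_canL (g : G) : star (canL g : NG G) = canL g⁻¹ := by
  apply Subtype.ext
  change star (lam G g) = lam G g⁻¹
  rw [star_lam]

theorem comm_ev_star (θ : NG G →+* U) (s : U) (hs : ∀ g, Commute s (θ (canL g)))
    (x : MonoidAlgebra ℤ G) : Commute s (θ (star (V7N.evM (canL : G →* NG G) x))) := by
  induction x using MonoidAlgebra.induction_linear with
  | zero => rw [map_zero, star_zero, map_zero]; exact Commute.zero_right s
  | add x y hx hy => rw [map_add, star_add, map_add]; exact hx.add_right hy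
  | single g n =>
    rw [V7N.phi_evM_single, star_mul, star_canL, star_intCast, map_mul, map_intCast]
    exact (hs _).mul_right (Int.commute_cast s n)

end main

theorem t : Pool.Agent.H77B.GRG := by
  intro G Q U _ _ _ i hi ι hι C
  set c : G →* U := ((ι : NG Q →* U).comp canL).comp i with hc
  set θ : NG G →+* U := ι.comp (jK i hi) with hθ
  have hcθ : c = (θ : NG G →* U).comp canL := by
    ext g
    change ι (canL (i g)) = ι (jK i hi (canL g))
    rw [jK_canL]
  have hmat : ∀ m, (C.d m).map (V7N.evM c) = (nm C m).map θ := by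
    intro m
    unfold nm
    rw [Matrix.map_map]
    ext1 x y
    rw [Matrix.map_apply, Matrix.map_apply, hcθ, evM_comp]
    rfl
  choose e he1 he2 he3 he4 he5 he6 using hodge_n C
  have he4' : ∀ n, e (n + 1) * nm C n = 0 := fun n => he4 (n + 1) n rfl
  have hz : ∀ {a b : ℕ}, ((0 : Matrix (Fin a) (Fin b) (NG G)).map θ) = 0 := by
    intro a b
    ext1 x y
    exact map_zero θ
  set D : ∀ n, Matrix (Fin (C.r (n + 1))) (Fin (C.r n)) U := fun n => (nm C n).map θ with hDdef
  set E : ∀ n, Matrix (Fin (C.r n)) (Fin (C.r (n + 1))) U := fun n => ((nm C n)ᴴ).map θ with hEdef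
  set L : ∀ n, Matrix (Fin (C.r n)) (Fin (C.r n)) U := fun n => (Lap C n).map θ with hLdef
  set P : ∀ n, Matrix (Fin (C.r n)) (Fin (C.r n)) U := fun n => (e n).map θ with hPdef
  have hD : ∀ n, D (n + 1) * D n = 0 := by
    intro n
    change (nm C (n + 1)).map θ * (nm C n).map θ = 0
    rw [← Matrix.map_mul, nm_mul, hz]
  have hP : ∀ n, P n * P n = P n := by
    intro n
    change (e n).map θ * (e n).map θ = (e n).map θ
    rw [← Matrix.map_mul, he1]
  have hDP : ∀ n, D n * P n = 0 := by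
    intro n
    change (nm C n).map θ * (e n).map θ = 0
    rw [← Matrix.map_mul, he3, hz]
  have hPD : ∀ n, P (n + 1) * D n = 0 := by
    intro n
    change (e (n + 1)).map θ * (nm C n).map θ = 0
    rw [← Matrix.map_mul, he4', hz]
  have hPE : ∀ n, P n * E n = 0 := by
    intro n
    change (e n).map θ * ((nm C n)ᴴ).map θ = 0
    have h1 : e n * (nm C n)ᴴ = 0 := by
      have := congrArg Matrix.conjTranspose (he3 n)
      rwa [Matrix.conjTranspose_mul, he2, Matrix.conjTranspose_zero] at this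
    rw [← Matrix.map_mul, h1, hz]
  have hEP : ∀ n, E n * P (n + 1) = 0 := by
    intro n
    change ((nm C n)ᴴ).map θ * (e (n + 1)).map θ = 0
    have h1 : (nm C n)ᴴ * e (n + 1) = 0 := by
      have := congrArg Matrix.conjTranspose (he4' n)
      rwa [Matrix.conjTranspose_mul, he2, Matrix.conjTranspose_zero] at this
    rw [← Matrix.map_mul, h1, hz]
  have hL0 : L 0 = E 0 * D 0 := by
    change ((nm C 0)ᴴ * nm C 0).map θ = _
    rw [Matrix.map_mul]
  have hL : ∀ n, L (n + 1) = E (n + 1) * D (n + 1) + D n * E n := by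
    intro n
    change ((nm C (n + 1))ᴴ * nm C (n + 1) + nm C n * (nm C n)ᴴ).map θ = _
    rw [Matrix.map_add _ (map_add θ), Matrix.map_mul, Matrix.map_mul]
  choose W hW1 hW2 using fun n : ℕ => inv_exists i hi ι hι (Lap C n + e n) (he6 n)
  have h1 : ∀ n, W n * (L n + P n) = 1 := by
    intro n
    have := hW1 n
    rw [Matrix.map_add _ (map_add (ι.comp (jK i hi)))] at this
    exact this
  have h2 : ∀ n, (L n + P n) * W n = 1 := by
    intro n
    have := hW2 n
    rw [Matrix.map_add _ (map_add (ι.comp (jK i hi)))] at this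
    exact this
  refine ⟨KK C.r E P W, P, ?_, ?_, ?_, ?_, hP, ?_, ?_⟩
  · rw [hmat]
    exact q0 C.r D E L P W hD hP hDP hPD hPE hEP hL0 hL h1 h2
  · intro n
    rw [hmat, hmat]
    exact q1 C.r D E L P W hD hP hDP hPD hPE hEP hL0 hL h1 h2 n
  · intro n
    rw [hmat]
    exact hDP n
  · intro n
    rw [hmat]
    exact hPD n
  · intro n hn
    change (e n).map θ = 0
    rw [he5 n hn, hz]
  · intro q hq
    set s : U := ((ι : NG Q →* U).comp canL) q with hs
    have hsc : ∀ x, Commute s (c x) := by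
      intro x
      exact (hq x).map ((ι : NG Q →* U).comp canL)
    have hsD : ∀ n, CM s (D n) := by
      intro n x y
      have : D n = (C.d n).map (V7N.evM c) := (hmat n).symm
      rw [this]
      exact comm_ev c s hsc _
    have hsE : ∀ n, CM s (E n) := by
      intro n x y
      refine comm_ev_star θ s ?_ _
      intro x
      have h3 := hsc x
      rw [hcθ] at h3
      exact h3
    have hsL : ∀ n, CM s (L n) := by
      intro n
      cases n with
      | zero => rw [hL0]; exact (hsE 0).mul (hsD 0)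
      | succ n => rw [hL]; exact ((hsE (n + 1)).mul (hsD (n + 1))).add ((hsD n).mul (hsE n))
    have hsP : ∀ n, CM s (P n) := fun n =>
      (hsL n).proj (hP n) (LP C.r D E L P hDP hEP hL0 hL n) (PL C.r D E L P hPD hPE hL0 hL n) (h1 n) (h2 n)
    have hsW : ∀ n, CM s (W n) := fun n => ((hsL n).add (hsP n)).inv (h1 n) (h2 n)
    exact ⟨fun n => (hsE n).mul ((hsW (n + 1)).sub (hsP (n + 1))), hsP⟩

end Pool.Agent.H77B.GRG
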