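import Pool.Agent.H77B.Stm2
import Pool.Agent.H77N.LIN

/-!
# The geometric part for groups with obstructors
-/

set_option autoImplicit false
set_option linter.unusedSectionVars false

noncomputable section

namespace Pool.Agent.H77B

open Finset Pool.Agent.W326.DU Pool.Agent.W555.KS Pool.Agent.Y131.KS Pool.Agent.R782.Bal Pool.Agent.H77RA
open Pool.Agent.H77AR Pool.Agent.H77GP Pool.Agent.H77N
open scoped Manifold ContDiff

theorem nob_prod (hPRO : PRO) (hVKJ : VKJ) {H1 H2 : Type} [Group H1] [Group H2] {D1 D2 : ℕ} (h1 : Nob H1 D1)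
    (h2 : Nob H2 D2) : Nob (H1 × H2) (D1 + D2) := by
  obtain ⟨n1, L1, g1, o1, v1⟩ := h1
  obtain ⟨n2, L2, g2, o2, v2⟩ := h2
  exact ⟨n1 + n2, joinF L1 L2, _, hPRO H1 H2 n1 n2 L1 L2 g1 g2 o1 o2, hVKJ n1 n2 L1 L2 D1 D2 v1 v2⟩

theorem nob_inj (hINJ : INJ) {H Q : Type} [Group H] [Group Q] (f : H →* Q) (hf : Function.Injective f) {D : ℕ}
    (h : Nob H D) : Nob Q D := by
  obtain ⟨n, L, g, o, v⟩ := h
  exact ⟨n, L, _, hINJ H Q f hf n L g o, v⟩

theorem nob_zero (H : Type) [Group H] : Nob H 0 := by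
  refine ⟨0, {∅}, fun _ => 1, ⟨⟨mem_singleton_self _, ?_⟩, ?_, ?_⟩, ?_⟩
  · intro σ _ τ _
    rw [mem_singleton]
    exact Subsingleton.elim _ _
  · refine (Set.finite_singleton (1 : H)).subset ?_
    rintro h ⟨_, _, _, _, rfl⟩
    simp
  · intro T _
    exact ⟨0, fun a a' _ _ _ _ i => i.elim0⟩
  · intro h
    have h1 := h (fun _ _ => 1) (fun _ _ => rfl) (fun σ τ _ => ⟨by
      rw [mem_singleton]; exact Subsingleton.elim _ _, by rw [mem_singleton]; exact Subsingleton.elim _ _⟩)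
      (fun ρ τ _ h => absurd h (by omega))
    simp at h1

theorem nob_act (hACT : ACT) {Q : Type} [Group Q] {D : ℕ} (h : Nob Q D) {E : Type} [NormedAddCommGroup E]
    [NormedSpace ℝ E]
    [FiniteDimensional ℝ E] {HH : Type} [TopologicalSpace HH] (I : ModelWithCorners ℝ E HH) {W : Type}
    [TopologicalSpace W] [T2Space W] [ChartedSpace HH W] [ContractibleSpace W]
    [MulAction Q W] [ContinuousConstSMul Q W] [ProperlyDiscontinuousSMul Q W] : D ≤ Module.finrank ℝ E := by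
  by_contra hlt
  push Not at hlt
  obtain ⟨n, L, g, o, v⟩ := h
  obtain ⟨f1, hc, hne⟩ := hACT Q n L g o W
  rw [dJoin_eq o.cx] at hne
  exact v (vk2_le o.cx hlt (vk2_of_locDir2 o.cx f1 hc hne (fun C hC => locDir2_manifold I hC)))

theorem nob_raag (hRGO : RGO) {V H : Type} [Fintype V] [LinearOrder V] [Group H] (Γ : SimpleGraph V)
    (ρ : RAAG Γ.Adj →* H) (hρ : SepH Γ ρ) (j : ℕ) (hQ : ¬ QEx Γ univ (j + 1)) : Nob H (2 * (j + 1)) := by
  obtain ⟨e⟩ : Nonempty (V × Bool ≃ Fin (Fintype.card (V × Bool))) := ⟨Fintype.equivFin _⟩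
  refine ⟨_, _, _, hRGO V Γ H ρ hρ _ e, fun h1 => hQ ?_⟩
  intro a ha hb
  exact clique_exact Γ j (fun z φ hz1 hz2 hφ => pairing_zero e j h1 hz1 hz2 hφ) (RingHom.id ℚ) a ha hb

theorem not_QEx_two : ¬ QEx (⊥ : SimpleGraph Bool) univ 1 := by
  intro h
  let a : Finset Bool → ℚ := fun T => if T = {true} then 1 else if T = {false} then -1 else 0
  have ha : Sup (⊥ : SimpleGraph Bool) univ 1 a := by
    intro T hT
    by_cases h1 : T = {true}
    · subst h1; simp
    · by_cases h2 : T = {false}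
      · subst h2; simp
      · exact absurd (show a T = 0 by simp only [a, if_neg h1, if_neg h2]) hT
  have hb : sb a = 0 := by
    funext T
    change ∑ v ∈ Tᶜ, sgn v T • (a (insert v T)) = 0
    by_cases hT : T = ∅
    · subst hT
      have h1 : ∀ v : Bool, sgn v (∅ : Finset Bool) = 1 := by intro v; simp [sgn]
      rw [compl_empty, Fintype.sum_bool, h1, h1]
      simp [a]
    · refine sum_eq_zero fun v hv => ?_
      have hne : a (insert v T) = 0 := by
        by_contra h1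
        have h2 := (ha _ h1).2.2
        rw [card_insert_of_notMem (mem_compl.mp hv)] at h2
        exact hT (card_eq_zero.mp (by omega))
      rw [hne, smul_zero]
  obtain ⟨b, hb1, hb2⟩ := h a ha hb
  have hb0 : b = 0 := by
    funext T
    by_contra h1
    obtain ⟨_, h2, h3⟩ := hb1 T h1
    obtain ⟨x, y, hxy, rfl⟩ := card_eq_two.mp h3
    have := h2 (by simp) (by simp) hxy
    simp at this
  have h1 := congrFun hb2 {true}
  rw [hb0] at h1
  have h2 : sb (0 : Finset Bool → ℚ) {true} = 0 := by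
    change ∑ v ∈ ({true} : Finset Bool)ᶜ, sgn v {true} • ((0 : ℚ)) = 0
    simp
  rw [h2] at h1
  simp [a] at h1

theorem nob_pair (hRGO : RGO) (hPAO : PAO) {H : Type} [Group H] {x y : H} (hx : ¬ IsOfFinOrder x)
    (hy : ¬ IsOfFinOrder y) (hxy : Subgroup.zpowers x ⊓ Subgroup.zpowers y = ⊥) : Nob H 2 := by
  obtain ⟨ρ, hρ⟩ := hPAO H x y hx hy hxy
  exact nob_raag hRGO (⊥ : SimpleGraph Bool) ρ (by convert hρ) 0 not_QEx_two

section

variable {V : Type} [Fintype V] [LinearOrder V] (Γ : SimpleGraph V) (G : V → Type) [∀ v, Group (G v)]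

theorem nob_link (hRGO : RGO) (hSEPL : SEPL) (hTRN : TRN) (z : ∀ v, G v) (hz : ∀ v, ¬ IsOfFinOrder (z v))
    (S : Finset V) (m : ℕ) (hQ : ¬ QEx Γ S m) : Nob (GsP Γ G (fun _ => ⊤) S) (2 * m) := by
  cases m with
  | zero => exact nob_zero _
  | succ j =>
    rw [GsP_top]
    obtain ⟨ρ, hρ⟩ := hSEPL V Γ G z S hz
    refine nob_raag hRGO _ ρ hρ j fun h => hQ ?_
    have h5 := (hTRN V {u // u ∈ S} Γ (OrderEmbedding.subtype _) univ (j + 1)).mp h
    have h6 : (univ : Finset {u // u ∈ S}).map (OrderEmbedding.subtype (fun u => u ∈ S)).toEmbedding = S := by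
      ext p
      rw [mem_map]
      constructor
      · rintro ⟨q, _, rfl⟩
        exact q.2
      · intro hp
        exact ⟨⟨p, hp⟩, mem_univ _, rfl⟩
    rw [h6] at h5
    exact h5

theorem geo2 (hPRO : PRO) (hVKJ : VKJ) (hINJ : INJ) (hRGO : RGO) (hSEPL : SEPL) (hTRN : TRN) (hPRD : PRD)
    (z : ∀ v, G v) (hz : ∀ v, ¬ IsOfFinOrder (z v)) (J : Finset V) (hJ : Γ.IsClique (J : Set V)) (i : V → ℕ)
    (hi : ∀ v ∈ J, Nob (G v) (2 * i v)) (k : ℕ) (hk : ∑ v ∈ J, i v ≤ k)
    (hQ : ¬ QEx Γ (lk Γ J) (k - ∑ v ∈ J, i v)) : Nob (GP Γ G) (2 * k) := by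
  set m := k - ∑ v ∈ J, i v with hm
  have key : ∀ J' : Finset V, J' ⊆ J →
      Nob (GsP Γ G (fun _ => ⊤) (J' ∪ lk Γ J)) (2 * (∑ v ∈ J', i v + m)) := by
    intro J' hJJ
    induction J' using Finset.induction_on with
    | empty =>
      rw [empty_union, sum_empty, zero_add]
      exact nob_link Γ G hRGO hSEPL hTRN z hz _ m hQ
    | insert v J' hv ih =>
      have ih := ih ((subset_insert _ _).trans hJJ)
      have hvJ : v ∈ J := hJJ (mem_insert_self _ _)
      have hadj : ∀ u ∈ J' ∪ lk Γ J, Γ.Adj u v := by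
        intro u hu
        rcases mem_union.mp hu with h1 | h1
        · refine hJ (mem_coe.mpr (hJJ (mem_insert_of_mem h1))) (mem_coe.mpr hvJ) ?_
          rintro rfl
          exact hv h1
        · exact ((mem_lk Γ).mp h1 v hvJ).symm
      obtain ⟨f, hf, hr, _, _⟩ := hPRD V Γ G (fun _ => ⊤) (J' ∪ lk Γ J) v hadj rfl
      rw [insert_union, sum_insert hv]
      have hcod : ∀ x, f x ∈ GsP Γ G (fun _ => ⊤) (insert v (J' ∪ lk Γ J)) := by
        intro x
        rw [← hr]
        exact ⟨x, rfl⟩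
      have h1 := nob_inj hINJ (f.codRestrict _ hcod) (fun a b h => hf (congrArg Subtype.val h))
        (nob_prod hPRO hVKJ ih (hi v hvJ))
      have h2 : 2 * (∑ v ∈ J', i v + m) + 2 * i v = 2 * (i v + ∑ v ∈ J', i v + m) := by ring
      rw [h2] at h1
      exact h1
  have h1 := nob_inj hINJ (GsP Γ G (fun _ => ⊤) (J ∪ lk Γ J)).subtype (Subgroup.subtype_injective _) (key J subset_rfl)
  have h2 : ∑ v ∈ J, i v + m = k := by omega
  rw [h2] at h1
  exact h1

end

/-- from the rational numbers to a ring -/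
theorem RX_of_QEx2 {V U : Type} [Ring U] (κ : ℚ →+* U) [Fintype V] [LinearOrder V] {Γ : SimpleGraph V} {S : Finset V}
    {k : ℕ} (h : QEx Γ S k) : RX U Γ S k := by
  intro a ha hb
  obtain ⟨b, hb1, hb2⟩ := Pool.Agent.H77N.LIN.t V Γ S k U U κ ⊥ h a ha (fun T => by
    rw [Submodule.mem_bot]
    exact congrFun hb T)
  refine ⟨b, hb1, ?_⟩
  funext T
  have := (Submodule.mem_bot U).mp (hb2 T)
  rw [sub_eq_zero] at this
  exact this

end Pool.Agent.H77B
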