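import Pool.Agent.H77B.Stm

set_option autoImplicit false
set_option linter.unusedSectionVars false

noncomputable section

namespace Pool.Agent.H77B.HZR

open Finset Pool.Agent.H77RA Pool.Agent.H77GP Pool.Agent.H77B

theorem t : Pool.Agent.H77B.HZR := by
  intro Q R _ _ c H h hh hu x hx _
  have hu2 : IsUnit (1 - c h⁻¹) := by
    have e : 1 - c h⁻¹ = (c h - 1) * c h⁻¹ := by
      rw [sub_mul, ← map_mul, mul_inv_cancel, map_one, one_mul]
    rw [e]
    exact hu.mul ((Group.isUnit h⁻¹).map c)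
  obtain ⟨u, hu3⟩ := hu2
  have key : (LinearMap.id : XM Q R →ₗ[R] XM Q R) x ∈ (dg Q R 2).map (dd : XM Q R →ₗ[R] XM Q R) ⊔ Jt c H := by
    refine map_dg LinearMap.id _ (fun l hl => ?_) hx
    obtain ⟨q, rfl⟩ := List.length_eq_one_iff.mp hl
    rw [LinearMap.id_apply]
    have h1 : ∀ r : R, Finsupp.single [h * q] r - Finsupp.single [q] r ∈
        (dg Q R 2).map (dd : XM Q R →ₗ[R] XM Q R) ⊔ Jt c H := by
      intro r
      refine Submodule.mem_sup_left ⟨Finsupp.single [q, h * q] r, single_mem_dg _ _ rfl, ?_⟩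
      rw [dd_single, dl_cons, dl_cons]
      have h0 : dl R ([] : List Q) = 0 := rfl
      rw [h0, map_zero, sub_zero, cn_single, smul_sub, Finsupp.smul_single, Finsupp.smul_single, smul_eq_mul, mul_one]
    have h2 : ∀ r : R, Finsupp.single [q] r - Finsupp.single [h * q] (r * c h⁻¹) ∈
        (dg Q R 2).map (dd : XM Q R →ₗ[R] XM Q R) ⊔ Jt c H := by
      intro r
      have h3 := rel_mem c hh (Finsupp.single [q] r)
      rw [ac_single] at h3
      exact Submodule.mem_sup_right h3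
    have h4 := Submodule.add_mem _ (h2 (↑u⁻¹ : R)) (h1 ((↑u⁻¹ : R) * c h⁻¹))
    have e : (Finsupp.single [q] (↑u⁻¹ : R) - Finsupp.single [h * q] ((↑u⁻¹ : R) * c h⁻¹) : XM Q R) +
        (Finsupp.single [h * q] ((↑u⁻¹ : R) * c h⁻¹) - Finsupp.single [q] ((↑u⁻¹ : R) * c h⁻¹)) =
        Finsupp.single [q] 1 := by
      rw [sub_add_sub_cancel, ← Finsupp.single_sub]
      congr 1
      have : (↑u⁻¹ : R) - (↑u⁻¹ : R) * c h⁻¹ = (↑u⁻¹ : R) * (1 - c h⁻¹) := by rw [mul_sub, mul_one]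
      rw [this, ← hu3, Units.inv_mul]
    rw [e] at h4
    exact h4
  rw [LinearMap.id_apply] at key
  obtain ⟨y, ⟨z, hz, rfl⟩, w, hw, hyw⟩ := Submodule.mem_sup.mp key
  refine ⟨z, hz, ?_⟩
  rw [← hyw, add_sub_cancel_left]
  exact hw

end Pool.Agent.H77B.HZR
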