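import Pool.Agent.H77B.Stm

/-! # Stub INFP: the intersection lemma for the subgroups `GsP` -/

set_option autoImplicit false
set_option linter.unusedSectionVars false

noncomputable section

namespace Pool.Agent.H77B.INFP

open Finset Pool.Agent.H77RA Pool.Agent.H77GP Pool.Agent.H77N Pool.Agent.Helper655.VN Pool.Agent.RK
open Pool.Agent.W326.DU Pool.Agent.H77B

theorem t : Pool.Agent.H77B.INFP := by
  intro V _ _ Γ G _ P R _ c S v L hv hL
  classical
  obtain ⟨F1, F2, h1, h2, h3, h4⟩ := decomp Γ G v (univ.filter fun u => Γ.Adj u v) (fun u => by simp)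
  have hLsub : L ⊆ univ.filter fun u => Γ.Adj u v := fun u hu => mem_filter.mpr ⟨mem_univ _, ((hL u).mp hu).2⟩
  have hBS : insert v L ⊆ S :=
    insert_subset_iff.mpr ⟨hv, fun u hu => mem_of_mem_erase ((hL u).mp hu).1⟩
  have hLS : L ⊆ S := (subset_insert _ _).trans hBS
  refine Jt_inf_le c (fun g => if g ∈ GsP Γ G P S then F1 g else 0)
    (fun g => if g ∈ GsP Γ G P S then F2 g else 0) ?_ ?_ ?_ ?_
  · intro b hb g
    rw [Subgroup.mul_mem_cancel_left _ (GsP_mono Γ G P hBS hb),
      h1 b (Gs_mono Γ G _ _ (insert_subset_insert _ hLsub) (GsP_le_Gs Γ G P _ hb))]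
  · intro a ha g
    rw [Subgroup.mul_mem_cancel_left _ (GsP_mono Γ G P (erase_subset _ _) ha),
      h2 a (Gs_mono Γ G _ _ (erase_subset_erase _ (subset_univ S)) (GsP_le_Gs Γ G P _ ha))]
  · intro g hg
    rw [if_pos (GsP_mono Γ G P hLS hg), if_pos (GsP_mono Γ G P hLS hg)]
    exact h3 g (Gs_mono Γ G _ _ hLsub (GsP_le_Gs Γ G P _ hg))
  · intro g hg
    by_cases hgS : g ∈ GsP Γ G P S
    · rw [if_pos hgS, if_pos hgS]
      refine h4 g fun hgL => hg ?_
      rw [← rho_fix Γ G hgL]
      have h : GsP Γ G P S ≤ (GsP Γ G P L).comap (rho Γ G (univ.filter fun u => Γ.Adj u v)) := by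
        refine GsP_le Γ G P fun u hu a ha => ?_
        rw [Subgroup.mem_comap]
        by_cases h : u ∈ univ.filter fun u => Γ.Adj u v
        · rw [rho_in Γ G h]
          have h7 := (mem_filter.mp h).2
          exact gsp_mem Γ G P ((hL u).mpr ⟨mem_erase.mpr ⟨h7.ne, hu⟩, h7⟩) ha
        · rw [rho_out Γ G h]
          exact one_mem _
      exact h hgS
    · rw [if_neg hgS, if_neg hgS, add_zero]

end Pool.Agent.H77B.INFP
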