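import Pool.Agent.H77B.Stm2

/-!
# Obstructors in supergroups
-/

set_option autoImplicit false

namespace Pool.Agent.H77B.INJ

open Finset Pool.Agent.H77B

theorem t : Pool.Agent.H77B.INJ := by
  intro H Q _ _ f hf n L g o
  refine ⟨o.cx, ?_, ?_⟩
  · refine (o.lip.image f).subset ?_
    rintro _ ⟨a, a', h1, h2, rfl⟩
    exact ⟨_, ⟨a, a', h1, h2, rfl⟩, by rw [map_mul, map_inv]⟩
  · intro T hT
    obtain ⟨C, hC⟩ := o.sep (f ⁻¹' T) (hT.preimage hf.injOn)
    refine ⟨C, fun a a' h1 h2 h3 h4 => hC a a' h1 h2 h3 ?_⟩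
    rw [Set.mem_preimage, map_mul, map_inv]
    exact h4

end Pool.Agent.H77B.INJ
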