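import Pool.Agent.H77B.Stm2

/-!
# The induction on the vertices with homology
-/

set_option autoImplicit false
set_option linter.unusedSectionVars false

noncomputable section

attribute [local instance] V7N.bcF_additive

namespace Pool.Agent.H77B

open Finset Pool.Agent.H77RA Pool.Agent.H77GP Pool.Agent.H77N Pool.Agent.Helper655.VN Pool.Agent.RK
open Pool.Agent.W326.DU

theorem evM_commute2 {K R : Type} [Group K] [Ring R] (c : K →* R) (u : R) (h : ∀ g, Commute u (c g))
    (x : MonoidAlgebra ℤ K) : Commute u (V7N.evM c x) := by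
  induction x using MonoidAlgebra.induction_linear with
  | zero => rw [map_zero]; exact Commute.zero_right u
  | add x y hx hy => rw [map_add]; exact hx.add_right hy
  | single g n =>
    rw [V7N.phi_evM_single]
    exact (Int.cast_commute n u).symm.mul_right (h g)

section

variable {V : Type} [Fintype V] [LinearOrder V] (Γ : SimpleGraph V) (G : V → Type) [∀ v, Group (G v)]
  {U : Type} [Ring U] (ι : NG (GP Γ G) →+* U)

/-- the vanishing for the join with a vertex group -/
theorem KV2 (hEQV : EQV) (hGRG : GRG) (hKVG : KVG) (hKVT : KVT) (hPRD : PRD) (hι : Loc ι)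
    (P : ∀ v, Subgroup (G v)) (L : Finset V) (v : V) (hL : ∀ u ∈ L, Γ.Adj u v) (hP : P v = ⊤)
    (C : V7N.FreeRes (G v)) (k : ℕ)
    (h : ∀ q m, k = m + q → VN831.l2Betti (G v) q = 0 ∨
      PEn ((ι : NG (GP Γ G) →* U).comp canL) (GsP Γ G P L) m) :
    PEn ((ι : NG (GP Γ G) →* U).comp canL) (GsP Γ G P (insert v L)) k := by
  obtain ⟨i, hi, hr, h1, h2⟩ := hPRD V Γ G P L v hL hP
  rw [← hr]
  refine (hEQV _ _ _ i _ k hi).mp ?_
  refine hKVT _ _ _ (((ι : NG (GP Γ G) →* U).comp canL).comp i) C k ?_
  have hgi : Function.Injective (i.comp (MonoidHom.inr (GsP Γ G P L) (G v))) := by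
    intro a b hab
    exact (Prod.mk.inj (hi hab)).2
  obtain ⟨K, PI, e1, e2, e3, e4, e5, e6, e7⟩ := hGRG (G v) (GP Γ G) U (i.comp (MonoidHom.inr (GsP Γ G P L) (G v)))
    hgi ι hι C
  have hcomm : ∀ (l : GsP Γ G P L) (g : G v),
      Commute (i (l, 1)) ((i.comp (MonoidHom.inr (GsP Γ G P L) (G v))) g) := by
    intro l g
    have : Commute ((l, 1) : (GsP Γ G P L) × G v) (1, g) := by
      change (l, 1) * (1, g) = (1, g) * (l, 1)
      simp
    exact this.map i
  refine hKVG _ _ ((((ι : NG (GP Γ G) →* U).comp canL).comp i).comp (MonoidHom.inl _ _)) C.r _ K PI k ?_ ?_ ?_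
    e1 e2 e3 e4 e5 ?_
  · intro l n a b
    rw [Matrix.map_apply]
    refine evM_commute2 _ _ (fun g => ?_) _
    exact (hcomm l g).map ((ι : NG (GP Γ G) →* U).comp canL)
  · intro l n a b
    exact (e7 (i (l, 1)) (hcomm l)).1 n a b
  · intro l n a b
    exact (e7 (i (l, 1)) (hcomm l)).2 n a b
  · intro q m hm
    rcases h q m hm with h0 | h0
    · exact Or.inl (e6 q h0)
    · refine Or.inr ?_
      have h3 := (hEQV _ _ U (GsP Γ G P L).subtype ((ι : NG (GP Γ G) →* U).comp canL) m
        (GsP Γ G P L).subtype_injective).mpr (by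
          rw [Subgroup.range_subtype]
          exact h0)
      have h4 := (hEQV (GsP Γ G P L) (GsP Γ G P L) U (MonoidHom.id _)
        (((ι : NG (GP Γ G) →* U).comp canL).comp (GsP Γ G P L).subtype) m Function.injective_id).mp (by
          rw [MonoidHom.comp_id]
          exact h3)
      rw [MonoidHom.range_eq_top.mpr Function.surjective_id] at h4
      have h5 : (((ι : NG (GP Γ G) →* U).comp canL).comp i).comp (MonoidHom.inl (GsP Γ G P L) (G v)) =
          ((ι : NG (GP Γ G) →* U).comp canL).comp (GsP Γ G P L).subtype := by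
        ext l
        change ι (canL (i (l, 1))) = ι (canL (l : GP Γ G))
        rw [h1]
      rw [h5]
      exact h4

open Classical in
/-- the subgroups: the vertices of `B` which are not in `F` contribute a cyclic group -/
def PF2 (x : ∀ v, G v) (B F : Finset V) (v : V) : Subgroup (G v) :=
  if v ∈ B ∧ v ∉ F then Subgroup.zpowers (x v) else ⊤

theorem PF2_cyc (x : ∀ v, G v) {B F : Finset V} {v : V} (h1 : v ∈ B) (h2 : v ∉ F) :
    PF2 G x B F v = Subgroup.zpowers (x v) := if_pos ⟨h1, h2⟩

theorem PF2_top (x : ∀ v, G v) {B F : Finset V} {v : V} (h : v ∈ B → v ∈ F) : PF2 G x B F v = ⊤ :=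
  if_neg fun h' => h'.2 (h h'.1)

theorem PF2_congr (x : ∀ v, G v) {B F F' : Finset V} {v : V} (h : v ∈ F ↔ v ∈ F') :
    PF2 G x B F v = PF2 G x B F' v := by
  unfold PF2
  simp only [h]

theorem ind2 (hEQV : EQV) (hSHR : SHR) (hINFP : INFP) (hVANS : VANS) (hCYC : CYC) (hHZR : HZR) (hGRG : GRG)
    (hKVG : KVG) (hKVT : KVT) (hPRD : PRD) (hι : Loc ι) (x : ∀ v, G v) (B : Finset V)
    (hA : ∀ v, v ∉ B → ∃ N : Subgroup (G v), N.Normal ∧
      PE ((ι : NG (GP Γ G) →* U).comp canL) (N.map (gi Γ G v)))
    (hB : ∀ v ∈ B, Nonempty (V7N.FreeRes (G v)))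
    (hx : ∀ v ∈ B, IsUnit (((ι : NG (GP Γ G) →* U).comp canL) (gi Γ G v (x v)) - 1)) (n : ℕ) :
    ∀ (F S : Finset V) (k : ℕ), F ⊆ B → (F ∩ S).card = n →
      (∀ J ⊆ F ∩ S, Γ.IsClique (J : Set V) → ∀ i : V → ℕ, (∀ v ∈ J, VN831.l2Betti (G v) (i v) ≠ 0) →
        ∑ v ∈ J, i v ≤ k → RX U Γ (lk Γ J ∩ S) (k - ∑ v ∈ J, i v)) →
      PEn ((ι : NG (GP Γ G) →* U).comp canL) (GsP Γ G (PF2 G x B F) S) k := by
  classical
  set c : GP Γ G →* U := (ι : NG (GP Γ G) →* U).comp canL with hc
  induction n using Nat.strong_induction_on with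
  | _ n ih =>
  intro F S k hFB hcard hRX
  rcases (F ∩ S).eq_empty_or_nonempty with h0 | ⟨v, hv⟩
  · -- no full vertices of type b
    have e1 : GsP Γ G (PF2 G x B F) S = GsP Γ G (PF2 G x B ∅) S := by
      refine GsP_congr Γ G _ _ fun v hv => PF2_congr G x ?_
      have : v ∉ F := fun h => by
        have h1 : v ∈ F ∩ S := mem_inter.mpr ⟨h, hv⟩
        rw [h0] at h1
        exact notMem_empty _ h1
      simp [this]
    rw [e1]
    choose N hN1 hN2 using hA
    let N' : ∀ v, Subgroup (G v) := fun v => if h : v ∈ B then Subgroup.zpowers (x v) else N v h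
    have hN'b : ∀ v, v ∈ B → N' v = Subgroup.zpowers (x v) := fun v h => dif_pos h
    have hN'a : ∀ v (h : v ∉ B), N' v = N v h := fun v h => dif_neg h
    refine hVANS V Γ G U c (PF2 G x B ∅) N' ?_ ?_ ?_ S k ?_
    · intro v
      by_cases h : v ∈ B
      · rw [hN'b v h, PF2_cyc G x h (notMem_empty v)]
      · rw [PF2_top G x (fun h' => absurd h' h)]
        exact le_top
    · intro v g hg a ha
      by_cases h : v ∈ B
      · rw [hN'b v h] at ha ⊢
        rw [PF2_cyc G x h (notMem_empty v)] at hg
        exact Subgroup.mul_mem _ (Subgroup.mul_mem _ hg ha) (Subgroup.inv_mem _ hg)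
      · rw [hN'a v h] at ha ⊢
        exact (hN1 v h).conj_mem a ha g
    · intro v
      by_cases h : v ∈ B
      · rw [hN'b v h, MonoidHom.map_zpowers]
        refine hCYC (GP Γ G) U c _ (gi Γ G v (x v)) (Subgroup.mem_zpowers _) ?_ (hx v h)
        rintro _ ⟨m, rfl⟩
        exact (Commute.refl _).zpow_right m
      · rw [hN'a v h]
        exact hN2 v h
    · have := hRX ∅ (empty_subset _) (by simp) (fun _ => 0) (by simp) (by simp)
      have e2 : lk Γ ∅ ∩ S = S := by
        ext u
        simp [mem_lk]
      rw [e2, sum_empty, Nat.sub_zero] at this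
      exact this
  · obtain ⟨hvF, hvS⟩ := mem_inter.mp hv
    have hvB : v ∈ B := hFB hvF
    cases k with
    | zero =>
      refine hHZR (GP Γ G) U c _ (gi Γ G v (x v)) ?_ (hx v hvB)
      refine gsp_mem Γ G _ hvS ?_
      rw [PF2_top G x (fun _ => hvF)]
      trivial
    | succ k =>
      set L : Finset V := S.filter fun u => Γ.Adj u v with hLdef
      set F' : Finset V := F.erase v with hF'
      have hL : ∀ u ∈ L, Γ.Adj u v := fun u hu => (mem_filter.mp hu).2
      have hLS : L ⊆ S := filter_subset _ _
      have hvL : v ∉ L := fun h => (hL v h).ne rfl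
      have hLiff : ∀ u, u ∈ L ↔ u ∈ S.erase v ∧ Γ.Adj u v := by
        intro u
        rw [hLdef, mem_filter, mem_erase]
        constructor
        · rintro ⟨h1, h2⟩
          exact ⟨⟨h2.ne, h1⟩, h2⟩
        · rintro ⟨⟨_, h1⟩, h2⟩
          exact ⟨h1, h2⟩
      have hPne : ∀ u, u ≠ v → PF2 G x B F u = PF2 G x B F' u := by
        intro u hu
        refine PF2_congr G x ?_
        rw [hF', mem_erase]
        simp [hu]
      have hPle : ∀ u, PF2 G x B F' u ≤ PF2 G x B F u := by
        intro u
        by_cases hu : u = v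
        · subst hu
          rw [PF2_top G x (F := F) (fun _ => hvF)]
          exact le_top
        · exact (hPne u hu).ge
      have hins : insert v L ⊆ S := insert_subset hvS hLS
      have hcardF' : (F' ∩ S).card < n := by
        rw [← hcard]
        refine card_lt_card ⟨inter_subset_inter_right (erase_subset _ _), fun h => ?_⟩
        have := (mem_inter.mp (h hv)).1
        exact (notMem_erase v F) this
      have hcardL : (F ∩ L).card < n := by
        rw [← hcard]
        refine card_lt_card ⟨inter_subset_inter_left hLS, fun h => ?_⟩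
        exact hvL (mem_inter.mp (h hv)).2
      have hAA : GsP Γ G (PF2 G x B F) (S.erase v) = GsP Γ G (PF2 G x B F') (S.erase v) :=
        GsP_congr Γ G _ _ fun u hu => hPne u (mem_erase.mp hu).1
      have hCC : GsP Γ G (PF2 G x B F) L = GsP Γ G (PF2 G x B F') L :=
        GsP_congr Γ G _ _ fun u hu => hPne u (hL u hu).ne
      obtain ⟨CC⟩ := hB v hvB
      refine hSHR (GP Γ G) U c (GsP Γ G (PF2 G x B F) (S.erase v)) (GsP Γ G (PF2 G x B F) (insert v L))
        (GsP Γ G (PF2 G x B F') (insert v L)) (GsP Γ G (PF2 G x B F) L) (GsP Γ G (PF2 G x B F) S)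
        (GsP Γ G (PF2 G x B F') S) k ?_ ?_ ?_ ?_ ?_ ?_ ?_ ?_ ?_ ?_ ?_ ?_
      · rw [hCC]
        exact GsP_mono Γ G _ (subset_insert _ _)
      · exact GsP_mono' Γ G _ _ fun u _ => hPle u
      · exact GsP_mono Γ G _ hins
      · exact GsP_mono Γ G _ (erase_subset _ _)
      · exact (Jt_mono c (GsP_sup Γ G _ S v hvS L)).trans (Jt_sup c _ _)
      · rw [hAA]
        exact (Jt_mono c (GsP_sup Γ G _ S v hvS L)).trans (Jt_sup c _ _)
      · rw [hAA]
        exact GsP_mono Γ G _ (erase_subset _ _)
      · exact GsP_mono Γ G _ hins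
      · exact hINFP V Γ G _ U c S v L hvS hLiff
      · refine ih _ hcardF' F' S (k + 1) ((erase_subset _ _).trans hFB) rfl ?_
        intro J hJ hcl i hi hJk
        exact hRX J (hJ.trans (inter_subset_inter_right (erase_subset _ _))) hcl i hi hJk
      · refine KV2 Γ G ι hEQV hGRG hKVG hKVT hPRD hι _ L v hL (PF2_top G x fun _ => hvF) CC (k + 1) ?_
        intro q m hm
        by_cases hq : VN831.l2Betti (G v) q = 0
        · exact Or.inl hq
        refine Or.inr (ih _ hcardL F L m hFB rfl ?_)
        intro J hJ hcl i hi hJk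
        have hvJ : v ∉ J := fun h => hvL (mem_inter.mp (hJ h)).2
        have hupd : ∀ u ∈ J, Function.update i v q u = i u := fun u hu =>
          Function.update_of_ne (show u ≠ v from fun h => hvJ (by rw [← h]; exact hu)) _ _
        have hsum : ∑ u ∈ insert v J, Function.update i v q u = q + ∑ u ∈ J, i u := by
          rw [sum_insert hvJ, Function.update_self, sum_congr rfl hupd]
        have h1 := hRX (insert v J) (insert_subset hv (hJ.trans (inter_subset_inter_left hLS))) (by
          rw [coe_insert]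
          refine hcl.insert fun b hb _ => ?_
          exact (hL b (mem_inter.mp (hJ (mem_coe.mp hb))).2).symm) (Function.update i v q) (by
            intro u hu
            rcases mem_insert.mp hu with rfl | hu
            · rw [Function.update_self]; exact hq
            · rw [hupd u hu]; exact hi u hu) (by rw [hsum]; omega)
        have e3 : lk Γ (insert v J) ∩ S = lk Γ J ∩ L := by
          ext u
          rw [mem_inter, mem_inter, mem_lk, mem_lk, hLdef, mem_filter]
          constructor
          · rintro ⟨h2, h3⟩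
            exact ⟨fun w hw => h2 w (mem_insert_of_mem hw), h3, (h2 v (mem_insert_self _ _)).symm⟩
          · rintro ⟨h2, h3, h4⟩
            refine ⟨fun w hw => ?_, h3⟩
            rcases mem_insert.mp hw with rfl | hw
            · exact h4.symm
            · exact h2 w hw
        have e4 : k + 1 - (q + ∑ u ∈ J, i u) = m - ∑ u ∈ J, i u := by omega
        rw [e3, hsum, e4] at h1
        exact h1
      · have hPE : PE c (GsP Γ G (PF2 G x B F') (insert v L)) := by
          refine hCYC (GP Γ G) U c _ (gi Γ G v (x v)) ?_ ?_ (hx v hvB)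
          · refine gsp_mem Γ G _ (mem_insert_self _ _) ?_
            rw [PF2_cyc G x hvB (notMem_erase v F)]
            exact Subgroup.mem_zpowers _
          · have hle : GsP Γ G (PF2 G x B F') (insert v L) ≤ Subgroup.centralizer {gi Γ G v (x v)} := by
              refine GsP_le Γ G _ fun u hu a ha => ?_
              rw [Subgroup.mem_centralizer_iff]
              rintro _ rfl
              rcases mem_insert.mp hu with rfl | hu
              · rw [PF2_cyc G x hvB (notMem_erase u F)] at ha
                obtain ⟨m, rfl⟩ := ha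
                have : Commute (x u) ((x u) ^ m) := (Commute.refl _).zpow_right m
                exact this.map (gi Γ G u)
              · exact (gi_comm Γ G (hL u hu) a (x v)).symm
            intro h hh
            exact (Subgroup.mem_centralizer_iff.mp (hle hh)) _ rfl
        exact hPE k

end

end Pool.Agent.H77B
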