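import Pool.Agent.H77B.Stm

/-!
# Stub KVC: the total complex is exact
-/

set_option autoImplicit false
set_option linter.unusedSectionVars false

noncomputable section

namespace Pool.Agent.H77B.KVC

open Finset Pool.Agent.H77GP

section

variable {Q R : Type} [Group Q] [Ring R]

theorem rm_mul (u v : R) (x : XM Q R) : rm u (rm v x) = rm (v * u) x := by
  have e : (rm u).comp (rm v) = (rm (v * u) : XM Q R →ₗ[R] XM Q R) := by
    refine Finsupp.lhom_ext fun l r => ?_
    rw [LinearMap.comp_apply, rm_single, rm_single, rm_single, mul_assoc]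
  exact LinearMap.congr_fun e x

theorem rm_one (x : XM Q R) : rm 1 x = x := by
  have e : (rm 1 : XM Q R →ₗ[R] XM Q R) = LinearMap.id := by
    refine Finsupp.lhom_ext fun l r => ?_
    rw [rm_single, mul_one, LinearMap.id_apply]
  rw [e, LinearMap.id_apply]

theorem rm_add (u v : R) (x : XM Q R) : rm (u + v) x = rm u x + rm v x := by
  have e : (rm (u + v) : XM Q R →ₗ[R] XM Q R) = rm u + rm v := by
    refine Finsupp.lhom_ext fun l r => ?_
    rw [LinearMap.add_apply, rm_single, rm_single, rm_single, mul_add, Finsupp.single_add]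
  rw [e, LinearMap.add_apply]

/-- `rm` as an additive map of the coefficient -/
def rmh (x : XM Q R) : R →+ XM Q R := AddMonoidHom.mk' (fun u => rm u x) fun u v => rm_add u v x

theorem rmh_apply (x : XM Q R) (u : R) : rmh x u = rm u x := rfl

theorem rm_zero (x : XM Q R) : rm (0 : R) x = 0 := map_zero (rmh x)

theorem rm_sub (u v : R) (x : XM Q R) : rm (u - v) x = rm u x - rm v x := map_sub (rmh x) u v

theorem rm_sum {ι : Type} (s : Finset ι) (f : ι → R) (x : XM Q R) :
    rm (∑ i ∈ s, f i) x = ∑ i ∈ s, rm (f i) x := map_sum (rmh x) f s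

theorem rm_cn (u : R) (a : Q) (x : XM Q R) : rm u (cn a x) = cn a (rm u x) := by
  have e : (rm u).comp (cn a) = ((cn a).comp (rm u) : XM Q R →ₗ[R] XM Q R) := by
    refine Finsupp.lhom_ext fun l r => ?_
    rw [LinearMap.comp_apply, LinearMap.comp_apply, cn_single, rm_single, rm_single, cn_single]
  exact LinearMap.congr_fun e x

theorem rm_dl (u : R) (l : List Q) : rm u (dl R l) = u • dl R l := by
  induction l with
  | nil =>
    change rm u (0 : XM Q R) = u • (0 : XM Q R)
    rw [map_zero, smul_zero]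
  | cons a l ih =>
    rw [dl_cons, map_sub, rm_single, rm_cn, ih, smul_sub, map_smul, Finsupp.smul_single, smul_eq_mul, one_mul,
      mul_one]

theorem dd_rm (u : R) (x : XM Q R) : dd (rm u x) = rm u (dd x) := by
  have e : dd.comp (rm u) = ((rm u).comp dd : XM Q R →ₗ[R] XM Q R) := by
    refine Finsupp.lhom_ext fun l r => ?_
    rw [LinearMap.comp_apply, LinearMap.comp_apply, rm_single, dd_single, dd_single, map_smul, rm_dl, smul_smul]
  exact LinearMap.congr_fun e x

theorem rm_dg (u : R) {n : ℕ} {x : XM Q R} (hx : x ∈ dg Q R n) : rm u x ∈ dg Q R n := by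
  refine map_dg (rm u) _ (fun l hl => ?_) hx
  rw [rm_single]
  exact single_mem_dg _ _ hl

variable (c : Q →* R)

theorem rm_ac {u : R} (hu : ∀ g, Commute (c g) u) (g : Q) (x : XM Q R) :
    rm u (ac c g x) = ac c g (rm u x) := by
  have e : (rm u).comp (ac c g) = ((ac c g).comp (rm u) : XM Q R →ₗ[R] XM Q R) := by
    refine Finsupp.lhom_ext fun l r => ?_
    rw [LinearMap.comp_apply, LinearMap.comp_apply, rm_single, ac_single, ac_single, rm_single, mul_assoc,
      mul_assoc, (hu g⁻¹).eq]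
  exact LinearMap.congr_fun e x

theorem rm_Jt {u : R} (hu : ∀ g, Commute (c g) u) {x : XM Q R} (hx : x ∈ Jt c (⊤ : Subgroup Q)) :
    rm u x ∈ Jt c (⊤ : Subgroup Q) := by
  have h : Jt c (⊤ : Subgroup Q) ≤ (Jt c (⊤ : Subgroup Q)).comap (rm u) := by
    refine Jt_le c (fun y hy => ?_) fun g hg y => ?_
    · exact dg0_le c _ (rm_dg u hy)
    · rw [Submodule.mem_comap, map_sub, rm_ac c hu]
      exact rel_mem c hg _
  exact h hx

/-! ### row vectors -/

variable {a b d : ℕ}

/-- `xv` as an additive map -/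
def xh (M : Matrix (Fin a) (Fin b) R) : (Fin a → XM Q R) →+ (Fin b → XM Q R) :=
  AddMonoidHom.mk' (fun z => xv z M) fun z w => by
    funext j
    change ∑ i, rm (M i j) (z i + w i) = ∑ i, rm (M i j) (z i) + ∑ i, rm (M i j) (w i)
    rw [← Finset.sum_add_distrib]
    exact Finset.sum_congr rfl fun i _ => map_add _ _ _

theorem xh_apply (M : Matrix (Fin a) (Fin b) R) (z : Fin a → XM Q R) : xh M z = xv z M := rfl

theorem xh_coe (M : Matrix (Fin a) (Fin b) R) (z : Fin a → XM Q R) (j : Fin b) :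
    xh M z j = ∑ i, rm (M i j) (z i) := rfl

theorem xh_mul (M : Matrix (Fin a) (Fin b) R) (N : Matrix (Fin b) (Fin d) R) (z : Fin a → XM Q R) :
    xh N (xh M z) = xh (M * N) z := by
  funext k
  rw [xh_coe, xh_coe]
  have h1 : ∀ j, rm (N j k) (xh M z j) = ∑ i, rm (M i j * N j k) (z i) := fun j => by
    rw [xh_coe, map_sum]
    exact Finset.sum_congr rfl fun i _ => rm_mul _ _ _
  rw [Finset.sum_congr rfl fun j _ => h1 j, Finset.sum_comm]
  refine Finset.sum_congr rfl fun i _ => ?_
  rw [Matrix.mul_apply, rm_sum]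

theorem xh_one (z : Fin a → XM Q R) : xh (1 : Matrix (Fin a) (Fin a) R) z = z := by
  funext j
  rw [xh_coe, Finset.sum_eq_single j]
  · rw [Matrix.one_apply_eq, rm_one]
  · intro i _ hij
    rw [Matrix.one_apply_ne hij, rm_zero]
  · intro h
    exact absurd (Finset.mem_univ j) h

theorem xh_zero (z : Fin a → XM Q R) : xh (0 : Matrix (Fin a) (Fin b) R) z = 0 := by
  funext j
  rw [xh_coe]
  exact Finset.sum_eq_zero fun i _ => by rw [Matrix.zero_apply, rm_zero]

theorem xh_addM (M N : Matrix (Fin a) (Fin b) R) (z : Fin a → XM Q R) :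
    xh (M + N) z = xh M z + xh N z := by
  funext j
  rw [Pi.add_apply, xh_coe, xh_coe, xh_coe, ← Finset.sum_add_distrib]
  exact Finset.sum_congr rfl fun i _ => by rw [Matrix.add_apply, rm_add]

theorem xh_subM (M N : Matrix (Fin a) (Fin b) R) (z : Fin a → XM Q R) :
    xh (M - N) z = xh M z - xh N z := by
  have h := xh_addM (M - N) N z
  rw [sub_add_cancel] at h
  rw [h, add_sub_cancel_right]

/-- the differential in each coordinate -/
def ddv : (Fin a → XM Q R) →+ (Fin a → XM Q R) :=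
  AddMonoidHom.mk' (fun z i => dd (z i)) fun z w => by
    funext i
    exact map_add dd (z i) (w i)

theorem ddv_coe (z : Fin a → XM Q R) (i : Fin a) : ddv z i = dd (z i) := rfl

theorem ddv_n (s : ℤ) (z : Fin a → XM Q R) : ddv (-(s • z)) = -(s • ddv z) := by
  rw [map_neg, map_zsmul]

theorem ddv_c (s : ℤ) (z w : Fin a → XM Q R) : ddv (-(s • z) + w) = -(s • ddv z) + ddv w := by
  rw [map_add, ddv_n]

theorem xh_n (M : Matrix (Fin a) (Fin b) R) (s : ℤ) (z : Fin a → XM Q R) : xh M (-(s • z)) = -(s • xh M z) := by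
  rw [map_neg, map_zsmul]

theorem ddv_xh (M : Matrix (Fin a) (Fin b) R) (z : Fin a → XM Q R) : ddv (xh M z) = xh M (ddv z) := by
  funext j
  rw [ddv_coe, xh_coe, xh_coe, map_sum]
  exact Finset.sum_congr rfl fun i _ => dd_rm _ _

theorem xh_dg (M : Matrix (Fin a) (Fin b) R) {n : ℕ} {z : Fin a → XM Q R} (hz : ∀ i, z i ∈ dg Q R n) (j : Fin b) :
    xh M z j ∈ dg Q R n := by
  rw [xh_coe]
  exact Submodule.sum_mem _ fun i _ => rm_dg _ (hz i)

/-- vectors with entries in `Jt` -/
def JV (a : ℕ) : AddSubgroup (Fin a → XM Q R) where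
  carrier := {z | ∀ i, z i ∈ Jt c (⊤ : Subgroup Q)}
  add_mem' := fun hx hy i => Submodule.add_mem _ (hx i) (hy i)
  zero_mem' := fun _ => Submodule.zero_mem _
  neg_mem' := fun hx i => Submodule.neg_mem _ (hx i)

theorem mem_JV {z : Fin a → XM Q R} : z ∈ JV c a ↔ ∀ i, z i ∈ Jt c (⊤ : Subgroup Q) := Iff.rfl

theorem xh_JV {M : Matrix (Fin a) (Fin b) R} (hM : ∀ g i j, Commute (c g) (M i j)) {z : Fin a → XM Q R}
    (hz : z ∈ JV c a) : xh M z ∈ JV c b := by
  intro j
  rw [xh_coe]
  exact Submodule.sum_mem _ fun i _ => rm_Jt c (fun g => hM g i j) (hz i)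

end

theorem t : Pool.Agent.H77B.KVC := by
  intro L R _ _ c r D K P k hD hK hP h0 h1 h2 hDP hPD hPP hex z hz hzd
  set s : ℤ := (-1) ^ k with hs
  have hss : s * s = 1 := by
    rw [hs, ← pow_add, ← two_mul, pow_mul]
    norm_num
  have hzd' : ∀ q, ddv (z q) + s • xh (D q) (z (q + 1)) ∈ JV c (r q) := fun q i => hzd q i
  -- the chain `z 1 * P`
  have hPdg : ∀ i, xh P (z 1) i ∈ dg L R k := fun i => by
    refine xh_dg P (fun j => ?_) i
    have := hz 1 j
    rwa [Nat.add_sub_cancel] at this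
  have hPd : ddv (xh P (z 1)) ∈ JV c (r 1) := by
    have h3 := xh_JV c hP (hzd' 1)
    rw [map_add, map_zsmul, xh_mul, hDP, xh_zero, smul_zero, add_zero, ← ddv_xh] at h3
    exact h3
  obtain ⟨u, hu, hu'⟩ : ∃ u : Fin (r 1) → XM L R, (∀ i, u i ∈ dg L R (k + 1)) ∧
      xh P (z 1) - ddv u ∈ JV c (r 1) := by
    rcases k with _ | m
    · refine ⟨0, fun i => Submodule.zero_mem _, ?_⟩
      rw [map_zero, sub_zero]
      exact fun i => dg0_le c _ (hPdg i)
    · have h3 : ∀ i, ∃ y ∈ dg L R (m + 2), xh P (z 1) i - dd y ∈ Jt c (⊤ : Subgroup L) := fun i =>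
        hex m rfl _ (hPdg i) (hPd i)
      choose u hu hu' using h3
      exact ⟨u, hu, hu'⟩
  let y : (q : ℕ) → Fin (r q) → XM L R := fun q => match q with
    | 0 => 0
    | 1 => -(s • xh (K 0) (z 0)) + xh P u
    | (n + 2) => -(s • xh (K (n + 1)) (z (n + 1)))
  have key : ∀ w : ℕ, ∀ (N : Matrix (Fin (r w)) (Fin (r (w + 1))) R), (∀ l a b, Commute (c l) (N a b)) →
      s • xh N (ddv (z w)) + xh (D w * N) (z (w + 1)) ∈ JV c (r (w + 1)) := by
    intro w N hN
    have h3 := xh_JV c hN ((JV c (r w)).zsmul_mem (hzd' w) s)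
    rw [smul_add, smul_smul, hss, one_smul, map_add, map_zsmul, xh_mul] at h3
    exact h3
  refine ⟨y, fun q i => ?_, fun q => ?_⟩
  · match q with
    | 0 => exact Submodule.zero_mem _
    | 1 =>
      refine Submodule.add_mem _ (Submodule.neg_mem _ ?_) (xh_dg P hu i)
      exact (dg L R (k + 1)).toAddSubgroup.zsmul_mem (xh_dg (K 0) (hz 0) i) s
    | (n + 2) =>
      refine Submodule.neg_mem _ ?_
      have e : k + 2 - (n + 2) = k + 1 - (n + 1) := by omega
      rw [e]
      exact (dg L R (k + 1 - (n + 1))).toAddSubgroup.zsmul_mem (xh_dg (K (n + 1)) (hz (n + 1)) i) s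
  · have goal : z q - (ddv (y q) - s • xh (D q) (y (q + 1))) ∈ JV c (r q) := by
      match q with
      | 0 =>
        have e : z 0 - (ddv (y 0) - s • xh (D 0) (y 1)) = 0 := by
          change z 0 - (ddv 0 - s • xh (D 0) (-(s • xh (K 0) (z 0)) + xh P u)) = 0
          rw [map_zero, map_add, map_neg, map_zsmul, xh_mul, xh_mul, h0, hPD, xh_one, xh_zero, add_zero, smul_neg,
            smul_smul, hss, one_smul]
          abel
        rw [e]
        exact (JV c (r 0)).zero_mem
      | 1 =>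
        have ha : s • xh (K 0) (ddv (z 0)) + xh (D 0 * K 0) (z 1) ∈ JV c (r 1) := key 0 (K 0) fun l => hK l 0
        have hb : xh P (z 1) - xh P (ddv u) ∈ JV c (r 1) := by
          have h3 := xh_JV c hP hu'
          rwa [map_sub, xh_mul, hPP] at h3
        have hs1 : xh (D 0 * K 0) (z 1) + xh (K 1 * D 1) (z 1) = z 1 - xh P (z 1) := by
          rw [← xh_addM, h1, xh_subM, xh_one]
        have e : z 1 - (ddv (y 1) - s • xh (D 1) (y 2)) =
            (s • xh (K 0) (ddv (z 0)) + xh (D 0 * K 0) (z 1)) + (xh P (z 1) - xh P (ddv u)) := by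
          change z 1 - (ddv (-(s • xh (K 0) (z 0)) + xh P u) - s • xh (D 1) (-(s • xh (K 1) (z 1)))) = _
          rw [ddv_c, ddv_xh, ddv_xh, xh_n, xh_mul, smul_neg, smul_smul, hss, one_smul, ← sub_eq_zero]
          have e2 : z 1 - (-(s • xh (K 0) (ddv (z 0))) + xh P (ddv u) - -xh (K 1 * D 1) (z 1)) -
              (s • xh (K 0) (ddv (z 0)) + xh (D 0 * K 0) (z 1) + (xh P (z 1) - xh P (ddv u))) =
              (z 1 - xh P (z 1)) - (xh (D 0 * K 0) (z 1) + xh (K 1 * D 1) (z 1)) := by abel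
          rw [e2, hs1, sub_self]
        rw [e]
        exact (JV c (r 1)).add_mem ha hb
      | (n + 2) =>
        have ha : s • xh (K (n + 1)) (ddv (z (n + 1))) + xh (D (n + 1) * K (n + 1)) (z (n + 2)) ∈ JV c (r (n + 2)) :=
          key (n + 1) (K (n + 1)) fun l => hK l (n + 1)
        have hs1 : xh (D (n + 1) * K (n + 1)) (z (n + 2)) + xh (K (n + 2) * D (n + 2)) (z (n + 2)) = z (n + 2) := by
          rw [← xh_addM, h2, xh_one]
        have e : z (n + 2) - (ddv (y (n + 2)) - s • xh (D (n + 2)) (y (n + 2 + 1))) =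
            s • xh (K (n + 1)) (ddv (z (n + 1))) + xh (D (n + 1) * K (n + 1)) (z (n + 2)) := by
          change z (n + 2) - (ddv (-(s • xh (K (n + 1)) (z (n + 1)))) -
            s • xh (D (n + 2)) (-(s • xh (K (n + 2)) (z (n + 2))))) = _
          rw [ddv_n, ddv_xh, xh_n, xh_mul, smul_neg, smul_smul, hss, one_smul, ← sub_eq_zero]
          have e2 : z (n + 2) - (-(s • xh (K (n + 1)) (ddv (z (n + 1)))) - -xh (K (n + 2) * D (n + 2)) (z (n + 2))) -
              (s • xh (K (n + 1)) (ddv (z (n + 1))) + xh (D (n + 1) * K (n + 1)) (z (n + 2))) =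
              z (n + 2) - (xh (D (n + 1) * K (n + 1)) (z (n + 2)) + xh (K (n + 2) * D (n + 2)) (z (n + 2))) := by
            abel
          rw [e2, hs1, sub_self]
        rw [e]
        exact ha
    exact fun i => goal i

end Pool.Agent.H77B.KVC
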