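import Pool.Agent.H77B.Stm2
import Pool.Agent.H77B.KVC

/-!
# Stub KVG: the total complex is exact
-/

set_option autoImplicit false
set_option linter.unusedSectionVars false

noncomputable section

namespace Pool.Agent.H77B.KVG

open Finset Pool.Agent.H77GP Pool.Agent.H77B.KVC

theorem t : Pool.Agent.H77B.KVG := by
  intro L R _ _ c r D K P k hD hK hP h0 h1 hDP hPD hPP hex z hz hzd
  set s : ℤ := (-1) ^ k with hs
  have hss : s * s = 1 := by
    rw [hs, ← pow_add, ← two_mul, pow_mul]
    norm_num
  have hzd' : ∀ q, ddv (z q) + s • xh (D q) (z (q + 1)) ∈ JV c (r q) := fun q i => hzd q i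
  -- the chains `z q * P q`
  have hPdg : ∀ q i, xh (P q) (z q) i ∈ dg L R (k + 1 - q) := fun q i => xh_dg (P q) (hz q) i
  have hPd : ∀ q, ddv (xh (P q) (z q)) ∈ JV c (r q) := by
    intro q
    have h3 := xh_JV c (fun l => hP l q) (hzd' q)
    rw [map_add, map_zsmul, xh_mul, hDP, xh_zero, smul_zero, add_zero, ← ddv_xh] at h3
    exact h3
  have hu : ∀ q, ∃ u : Fin (r q) → XM L R, (∀ i, u i ∈ dg L R (k + 2 - q)) ∧
      xh (P q) (z q) - ddv u ∈ JV c (r q) := by
    intro q
    rcases le_or_gt q k with hqk | hqk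
    · obtain ⟨m, rfl⟩ : ∃ m, k = m + q := ⟨k - q, by omega⟩
      rcases hex q m rfl with h3 | h3
      · refine ⟨0, fun i => Submodule.zero_mem _, ?_⟩
        rw [map_zero, sub_zero, h3, xh_zero]
        exact (JV c (r q)).zero_mem
      · have e1 : m + q + 1 - q = m + 1 := by omega
        have e2 : m + q + 2 - q = m + 2 := by omega
        have h4 : ∀ i, ∃ y ∈ dg L R (m + 2), xh (P q) (z q) i - dd y ∈ Jt c (⊤ : Subgroup L) := fun i => by
          have h5 := hPdg q i
          rw [e1] at h5
          exact h3 _ h5 (hPd q i)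
        choose u hu hu' using h4
        rw [e2]
        exact ⟨u, hu, hu'⟩
    · refine ⟨0, fun i => Submodule.zero_mem _, ?_⟩
      rw [map_zero, sub_zero]
      intro i
      have h5 := hPdg q i
      have e1 : k + 1 - q = 0 := by omega
      rw [e1] at h5
      exact dg0_le c _ h5
  choose u hu1 hu2 using hu
  let y : (q : ℕ) → Fin (r q) → XM L R := fun q => match q with
    | 0 => xh (P 0) (u 0)
    | (n + 1) => -(s • xh (K n) (z n)) + xh (P (n + 1)) (u (n + 1))
  have key : ∀ w : ℕ, ∀ (N : Matrix (Fin (r w)) (Fin (r (w + 1))) R), (∀ l a b, Commute (c l) (N a b)) →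
      s • xh N (ddv (z w)) + xh (D w * N) (z (w + 1)) ∈ JV c (r (w + 1)) := by
    intro w N hN
    have h3 := xh_JV c hN ((JV c (r w)).zsmul_mem (hzd' w) s)
    rw [smul_add, smul_smul, hss, one_smul, map_add, map_zsmul, xh_mul] at h3
    exact h3
  have hb : ∀ q, xh (P q) (z q) - xh (P q) (ddv (u q)) ∈ JV c (r q) := by
    intro q
    have h3 := xh_JV c (fun l => hP l q) (hu2 q)
    rwa [map_sub, xh_mul, hPP] at h3
  refine ⟨y, fun q i => ?_, fun q => ?_⟩
  · match q with
    | 0 => exact xh_dg (P 0) (hu1 0) i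
    | (n + 1) =>
      refine Submodule.add_mem _ (Submodule.neg_mem _ ?_) (xh_dg (P (n + 1)) (hu1 (n + 1)) i)
      have e : k + 2 - (n + 1) = k + 1 - n := by omega
      rw [e]
      exact (dg L R (k + 1 - n)).toAddSubgroup.zsmul_mem (xh_dg (K n) (hz n) i) s
  · have goal : z q - (ddv (y q) - s • xh (D q) (y (q + 1))) ∈ JV c (r q) := by
      have hy1 : s • xh (D q) (y (q + 1)) = -xh (K q * D q) (z q) := by
        change s • xh (D q) (-(s • xh (K q) (z q)) + xh (P (q + 1)) (u (q + 1))) = _
        rw [map_add, xh_n, xh_mul, xh_mul, hPD, xh_zero, add_zero, smul_neg, smul_smul, hss, one_smul]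
      rw [hy1]
      match q with
      | 0 =>
        have e : z 0 - (ddv (y 0) - -xh (K 0 * D 0) (z 0)) = xh (P 0) (z 0) - xh (P 0) (ddv (u 0)) := by
          change z 0 - (ddv (xh (P 0) (u 0)) - -xh (K 0 * D 0) (z 0)) = _
          rw [ddv_xh, h0, xh_subM, xh_one]
          abel
        rw [e]
        exact hb 0
      | (n + 1) =>
        have ha : s • xh (K n) (ddv (z n)) + xh (D n * K n) (z (n + 1)) ∈ JV c (r (n + 1)) := key n (K n) fun l => hK l n
        have hs1 : xh (D n * K n) (z (n + 1)) + xh (K (n + 1) * D (n + 1)) (z (n + 1)) =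
            z (n + 1) - xh (P (n + 1)) (z (n + 1)) := by
          rw [← xh_addM, h1, xh_subM, xh_one]
        have e : z (n + 1) - (ddv (y (n + 1)) - -xh (K (n + 1) * D (n + 1)) (z (n + 1))) =
            (s • xh (K n) (ddv (z n)) + xh (D n * K n) (z (n + 1))) +
              (xh (P (n + 1)) (z (n + 1)) - xh (P (n + 1)) (ddv (u (n + 1)))) := by
          change z (n + 1) - (ddv (-(s • xh (K n) (z n)) + xh (P (n + 1)) (u (n + 1))) -
            -xh (K (n + 1) * D (n + 1)) (z (n + 1))) = _
          rw [ddv_c, ddv_xh, ddv_xh, ← sub_eq_zero]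
          have e2 : z (n + 1) - (-(s • xh (K n) (ddv (z n))) + xh (P (n + 1)) (ddv (u (n + 1))) -
              -xh (K (n + 1) * D (n + 1)) (z (n + 1))) -
              (s • xh (K n) (ddv (z n)) + xh (D n * K n) (z (n + 1)) +
                (xh (P (n + 1)) (z (n + 1)) - xh (P (n + 1)) (ddv (u (n + 1))))) =
              (z (n + 1) - xh (P (n + 1)) (z (n + 1))) -
                (xh (D n * K n) (z (n + 1)) + xh (K (n + 1) * D (n + 1)) (z (n + 1))) := by abel
          rw [e2, hs1, sub_self]
        rw [e]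
        exact (JV c (r (n + 1))).add_mem ha (hb (n + 1))
    exact fun i => goal i

end Pool.Agent.H77B.KVG
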