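import Pool.Agent.H77B.KVTc

/-!
# KVT: homology of a product from the total complex
-/

set_option autoImplicit false
set_option linter.unusedSectionVars false

noncomputable section

attribute [local instance] VN831.bcFunctor_additive VN831.viaAdd VN831.viaMod V7N.bcF_additive
  Pool.Agent.H77B.KVT.xnAdd Pool.Agent.H77B.KVT.xnMod

namespace Pool.Agent.H77B.KVT

open CategoryTheory Pool.Agent.H77GP

open scoped TensorProduct

section chg

variable {L S R : Type} [Group L] [Ring S] [Ring R] (f : S →+* R)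

/-- change of coefficients -/
def cs : XM L S →+ XM L R := Finsupp.mapRange.addMonoidHom f.toAddMonoidHom

theorem cs_single (l : List L) (a : S) : cs f (Finsupp.single l a) = Finsupp.single l (f a) := by
  unfold cs
  rw [Finsupp.mapRange.addMonoidHom_apply, Finsupp.mapRange_single]
  rfl

theorem cs_smul (a : S) (x : XM L S) : cs f (a • x) = f a • cs f x := by
  induction x using Finsupp.induction_linear with
  | zero => rw [smul_zero, map_zero, smul_zero]
  | add x y hx hy => rw [smul_add, map_add, map_add, smul_add, hx, hy]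
  | single l b => rw [Finsupp.smul_single, cs_single, cs_single, Finsupp.smul_single, smul_eq_mul, smul_eq_mul, map_mul]

theorem cs_cn (a : L) (x : XM L S) : cs f (cn a x) = cn a (cs f x) := by
  induction x using Finsupp.induction_linear with
  | zero => rw [map_zero, map_zero, map_zero]
  | add x y hx hy => rw [map_add, map_add, map_add, map_add, hx, hy]
  | single l m => rw [cn_single, cs_single, cs_single, cn_single]

theorem cs_dl (l : List L) : cs f (dl S l) = dl R l := by
  induction l with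
  | nil => exact map_zero _
  | cons a l ih => rw [dl_cons, dl_cons, map_sub, cs_single, cs_cn, ih, map_one]

theorem cs_dd (x : XM L S) : cs f (dd x) = dd (cs f x) := by
  induction x using Finsupp.induction_linear with
  | zero => rw [map_zero, map_zero, map_zero]
  | add x y hx hy => rw [map_add, map_add, map_add, map_add, hx, hy]
  | single l m => rw [dd_single, cs_smul, cs_dl, cs_single, dd_single]

theorem cs_rm (u : S) (x : XM L S) : cs f (rm u x) = rm (f u) (cs f x) := by
  induction x using Finsupp.induction_linear with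
  | zero => rw [map_zero, map_zero, map_zero]
  | add x y hx hy => rw [map_add, map_add, map_add, map_add, hx, hy]
  | single l m => rw [rm_single, cs_single, cs_single, rm_single, map_mul]

theorem cs_dg {n : ℕ} {x : XM L S} (hx : x ∈ dg L S n) : cs f x ∈ dg L R n := by
  intro l hl
  refine hx ?_
  rw [Finset.mem_coe, Finsupp.mem_support_iff] at hl ⊢
  intro h
  apply hl
  change f (x l) = 0
  rw [h, map_zero]

/-- change of coefficients for families -/
def csF (r : ℕ → ℕ) : FM L S r →+ FM L R r where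
  toFun z := fun q i => cs f (z q i)
  map_zero' := by funext q i; exact map_zero _
  map_add' x y := by funext q i; exact map_add _ _ _

theorem csF_apply {r : ℕ → ℕ} (z : FM L S r) (q : ℕ) (i : Fin (r q)) : csF f r z q i = cs f (z q i) := rfl

theorem csF_em {r : ℕ → ℕ} (q : ℕ) (i : Fin (r q)) (x : XM L S) : csF f r (em q i x) = em q i (cs f x) := by
  funext q' j
  rw [csF_apply]
  by_cases h : q' = q
  · subst h
    by_cases hj : j = i
    · subst hj
      rw [em_same, em_same]
    · rw [em_ne_i _ _ _ _ hj, em_ne_i _ _ _ _ hj, map_zero]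
  · rw [em_ne_q _ _ _ _ _ h, em_ne_q _ _ _ _ _ h, map_zero]

theorem csF_mem {r : ℕ → ℕ} {n : ℕ} {z : FM L S r} (hz : z ∈ XS L S r n) : csF f r z ∈ XS L R r n := fun q i =>
  ⟨fun h => cs_dg f ((hz q i).1 h), fun h => by rw [csF_apply, (hz q i).2 h, map_zero]⟩

theorem csF_TT {r : ℕ → ℕ} (D : ∀ n, Matrix (Fin (r (n + 1))) (Fin (r n)) S) (s : ℤ) (n : ℕ) (z : FM L S r) :
    csF f r (TT D s n z) = TT (fun n => (D n).map f) s n (csF f r z) := by
  funext q i
  rw [csF_apply]
  by_cases hq : q ≤ n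
  · rw [TT_apply D s _ hq, TT_apply _ s _ hq, map_add, cs_dd, map_zsmul]
    congr 2
    unfold xv
    rw [map_sum]
    exact Finset.sum_congr rfl fun j _ => cs_rm f _ _
  · rw [TT_zero D s _ (by omega), TT_zero _ s _ (by omega), map_zero]

end chg

section tens

variable {L G R : Type} [Group L] [Group G] [Ring R] (c : L × G →* R) {r : ℕ → ℕ}

/-- the ring homomorphism of the coefficients -/
abbrev evG : MonoidAlgebra ℤ G →+* R := V7N.evM (c.comp (MonoidHom.inr L G))

abbrev cL : L →* R := c.comp (MonoidHom.inl L G)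

theorem ev_single (g : G) (m : ℤ) : evG c (MonoidAlgebra.single g m) = m • c (1, g) := by
  unfold evG V7N.evM
  change MonoidAlgebra.lift ℤ R G (c.comp (MonoidHom.inr L G)) (MonoidAlgebra.single g m) = _
  rw [MonoidAlgebra.lift_single]
  rfl

theorem ev_comm (h : L) (a : MonoidAlgebra ℤ G) : c (h, 1) * evG c a = evG c a * c (h, 1) := by
  induction a using MonoidAlgebra.induction_linear with
  | zero => rw [map_zero, mul_zero, zero_mul]
  | add a b ha hb => rw [map_add, mul_add, add_mul, ha, hb]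
  | single g m =>
    rw [ev_single, mul_smul_comm, smul_mul_assoc, ← map_mul, ← map_mul]
    simp

theorem c_eq (k : L × G) : c k = c (1, k.2) * c (k.1, 1) := by
  rw [← map_mul]
  simp

theorem cs_rel (k : L × G) (x : XM L (MonoidAlgebra ℤ G)) :
    c k • cs (evG c) x - cs (evG c) (ga k x) ∈ Jt (cL c) ⊤ := by
  induction x using Finsupp.induction_linear with
  | zero => rw [map_zero, map_zero, map_zero, smul_zero, sub_zero]; exact Submodule.zero_mem _
  | add x y hx hy =>
    have : c k • cs (evG c) (x + y) - cs (evG c) (ga k (x + y)) =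
        (c k • cs (evG c) x - cs (evG c) (ga k x)) + (c k • cs (evG c) y - cs (evG c) (ga k y)) := by
      rw [map_add, map_add, map_add, smul_add]; abel
    rw [this]
    exact Submodule.add_mem _ hx hy
  | single l a =>
    have h1 := rel_mem (cL c) (Subgroup.mem_top k.1) (Finsupp.single l (c k * evG c a))
    have h2 : ac (cL c) k.1 (Finsupp.single l (c k * evG c a)) = cs (evG c) (ga k (Finsupp.single l a)) := by
      rw [ac_single, ga_single, cs_single, map_mul, ev_single, one_smul]
      congr 1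
      rw [c_eq c k, mul_assoc (c (1, k.2)), ev_comm, ← mul_assoc, mul_assoc]
      have h3 : c (k.1, 1) * (cL c) k.1⁻¹ = 1 := by
        change c (k.1, 1) * c (k.1⁻¹, 1) = 1
        rw [← map_mul, Prod.mk_mul_mk, mul_inv_cancel, mul_one]
        exact map_one c
      rw [h3, mul_one]
    rw [h2] at h1
    rw [cs_single, Finsupp.smul_single, smul_eq_mul]
    exact h1

/-- from chains to the tensor product -/
def Ps1 (n q : ℕ) (i : Fin (r q)) : XM L R →ₗ[R] V7N.BCG c (XN L G r n) :=
  Finsupp.linearCombination R fun l => Submodule.Quotient.mk ((1 : R) ⊗ₜ[ℤ] (bas n q i l : XN L G r n))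

theorem Ps1_single (n q : ℕ) (i : Fin (r q)) (l : List L) (a : R) : Ps1 (G := G) c n q i (Finsupp.single l a) =
    a • (Submodule.Quotient.mk ((1 : R) ⊗ₜ[ℤ] (bas n q i l : XN L G r n)) : V7N.BCG c (XN L G r n)) :=
  Finsupp.linearCombination_single _ _ _

/-- from families to the tensor product -/
def Ps (r : ℕ → ℕ) (n : ℕ) : FM L R r →ₗ[R] V7N.BCG c (XN L G r n) where
  toFun z := ∑ q ∈ Finset.range (n + 1), ∑ i, Ps1 c n q i (z q i)
  map_add' x y := by
    rw [← Finset.sum_add_distrib]
    refine Finset.sum_congr rfl fun q _ => ?_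
    rw [← Finset.sum_add_distrib]
    exact Finset.sum_congr rfl fun i _ => map_add _ _ _
  map_smul' a x := by
    rw [RingHom.id_apply, Finset.smul_sum]
    refine Finset.sum_congr rfl fun q _ => ?_
    rw [Finset.smul_sum]
    exact Finset.sum_congr rfl fun i _ => (Ps1 c n q i).map_smul a _

theorem Ps_apply (n : ℕ) (z : FM L R r) : Ps (G := G) c r n z = ∑ q ∈ Finset.range (n + 1), ∑ i, Ps1 c n q i (z q i) := rfl

theorem Ps_em {n q : ℕ} (hq : q ≤ n) (i : Fin (r q)) (x : XM L R) : Ps (G := G) c r n (em q i x) = Ps1 c n q i x := by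
  rw [Ps_apply, Finset.sum_eq_single q]
  · rw [Finset.sum_eq_single i]
    · rw [em_same]
    · intro j _ hj
      rw [em_ne_i _ _ _ _ hj, map_zero]
    · intro h
      exact absurd (Finset.mem_univ _) h
  · intro q' _ hq'
    refine Finset.sum_eq_zero fun j _ => ?_
    rw [em_ne_q _ _ _ _ _ hq', map_zero]
  · intro h
    exact absurd (Finset.mem_range.mpr (Nat.lt_succ_of_le hq)) h

theorem mk_smul_tmul {K P : Type} [Group K] [AddCommGroup P] [Module (MonoidAlgebra ℤ K) P] (cK : K →* R) (t : R)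
    (p : P) : (Submodule.Quotient.mk (t ⊗ₜ[ℤ] p) : V7N.BCG cK P) = t • Submodule.Quotient.mk ((1 : R) ⊗ₜ[ℤ] p) := by
  rw [← Submodule.Quotient.mk_smul, TensorProduct.smul_tmul', smul_eq_mul, mul_one]

theorem mk_rel {K P : Type} [Group K] [AddCommGroup P] [Module (MonoidAlgebra ℤ K) P] (cK : K →* R) (t : R) (k : K)
    (p : P) : (Submodule.Quotient.mk (t ⊗ₜ[ℤ] (MonoidAlgebra.single k (1 : ℤ) • p)) : V7N.BCG cK P) =
      Submodule.Quotient.mk ((t * cK k) ⊗ₜ[ℤ] p) := by
  symm
  rw [Submodule.Quotient.eq]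
  exact Submodule.subset_span ⟨t, k, p, rfl⟩

theorem Ps_cs {n : ℕ} (t : R) (x : XN L G r n) : Ps c r n (t • csF (evG c) r (vl x)) =
    (Submodule.Quotient.mk (t ⊗ₜ[ℤ] x) : V7N.BCG c (XN L G r n)) := by
  induction x using XN_ind with
  | h0 =>
    rw [vl_zero, map_zero, smul_zero, map_zero, TensorProduct.tmul_zero]
    rfl
  | hadd x y hx hy =>
    rw [vl_add, map_add, smul_add, map_add, hx, hy, TensorProduct.tmul_add, Submodule.Quotient.mk_add]
  | hg q i l g m hq hl =>
    rw [vl_gen i l ⟨hq, hl⟩, csF_em, ← map_smul, Ps_em c hq, cs_single, Finsupp.smul_single, Ps1_single, ev_single,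
      smul_eq_mul]
    have h1 : l.map ((1 : L) * ·) = l := by simp
    have e : (MonoidAlgebra.single ((1 : L), g) m : MonoidAlgebra ℤ (L × G)) =
        m • MonoidAlgebra.single ((1 : L), g) (1 : ℤ) := by
      rw [MonoidAlgebra.smul_single, smul_eq_mul, mul_one]
    have h2 : (m • (MonoidAlgebra.single ((1 : L), g) (1 : ℤ) • bas n q i l) : XN L G r n) =
        MonoidAlgebra.single ((1 : L), g) m • bas n q i l := by
      rw [e, smul_assoc]
    have h3 : (Submodule.Quotient.mk (m • (t ⊗ₜ[ℤ] (MonoidAlgebra.single ((1 : L), g) (1 : ℤ) • bas n q i l :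
        XN L G r n))) : V7N.BCG c (XN L G r n)) =
        m • Submodule.Quotient.mk (t ⊗ₜ[ℤ] (MonoidAlgebra.single ((1 : L), g) (1 : ℤ) • bas n q i l : XN L G r n)) :=
      map_zsmul (Submodule.mkQ (V7N.bcR c (XN L G r n))) m _
    rw [← h2, TensorProduct.tmul_smul, h3, mk_rel, mk_smul_tmul c (t * c (1, g)), h1, mul_smul_comm, smul_assoc]

theorem Ps_surj (n : ℕ) (v : V7N.BCG c (XN L G r n)) : ∃ z ∈ XS L R r n, Ps c r n z = v := by
  obtain ⟨v, rfl⟩ := Submodule.Quotient.mk_surjective _ v
  induction v using TensorProduct.induction_on with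
  | zero => exact ⟨0, Submodule.zero_mem _, by rw [map_zero]; rfl⟩
  | tmul t x => exact ⟨t • csF (evG c) r (vl x), Submodule.smul_mem _ _ (csF_mem _ (vl_mem x)), Ps_cs c t x⟩
  | add z w hz hw =>
    obtain ⟨x, hx, hxz⟩ := hz
    obtain ⟨y, hy, hyw⟩ := hw
    exact ⟨x + y, Submodule.add_mem _ hx hy, by rw [map_add, hxz, hyw]; rfl⟩

theorem em_eq_cs {n q : ℕ} (i : Fin (r q)) (l : List L) (h : q ≤ n ∧ l.length = n + 1 - q) :
    (em q i (Finsupp.single l 1) : FM L R r) = csF (evG c) r (vl (bas n q i l : XN L G r n)) := by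
  rw [vl_bas i l h, csF_em, cs_single, map_one]

theorem Ps_dX (D : ∀ n, Matrix (Fin (r (n + 1))) (Fin (r n)) (MonoidAlgebra ℤ G)) (n : ℕ) {z : FM L R r}
    (hz : z ∈ XS L R r (n + 1)) : Ps c r n (TT (fun n => (D n).map (evG c)) ((-1) ^ (n + 1)) n z) =
      V7N.bcM c (dX (L := L) D n) (Ps c r (n + 1) z) := by
  have h := XS_span hz
  clear hz
  induction h using Submodule.span_induction with
  | mem x hx =>
    obtain ⟨q, i, l, hq, hl, rfl⟩ := hx
    rw [em_eq_cs c i l ⟨hq, hl⟩, ← csF_TT, ← vl_dX]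
    have h1 := Ps_cs c 1 (dX D n (bas (n + 1) q i l : XN L G r (n + 1)))
    have h2 := Ps_cs c 1 (bas (n + 1) q i l : XN L G r (n + 1))
    rw [one_smul] at h1 h2
    rw [h1, h2, V7N.bcM_mk]
  | zero => rw [map_zero, map_zero, map_zero, map_zero]
  | add x y _ _ hx hy => rw [map_add, map_add, map_add, map_add, hx, hy]
  | smul a x _ hx => rw [map_smul, map_smul, map_smul, map_smul, hx]

theorem Ps1_Jt {n q : ℕ} (hq : q ≤ n) (i : Fin (r q)) {x : XM L R} (hx : x ∈ Jt (cL c) ⊤) :
    Ps1 (G := G) c n q i x = 0 := by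
  have h : Jt (cL c) ⊤ ≤ (Ps1 (G := G) c n q i).ker := by
    refine Jt_le' (cL c) ?_ ?_
    · intro y hy
      have e := map_dg (Ps1 (G := G) c n q i) ⊥ (n := 0) (fun l hl => by
        rw [Submodule.mem_bot, Ps1_single]
        have : (bas n q i l : XN L G r n) = 0 := by
          unfold bas
          rw [dif_neg]
          rintro ⟨_, h2⟩
          omega
        rw [this, TensorProduct.tmul_zero, one_smul]
        rfl) hy
      rw [LinearMap.mem_ker]
      exact (Submodule.mem_bot R).mp e
    · intro h _ l _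
      rw [LinearMap.mem_ker, map_sub, Ps1_single, Ps1_single, one_smul, ← mk_smul_tmul]
      have e1 : (bas n q i (l.map (h * ·)) : XN L G r n) = MonoidAlgebra.single (h, (1 : G)) (1 : ℤ) • bas n q i l := by
        by_cases hl : q ≤ n ∧ l.length = n + 1 - q
        · apply vl_ext
          rw [vl_gen i l hl, vl_bas i _ (by rw [List.length_map]; exact hl), ← MonoidAlgebra.one_def]
        · unfold bas
          rw [dif_neg (by rw [List.length_map]; exact hl), dif_neg hl, smul_zero]
      have e2 : (cL c) h⁻¹ * c (h, 1) = 1 := by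
        change c (h⁻¹, 1) * c (h, 1) = 1
        rw [← map_mul, Prod.mk_mul_mk, inv_mul_cancel, mul_one]
        exact map_one c
      rw [e1, mk_rel, e2, sub_self]
  exact h hx

theorem Ps_Jt {n : ℕ} {w : FM L R r} (hw : ∀ q ≤ n, ∀ i, w q i ∈ Jt (cL c) ⊤) : Ps (G := G) c r n w = 0 := by
  rw [Ps_apply]
  refine Finset.sum_eq_zero fun q hq => Finset.sum_eq_zero fun i _ => ?_
  have := Finset.mem_range.mp hq
  exact Ps1_Jt c (by omega) i (hw q (by omega) i)

/-- the additive map of the basis -/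
def PhA (n q : ℕ) (i : Fin (r q)) : XN L G r n →+ (XM L R ⧸ Jt (cL c) ⊤) where
  toFun x := Submodule.Quotient.mk (cs (evG c) (vl x q i))
  map_zero' := by
    change Submodule.Quotient.mk (cs (evG c) 0) = 0
    rw [map_zero]
    rfl
  map_add' x y := by
    change Submodule.Quotient.mk (cs (evG c) (vl x q i + vl y q i)) = _
    rw [map_add]
    rfl

/-- from the tensor product to chains -/
def Ph (n q : ℕ) (i : Fin (r q)) : V7N.BCG c (XN L G r n) →ₗ[R] (XM L R ⧸ Jt (cL c) ⊤) :=
  Submodule.liftQ (V7N.bcR c (XN L G r n))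
    (TensorProduct.AlgebraTensorModule.lift
      (LinearMap.toSpanSingleton R (XN L G r n →ₗ[ℤ] (XM L R ⧸ Jt (cL c) ⊤)) (PhA c n q i).toIntLinearMap)) (by
    rw [V7N.bcR, Submodule.span_le]
    rintro z ⟨x, g, p, rfl⟩
    rw [SetLike.mem_coe, LinearMap.mem_ker, map_sub, sub_eq_zero]
    change (x * c g) • (Submodule.Quotient.mk (cs (evG c) (vl p q i)) : XM L R ⧸ Jt (cL c) ⊤) =
      x • (Submodule.Quotient.mk (cs (evG c) (vl (MonoidAlgebra.single g (1 : ℤ) • p) q i)) : XM L R ⧸ Jt (cL c) ⊤)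
    rw [mul_smul]
    congr 1
    rw [← Submodule.Quotient.mk_smul, Submodule.Quotient.eq, vl_smul, one_smul]
    exact cs_rel c g _)

theorem Ph_mk (n q : ℕ) (i : Fin (r q)) (x : XN L G r n) :
    Ph c n q i (Submodule.Quotient.mk ((1 : R) ⊗ₜ[ℤ] x)) = Submodule.Quotient.mk (cs (evG c) (vl x q i)) := by
  change (1 : R) • (Submodule.Quotient.mk (cs (evG c) (vl x q i)) : XM L R ⧸ Jt (cL c) ⊤) = _
  rw [one_smul]

theorem Ph_Ps {n : ℕ} (q : ℕ) (i : Fin (r q)) {z : FM L R r} (hz : z ∈ XS L R r n) :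
    Ph (G := G) c n q i (Ps c r n z) = Submodule.Quotient.mk (z q i) := by
  have h := XS_span hz
  clear hz
  induction h using Submodule.span_induction with
  | mem x hx =>
    obtain ⟨q', i', l, hq, hl, rfl⟩ := hx
    rw [em_eq_cs (G := G) c i' l ⟨hq, hl⟩]
    have h2 := Ps_cs c 1 (bas n q' i' l : XN L G r n)
    rw [one_smul] at h2
    rw [h2, Ph_mk]
    rfl
  | zero => rw [map_zero, map_zero]; rfl
  | add x y _ _ hx hy => rw [map_add, map_add, hx, hy]; rfl
  | smul a x _ hx => rw [map_smul, map_smul, hx]; rfl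

theorem mem_of_Ps {n : ℕ} {z : FM L R r} (hz : z ∈ XS L R r n) (h : Ps (G := G) c r n z = 0) (q : ℕ) (i : Fin (r q)) :
    z q i ∈ Jt (cL c) ⊤ := by
  have h1 := Ph_Ps (G := G) c q i hz
  rw [h, map_zero] at h1
  exact (Submodule.Quotient.mk_eq_zero _).mp h1.symm

/-! ### homology -/

variable (C : V7N.FreeRes G)

theorem tot_d (n : ℕ) : (((V7N.bcF c).mapHomologicalComplex (ComplexShape.down ℕ)).obj (totC C L)).d (n + 1) n =
    ModuleCat.ofHom (V7N.bcM c (dX C.d n)) := by
  change (V7N.bcF c).map ((totC C L).d (n + 1) n) = _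
  rw [totC_d]
  rfl

theorem hv_succ (n : ℕ) (h : ∀ v : V7N.BCG c (XN L G C.r (n + 1)), V7N.bcM c (dX C.d n) v = 0 →
    ∃ w, V7N.bcM c (dX C.d (n + 1)) w = v) : HV c (n + 1) := by
  obtain ⟨P, hP⟩ := tot_res (L := L) C
  have h1 : Nonempty (((V7N.bcF c).leftDerived (n + 1)).obj (V7N.trivG (L × G)) ≅
      (((V7N.bcF c).mapHomologicalComplex (ComplexShape.down ℕ)).obj P.complex).homology (n + 1)) :=
    ⟨P.isoLeftDerivedObj (V7N.bcF c) (n + 1)⟩
  rw [hP] at h1
  obtain ⟨i1⟩ := h1
  obtain ⟨l2⟩ := V7N.homology_succ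
    (((V7N.bcF c).mapHomologicalComplex (ComplexShape.down ℕ)).obj (totC C L)) n
  rw [tot_d, tot_d] at l2
  have hs : Subsingleton (LinearMap.ker (V7N.bcM c (dX (L := L) C.d n)) ⧸
        (LinearMap.range (V7N.bcM c (dX (L := L) C.d (n + 1)))).submoduleOf
          (LinearMap.ker (V7N.bcM c (dX (L := L) C.d n)))) := by
    rw [Submodule.Quotient.subsingleton_iff, Submodule.eq_top_iff']
    rintro ⟨v, hv⟩
    obtain ⟨w, hw⟩ := h v hv
    exact ⟨w, hw⟩
  exact @Equiv.subsingleton _ _ (i1.toLinearEquiv.trans l2).toEquiv hs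

theorem hv_zero (h : ∀ v : V7N.BCG c (XN L G C.r 0), ∃ w, V7N.bcM c (dX C.d 0) w = v) : HV c 0 := by
  obtain ⟨P, hP⟩ := tot_res (L := L) C
  have h1 : Nonempty (((V7N.bcF c).leftDerived 0).obj (V7N.trivG (L × G)) ≅
      (((V7N.bcF c).mapHomologicalComplex (ComplexShape.down ℕ)).obj P.complex).homology 0) :=
    ⟨P.isoLeftDerivedObj (V7N.bcF c) 0⟩
  rw [hP] at h1
  obtain ⟨i1⟩ := h1
  obtain ⟨l2⟩ := V7N.homology_zero
    (((V7N.bcF c).mapHomologicalComplex (ComplexShape.down ℕ)).obj (totC C L))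
  have hd : (((V7N.bcF c).mapHomologicalComplex (ComplexShape.down ℕ)).obj (totC C L)).d 1 0 =
    ModuleCat.ofHom (V7N.bcM c (dX C.d 0)) := tot_d c C 0
  rw [hd] at l2
  have hs : Subsingleton (V7N.BCG c (XN L G C.r 0) ⧸ LinearMap.range (V7N.bcM c (dX (L := L) C.d 0))) := by
    rw [Submodule.Quotient.subsingleton_iff, Submodule.eq_top_iff']
    intro v
    obtain ⟨w, hw⟩ := h v
    exact ⟨w, hw⟩
  exact @Equiv.subsingleton _ _ (i1.toLinearEquiv.trans l2).toEquiv hs

/-- from the total complex to the tensor product -/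
theorem lift_tot (k : ℕ) (hT : TotEx (cL c) C.r (fun n => (C.d n).map (evG c)) k) (v : V7N.BCG c (XN L G C.r k))
    (hv : ∀ m, k = m + 1 → ∀ z ∈ XS L R C.r k, Ps c C.r k z = v → ∀ q ≤ m, ∀ i,
      dd (z q i) + ((-1 : ℤ) ^ k) • xv (z (q + 1)) ((C.d q).map (evG c)) i ∈ Jt (cL c) ⊤) :
    ∃ w, V7N.bcM c (dX C.d k) w = v := by
  obtain ⟨z, hz, rfl⟩ := Ps_surj c k v
  obtain ⟨y, hy, hy2⟩ := hT z (fun q i => by
      by_cases hq : q ≤ k
      · exact (hz q i).1 hq
      · rw [(hz q i).2 (by omega)]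
        exact Submodule.zero_mem _) (fun q i => by
      by_cases hq : k ≤ q
      · have h1 : z (q + 1) = 0 := by
          funext j
          exact (hz (q + 1) j).2 (by omega)
        rw [h1, xv_zero, smul_zero, add_zero]
        rcases hq.eq_or_lt with h2 | h2
        · subst h2
          refine dg0_le _ _ (dd_dg (n := 0) ?_)
          have := (hz k i).1 le_rfl
          rw [show k + 1 - k = 0 + 1 by omega] at this
          exact this
        · rw [(hz q i).2 h2, map_zero]
          exact Submodule.zero_mem _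
      · obtain ⟨m, rfl⟩ : ∃ m, k = m + 1 := ⟨k - 1, by omega⟩
        exact hv m rfl z hz rfl q (by omega) i)
  let y' : FM L R C.r := fun q i => if q ≤ k + 1 then y q i else 0
  have hy' : y' ∈ XS L R C.r (k + 1) := fun q i => ⟨fun hq => by
    change (if q ≤ k + 1 then y q i else 0) ∈ _
    rw [if_pos hq]
    exact hy q i, fun hq => if_neg (by omega)⟩
  refine ⟨Ps c C.r (k + 1) y', ?_⟩
  rw [← Ps_dX c C.d k hy', ← sub_eq_zero, ← map_sub]
  refine Ps_Jt c fun q hq i => ?_
  have h1 := hy2 q i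
  have h2 : TT (fun n => (C.d n).map (evG c)) ((-1) ^ (k + 1)) k y' q i =
      dd (y q i) - ((-1 : ℤ) ^ k) • xv (y (q + 1)) ((C.d q).map (evG c)) i := by
    rw [TT_apply _ _ _ hq]
    have e1 : y' q i = y q i := if_pos (by omega)
    have e2 : y' (q + 1) = y (q + 1) := by
      funext j
      exact if_pos (by omega)
    rw [e1, e2, pow_succ, mul_neg_one, neg_smul, sub_eq_add_neg]
  change TT (fun n => (C.d n).map (evG c)) ((-1) ^ (k + 1)) k y' q i - z q i ∈ _
  rw [h2, ← neg_sub]
  exact Submodule.neg_mem _ h1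

end tens

theorem t : Pool.Agent.H77B.KVT := by
  intro L G R _ _ _ c C k hT
  cases k with
  | zero => exact hv_zero c C fun v => lift_tot c C 0 hT v fun m hm => absurd hm (by omega)
  | succ n =>
    refine hv_succ c C n fun v hv => lift_tot c C (n + 1) hT v ?_
    rintro m hm z hz rfl q hq i
    obtain rfl : n = m := by omega
    have h1 := Ps_dX c C.d n hz
    rw [hv] at h1
    have h2 := mem_of_Ps c (TT_mem _ _ hz) h1 q i
    rw [TT_apply _ _ _ hq] at h2
    exact h2

end Pool.Agent.H77B.KVT
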