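import Pool.Agent.H77B.Stm

/-!
# KVT, part A: families of chains
-/

set_option autoImplicit false
set_option linter.unusedSectionVars false

noncomputable section

attribute [local instance] VN831.bcFunctor_additive VN831.viaAdd VN831.viaMod V7N.bcF_additive

namespace Pool.Agent.H77B.KVT

open CategoryTheory Pool.Agent.H77GP

open scoped TensorProduct

section families

variable {L S : Type} [Group L] [Ring S] {r : ℕ → ℕ}

/-- families of chains -/
abbrev FM (L S : Type) [Ring S] (r : ℕ → ℕ) : Type := (q : ℕ) → Fin (r q) → XM L S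

/-- the families of total degree `n` -/
def XS (L S : Type) [Group L] [Ring S] (r : ℕ → ℕ) (n : ℕ) : Submodule S (FM L S r) where
  carrier := {z | ∀ q i, (q ≤ n → z q i ∈ dg L S (n + 1 - q)) ∧ (n < q → z q i = 0)}
  zero_mem' := fun _ _ => ⟨fun _ => Submodule.zero_mem _, fun _ => rfl⟩
  add_mem' := fun {x y} hx hy q i => ⟨fun h => Submodule.add_mem _ ((hx q i).1 h) ((hy q i).1 h), fun h => by
    change x q i + y q i = 0
    rw [(hx q i).2 h, (hy q i).2 h, add_zero]⟩
  smul_mem' := fun a x hx q i => ⟨fun h => Submodule.smul_mem _ a ((hx q i).1 h), fun h => by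
    change a • x q i = 0
    rw [(hx q i).2 h, smul_zero]⟩

theorem mem_XS {n : ℕ} {z : FM L S r} : z ∈ XS L S r n ↔
    ∀ q i, (q ≤ n → z q i ∈ dg L S (n + 1 - q)) ∧ (n < q → z q i = 0) := Iff.rfl

/-- the elementary families -/
def em (q : ℕ) (i : Fin (r q)) : XM L S →ₗ[S] FM L S r :=
  (LinearMap.single S (fun q => Fin (r q) → XM L S) q).comp (LinearMap.single S (fun _ : Fin (r q) => XM L S) i)

theorem em_same (q : ℕ) (i : Fin (r q)) (x : XM L S) : em q i x q i = x := by
  change (Pi.single q (Pi.single i x : Fin (r q) → XM L S) : FM L S r) q i = x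
  rw [Pi.single_eq_same, Pi.single_eq_same]

theorem em_ne_i (q : ℕ) (i j : Fin (r q)) (x : XM L S) (h : j ≠ i) : em q i x q j = 0 := by
  change (Pi.single q (Pi.single i x : Fin (r q) → XM L S) : FM L S r) q j = 0
  rw [Pi.single_eq_same, Pi.single_eq_of_ne h]

theorem em_ne_q (q q' : ℕ) (i : Fin (r q)) (j : Fin (r q')) (x : XM L S) (h : q' ≠ q) : em q i x q' j = 0 := by
  change (Pi.single q (Pi.single i x : Fin (r q) → XM L S) : FM L S r) q' j = 0
  rw [Pi.single_eq_of_ne h]
  rfl

theorem em_mem {n q : ℕ} (hq : q ≤ n) (i : Fin (r q)) {x : XM L S} (hx : x ∈ dg L S (n + 1 - q)) :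
    em q i x ∈ XS L S r n := by
  intro q' j
  by_cases h : q' = q
  · subst h
    refine ⟨fun _ => ?_, fun h => absurd h (by omega)⟩
    by_cases hj : j = i
    · subst hj
      rw [em_same]
      exact hx
    · rw [em_ne_i _ _ _ _ hj]
      exact Submodule.zero_mem _
  · rw [em_ne_q _ _ _ _ _ h]
    exact ⟨fun _ => Submodule.zero_mem _, fun _ => rfl⟩

theorem XS_sum {n : ℕ} {z : FM L S r} (hz : z ∈ XS L S r n) :
    z = ∑ q ∈ Finset.range (n + 1), ∑ i, em q i (z q i) := by
  funext q j
  rw [Finset.sum_apply, Finset.sum_apply]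
  by_cases hq : q ≤ n
  · rw [Finset.sum_eq_single q]
    · rw [Finset.sum_apply, Finset.sum_apply, Finset.sum_eq_single j]
      · rw [em_same]
      · intro i _ hi
        exact em_ne_i _ _ _ _ (Ne.symm hi)
      · intro h
        exact absurd (Finset.mem_univ _) h
    · intro q' _ hq'
      rw [Finset.sum_apply, Finset.sum_apply]
      exact Finset.sum_eq_zero fun i _ => em_ne_q _ _ _ _ _ (Ne.symm hq')
    · intro h
      exact absurd (Finset.mem_range.mpr (Nat.lt_succ_of_le hq)) h
  · rw [(hz q j).2 (by omega)]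
    refine (Finset.sum_eq_zero fun q' hq' => ?_).symm
    rw [Finset.sum_apply, Finset.sum_apply]
    have := Finset.mem_range.mp hq'
    exact Finset.sum_eq_zero fun i _ => em_ne_q _ _ _ _ _ (by omega)

/-- the generators -/
def gens (L S : Type) [Group L] [Ring S] (r : ℕ → ℕ) (n : ℕ) : Set (FM L S r) :=
  {w | ∃ (q : ℕ) (i : Fin (r q)) (l : List L), q ≤ n ∧ l.length = n + 1 - q ∧ w = em q i (Finsupp.single l 1)}

theorem XS_span {n : ℕ} {z : FM L S r} (hz : z ∈ XS L S r n) : z ∈ Submodule.span S (gens L S r n) := by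
  rw [XS_sum hz]
  refine Submodule.sum_mem _ fun q hq => Submodule.sum_mem _ fun i _ => ?_
  have hq' : q ≤ n := Nat.lt_succ_iff.mp (Finset.mem_range.mp hq)
  refine map_dg (em q i) (Submodule.span S (gens L S r n)) (fun l hl => ?_) ((hz q i).1 hq')
  exact Submodule.subset_span ⟨q, i, l, hq', hl, rfl⟩

/-! ### right multiplication -/

theorem rm_dd (u : S) (x : XM L S) : rm u (dd x) = dd (rm u x) := by
  have e : (rm u).comp dd = (dd : XM L S →ₗ[S] XM L S).comp (rm u) := by
    refine Finsupp.lhom_ext fun l a => ?_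
    rw [LinearMap.comp_apply, LinearMap.comp_apply, dd_single, rm_single, dd_single, map_smul, mul_smul]
    congr 1
    induction l with
    | nil =>
      have : dl S ([] : List L) = 0 := rfl
      rw [this, map_zero, smul_zero]
    | cons b l ih =>
      have h2 : ∀ (y : XM L S), rm u (cn b y) = cn b (rm u y) := by
        intro y
        have e : (rm u).comp (cn b) = (cn b : XM L S →ₗ[S] XM L S).comp (rm u) := by
          refine Finsupp.lhom_ext fun l a => ?_
          rw [LinearMap.comp_apply, LinearMap.comp_apply, cn_single, rm_single, rm_single, cn_single]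
        exact LinearMap.congr_fun e y
      rw [dl_cons, map_sub, rm_single, h2, ih, smul_sub, Finsupp.smul_single, smul_eq_mul, mul_one, one_mul, map_smul]
  exact LinearMap.congr_fun e x

theorem rm_dg (u : S) {n : ℕ} {x : XM L S} (hx : x ∈ dg L S n) : rm u x ∈ dg L S n := by
  refine map_dg (rm u) _ (fun l hl => ?_) hx
  rw [rm_single]
  exact single_mem_dg _ _ hl

theorem rm_mul (u v : S) (x : XM L S) : rm v (rm u x) = rm (u * v) x := by
  have e : (rm v).comp (rm u) = (rm (u * v) : XM L S →ₗ[S] XM L S) := by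
    refine Finsupp.lhom_ext fun l a => ?_
    rw [LinearMap.comp_apply, rm_single, rm_single, rm_single, mul_assoc]
  exact LinearMap.congr_fun e x

theorem rm_add (u v : S) (x : XM L S) : rm (u + v) x = rm u x + rm v x := by
  have e : (rm (u + v) : XM L S →ₗ[S] XM L S) = rm u + rm v := by
    refine Finsupp.lhom_ext fun l a => ?_
    rw [LinearMap.add_apply, rm_single, rm_single, rm_single, mul_add, Finsupp.single_add]
  exact LinearMap.congr_fun e x

theorem rm_zero (x : XM L S) : rm 0 x = 0 := by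
  have e : (rm 0 : XM L S →ₗ[S] XM L S) = 0 := by
    refine Finsupp.lhom_ext fun l a => ?_
    rw [rm_single, mul_zero, Finsupp.single_zero]
    rfl
  exact LinearMap.congr_fun e x

theorem rm_sum {ι : Type} (s : Finset ι) (u : ι → S) (x : XM L S) : rm (∑ j ∈ s, u j) x = ∑ j ∈ s, rm (u j) x := by
  classical
  induction s using Finset.induction_on with
  | empty => rw [Finset.sum_empty, Finset.sum_empty, rm_zero]
  | insert a s ha ih => rw [Finset.sum_insert ha, Finset.sum_insert ha, rm_add, ih]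

theorem xv_add {a b : ℕ} (z w : Fin a → XM L S) (D : Matrix (Fin a) (Fin b) S) (j : Fin b) :
    xv (z + w) D j = xv z D j + xv w D j := by
  unfold xv
  rw [← Finset.sum_add_distrib]
  exact Finset.sum_congr rfl fun i _ => map_add _ _ _

theorem xv_smul {a b : ℕ} (t : S) (z : Fin a → XM L S) (D : Matrix (Fin a) (Fin b) S) (j : Fin b) :
    xv (t • z) D j = t • xv z D j := by
  unfold xv
  rw [Finset.smul_sum]
  exact Finset.sum_congr rfl fun i _ => (rm (D i j)).map_smul t (z i)

theorem xv_zero {a b : ℕ} (D : Matrix (Fin a) (Fin b) S) (j : Fin b) :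
    xv (0 : Fin a → XM L S) D j = 0 := Finset.sum_eq_zero fun _ _ => map_zero _

theorem xv_dd {a b : ℕ} (z : Fin a → XM L S) (D : Matrix (Fin a) (Fin b) S) (j : Fin b) :
    dd (xv z D j) = xv (fun i => dd (z i)) D j := by
  unfold xv
  rw [map_sum]
  exact Finset.sum_congr rfl fun i _ => (rm_dd _ _).symm

theorem xv_dg {a b n : ℕ} {z : Fin a → XM L S} (hz : ∀ i, z i ∈ dg L S n) (D : Matrix (Fin a) (Fin b) S) (j : Fin b) :
    xv z D j ∈ dg L S n := Submodule.sum_mem _ fun i _ => rm_dg _ (hz i)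

theorem xv_xv {a b d : ℕ} (z : Fin a → XM L S) (D : Matrix (Fin a) (Fin b) S) (E : Matrix (Fin b) (Fin d) S)
    (j : Fin d) : xv (xv z D) E j = xv z (D * E) j := by
  unfold xv
  have h1 : ∀ i : Fin b, rm (E i j) (∑ m, rm (D m i) (z m)) = ∑ m, rm (D m i * E i j) (z m) := fun i => by
    rw [map_sum]
    exact Finset.sum_congr rfl fun m _ => rm_mul _ _ _
  rw [Finset.sum_congr rfl fun i _ => h1 i, Finset.sum_comm]
  refine Finset.sum_congr rfl fun m _ => ?_
  rw [Matrix.mul_apply, rm_sum]

theorem xv_mzero {a b : ℕ} (z : Fin a → XM L S) (j : Fin b) : xv z (0 : Matrix (Fin a) (Fin b) S) j = 0 :=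
  Finset.sum_eq_zero fun _ _ => rm_zero _

/-- the differential of the total complex -/
def TT (D : ∀ n, Matrix (Fin (r (n + 1))) (Fin (r n)) S) (s : ℤ) (n : ℕ) : FM L S r →ₗ[S] FM L S r where
  toFun z := fun q i => if q ≤ n then dd (z q i) + s • xv (z (q + 1)) (D q) i else 0
  map_add' x y := by
    funext q i
    change (if q ≤ n then dd (x q i + y q i) + s • xv (x (q + 1) + y (q + 1)) (D q) i else 0) =
      (if q ≤ n then dd (x q i) + s • xv (x (q + 1)) (D q) i else 0) +
      (if q ≤ n then dd (y q i) + s • xv (y (q + 1)) (D q) i else 0)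
    split_ifs
    · rw [map_add, xv_add, smul_add]; abel
    · rw [add_zero]
  map_smul' t x := by
    funext q i
    change (if q ≤ n then dd (t • x q i) + s • xv (t • x (q + 1)) (D q) i else 0) =
      t • (if q ≤ n then dd (x q i) + s • xv (x (q + 1)) (D q) i else 0)
    split_ifs
    · rw [map_smul, xv_smul, smul_add, smul_comm s t]
    · rw [smul_zero]

theorem TT_apply (D : ∀ n, Matrix (Fin (r (n + 1))) (Fin (r n)) S) (s : ℤ) {n : ℕ} (z : FM L S r) {q : ℕ}
    (hq : q ≤ n) (i : Fin (r q)) : TT D s n z q i = dd (z q i) + s • xv (z (q + 1)) (D q) i := if_pos hq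

theorem TT_zero (D : ∀ n, Matrix (Fin (r (n + 1))) (Fin (r n)) S) (s : ℤ) {n : ℕ} (z : FM L S r) {q : ℕ}
    (hq : n < q) (i : Fin (r q)) : TT D s n z q i = 0 := if_neg (by omega)

theorem TT_mem (D : ∀ n, Matrix (Fin (r (n + 1))) (Fin (r n)) S) (s : ℤ) {n : ℕ} {z : FM L S r}
    (hz : z ∈ XS L S r (n + 1)) : TT D s n z ∈ XS L S r n := by
  intro q i
  refine ⟨fun hq => ?_, fun hq => TT_zero D s z hq i⟩
  rw [TT_apply D s z hq]
  refine Submodule.add_mem _ (dd_dg ?_) ?_
  · have h := (hz q i).1 (by omega)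
    rw [show n + 1 - q + 1 = n + 1 + 1 - q by omega]
    exact h
  · refine Submodule.smul_of_tower_mem _ s (xv_dg (fun j => ?_) _ _)
    have h := (hz (q + 1) j).1 (by omega)
    rw [show n + 1 - q = n + 1 + 1 - (q + 1) by omega]
    exact h

theorem TT_TT (D : ∀ n, Matrix (Fin (r (n + 1))) (Fin (r n)) S) (hD : ∀ n, D (n + 1) * D n = 0) (s s' : ℤ)
    (hs : s + s' = 0) (n : ℕ) (z : FM L S r) : TT D s n (TT D s' (n + 1) z) = 0 := by
  funext q i
  by_cases hq : q ≤ n
  · rw [TT_apply D s _ hq, TT_apply D s' z (by omega : q ≤ n + 1), map_add, dd_dd, zero_add, map_zsmul]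
    have h1 : (TT D s' (n + 1) z) (q + 1) = (fun j => dd (z (q + 1) j)) + (s' • xv (z (q + 1 + 1)) (D (q + 1))) := by
      funext j
      rw [TT_apply D s' z (by omega : q + 1 ≤ n + 1)]
      rfl
    rw [h1, xv_add]
    have h2 : xv (s' • xv (z (q + 1 + 1)) (D (q + 1))) (D q) i = 0 := by
      have h3 : (s' • xv (z (q + 1 + 1)) (D (q + 1))) = ((s' : S) • xv (z (q + 1 + 1)) (D (q + 1))) := by
        funext j
        exact (Int.cast_smul_eq_zsmul S s' _).symm
      rw [h3, xv_smul, xv_xv, hD, xv_mzero, smul_zero]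
    rw [h2, add_zero, xv_dd, ← add_smul, add_comm, hs, zero_smul]
    rfl
  · rw [TT_zero D s _ (by omega)]
    rfl

theorem xv_empty {a b : ℕ} (v : Fin a → S) (D : Matrix (Fin a) (Fin b) S) (j : Fin b) :
    xv (fun i => (Finsupp.single [] (v i) : XM L S)) D j = Finsupp.single [] (Matrix.vecMul v D j) := by
  unfold xv
  have h : Matrix.vecMul v D j = ∑ i, v i * D i j := rfl
  rw [h, Finsupp.single_finsetSum]
  exact Finset.sum_congr rfl fun i _ => rm_single _ _ _

theorem xv_zsmul {a b : ℕ} (s : ℤ) (z : Fin a → XM L S) (D : Matrix (Fin a) (Fin b) S) (j : Fin b) :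
    xv (s • z) D j = s • xv z D j := by
  have h3 : (s • z) = ((s : S) • z) := by
    funext j
    exact (Int.cast_smul_eq_zsmul S s _).symm
  rw [h3, xv_smul]
  exact Int.cast_smul_eq_zsmul S s _

theorem xv_sub {a b : ℕ} (z w : Fin a → XM L S) (D : Matrix (Fin a) (Fin b) S) (j : Fin b) :
    xv (z - w) D j = xv z D j - xv w D j := by
  unfold xv
  rw [← Finset.sum_sub_distrib]
  exact Finset.sum_congr rfl fun i _ => map_sub _ _ _

/-- the family of the last cone -/
def w0 (s' : ℤ) (N : ℕ) (b : Fin (r N) → S) : FM L S r :=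
  ∑ i, em N i (s' • Finsupp.single [1] (b i))

theorem w0_same (s' : ℤ) (N : ℕ) (b : Fin (r N) → S) (i : Fin (r N)) :
    (w0 s' N b : FM L S r) N i = s' • Finsupp.single [1] (b i) := by
  unfold w0
  rw [Finset.sum_apply, Finset.sum_apply, Finset.sum_eq_single i]
  · rw [em_same]
  · intro j _ hj
    exact em_ne_i _ _ _ _ (Ne.symm hj)
  · intro h
    exact absurd (Finset.mem_univ _) h

theorem w0_ne (s' : ℤ) (N : ℕ) (b : Fin (r N) → S) {q : ℕ} (hq : q ≠ N) (i : Fin (r q)) :
    (w0 s' N b : FM L S r) q i = 0 := by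
  unfold w0
  rw [Finset.sum_apply, Finset.sum_apply]
  exact Finset.sum_eq_zero fun j _ => em_ne_q _ _ _ _ _ hq

/-- the staircase -/
def stair (D : ∀ n, Matrix (Fin (r (n + 1))) (Fin (r n)) S) (s' : ℤ) (N : ℕ) (b : Fin (r (N + 1)) → S)
    (z : FM L S r) : ℕ → FM L S r
  | 0 => w0 s' (N + 1) b
  | t + 1 => fun q i => cn 1 (z q i - s' • xv (stair D s' N b z t (q + 1)) (D q) i)

theorem stair_dg (D : ∀ n, Matrix (Fin (r (n + 1))) (Fin (r n)) S) (s' : ℤ) (N : ℕ) (b : Fin (r (N + 1)) → S)
    {z : FM L S r} (hz : z ∈ XS L S r N) : ∀ t q, q + t = N + 1 → ∀ i, stair D s' N b z t q i ∈ dg L S (t + 1) := by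
  intro t
  induction t with
  | zero =>
    intro q hq i
    have h : q = N + 1 := by omega
    subst h
    change (w0 s' (N + 1) b : FM L S r) (N + 1) i ∈ _
    rw [w0_same]
    exact Submodule.smul_of_tower_mem _ s' (single_mem_dg _ _ rfl)
  | succ t ih =>
    intro q hq i
    change cn 1 (z q i - s' • xv (stair D s' N b z t (q + 1)) (D q) i) ∈ _
    refine cn_dg 1 (Submodule.sub_mem _ ?_ (Submodule.smul_of_tower_mem _ s' (xv_dg (fun j => ?_) _ _)))
    · have h := (hz q i).1 (by omega)
      rw [show t + 1 = N + 1 - q by omega]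
      exact h
    · exact ih (q + 1) (by omega) j

theorem stair_eq (D : ∀ n, Matrix (Fin (r (n + 1))) (Fin (r n)) S) (hD : ∀ n, D (n + 1) * D n = 0) (s s' : ℤ)
    (hs : s + s' = 0) (hss : s' * s' = 1) (N : ℕ) (b : Fin (r (N + 1)) → S) {z : FM L S r}
    (h0 : ∀ q < N, ∀ i, dd (z q i) + s • xv (z (q + 1)) (D q) i = 0)
    (hb : ∀ i, dd (z N i) = Finsupp.single [] (Matrix.vecMul b (D N) i)) :
    ∀ t q, q + (t + 1) = N + 1 → ∀ i, dd (stair D s' N b z (t + 1) q i) =
      z q i - s' • xv (stair D s' N b z t (q + 1)) (D q) i := by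
  intro t
  induction t with
  | zero =>
    intro q hq i
    have h : q = N := by omega
    subst h
    change dd (cn 1 (z q i - s' • xv ((w0 s' (q + 1) b : FM L S r) (q + 1)) (D q) i)) =
      z q i - s' • xv ((w0 s' (q + 1) b : FM L S r) (q + 1)) (D q) i
    rw [dd_cn, sub_eq_self]
    have h1 : dd (z q i - s' • xv ((w0 s' (q + 1) b : FM L S r) (q + 1)) (D q) i) = 0 := by
      rw [map_sub, map_zsmul, xv_dd, hb]
      have h2 : (fun j => dd ((w0 s' (q + 1) b : FM L S r) (q + 1) j)) =
          s' • (fun j => (Finsupp.single [] (b j) : XM L S)) := by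
        funext j
        change dd ((w0 s' (q + 1) b : FM L S r) (q + 1) j) = s' • (Finsupp.single [] (b j) : XM L S)
        rw [w0_same, map_zsmul, dd_single]
        have h3 : dl S [(1 : L)] = Finsupp.single [] 1 := by
          rw [dl_cons]
          have : dl S ([] : List L) = 0 := rfl
          rw [this, map_zero, sub_zero]
        rw [h3, Finsupp.smul_single, smul_eq_mul, mul_one]
      rw [h2, xv_zsmul, xv_empty, smul_smul, hss, one_smul, sub_self]
    rw [h1, map_zero]
  | succ t ih =>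
    intro q hq i
    change dd (cn 1 (z q i - s' • xv (stair D s' N b z (t + 1) (q + 1)) (D q) i)) = _
    rw [dd_cn, sub_eq_self]
    have h1 : dd (z q i - s' • xv (stair D s' N b z (t + 1) (q + 1)) (D q) i) = 0 := by
      rw [map_sub, map_zsmul, xv_dd]
      have h2 : (fun j => dd (stair D s' N b z (t + 1) (q + 1) j)) =
          z (q + 1) - s' • xv (stair D s' N b z t (q + 1 + 1)) (D (q + 1)) := by
        funext j
        exact ih (q + 1) (by omega) j
      rw [h2, xv_sub, xv_zsmul, xv_xv, hD, xv_mzero, smul_zero, sub_zero]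
      have h3 := h0 q (by omega) i
      have h4 : s = -s' := by omega
      rw [h4, neg_smul] at h3
      rw [sub_eq_add_neg]
      exact h3
    rw [h1, map_zero]

/-- exactness of the total complex -/
theorem exact_fam (D : ∀ n, Matrix (Fin (r (n + 1))) (Fin (r n)) S) (hD : ∀ n, D (n + 1) * D n = 0) (s s' : ℤ)
    (hs : s + s' = 0) (hss : s' * s' = 1) (N : ℕ) (b : Fin (r (N + 1)) → S) {z : FM L S r} (hz : z ∈ XS L S r N)
    (h0 : ∀ q < N, ∀ i, dd (z q i) + s • xv (z (q + 1)) (D q) i = 0)
    (hb : ∀ i, dd (z N i) = Finsupp.single [] (Matrix.vecMul b (D N) i)) :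
    ∃ w ∈ XS L S r (N + 1), TT D s' N w = z := by
  refine ⟨fun q => stair D s' N b z (N + 1 - q) q, fun q i => ⟨fun hq => ?_, fun hq => ?_⟩, ?_⟩
  · have h := stair_dg D s' N b hz (N + 1 - q) q (by omega) i
    rw [show N + 1 + 1 - q = N + 1 - q + 1 by omega]
    exact h
  · change stair D s' N b z (N + 1 - q) q i = 0
    rw [show N + 1 - q = 0 by omega]
    exact w0_ne s' (N + 1) b (by omega) i
  · funext q i
    by_cases hq : q ≤ N
    · rw [TT_apply D s' _ hq]
      have h1 := stair_eq D hD s s' hs hss N b h0 hb (N - q) q (by omega) i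
      rw [show N + 1 - q = N - q + 1 by omega, show N + 1 - (q + 1) = N - q by omega, h1]
      abel
    · rw [TT_zero D s' _ (by omega), (hz q i).2 (by omega)]

end families

end Pool.Agent.H77B.KVT
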