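import Pool.Agent.H77B.KVTa

/-!
# KVT, part B: the free resolution of the product
-/

set_option autoImplicit false
set_option linter.unusedSectionVars false

noncomputable section

attribute [local instance] VN831.bcFunctor_additive VN831.viaAdd VN831.viaMod V7N.bcF_additive

namespace Pool.Agent.H77B.KVT

open CategoryTheory Pool.Agent.H77GP

open scoped TensorProduct

section act

variable {L G : Type} [Group L] [Group G] {r : ℕ → ℕ}

/-- the action of a group element on chains -/
def ga (k : L × G) : XM L (MonoidAlgebra ℤ G) →+ XM L (MonoidAlgebra ℤ G) where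
  toFun x := MonoidAlgebra.single k.2 (1 : ℤ) • ac (1 : L →* MonoidAlgebra ℤ G) k.1 x
  map_zero' := by rw [map_zero, smul_zero]
  map_add' x y := by rw [map_add, smul_add]

theorem ga_apply (k : L × G) (x : XM L (MonoidAlgebra ℤ G)) :
    ga k x = MonoidAlgebra.single k.2 (1 : ℤ) • ac (1 : L →* MonoidAlgebra ℤ G) k.1 x := rfl

theorem ga_single (k : L × G) (l : List L) (a : MonoidAlgebra ℤ G) :
    ga k (Finsupp.single l a) = Finsupp.single (l.map (k.1 * ·)) (MonoidAlgebra.single k.2 (1 : ℤ) * a) := by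
  rw [ga_apply, ac_single, MonoidHom.one_apply, mul_one, Finsupp.smul_single, smul_eq_mul]

theorem ga_one (x : XM L (MonoidAlgebra ℤ G)) : ga (1 : L × G) x = x := by
  rw [ga_apply, Prod.fst_one, ac_one, Prod.snd_one, ← MonoidAlgebra.one_def, one_smul]

theorem ga_mul (k k' : L × G) (x : XM L (MonoidAlgebra ℤ G)) : ga (k * k') x = ga k (ga k' x) := by
  rw [ga_apply, ga_apply, ga_apply, map_smul, smul_smul, Prod.fst_mul, Prod.snd_mul, ac_mul,
    MonoidAlgebra.single_mul_single, mul_one]

theorem ga_dd (k : L × G) (x : XM L (MonoidAlgebra ℤ G)) : dd (ga k x) = ga k (dd x) := by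
  rw [ga_apply, ga_apply, map_smul, ac_dd]

theorem ga_rm (k : L × G) (u : MonoidAlgebra ℤ G) (x : XM L (MonoidAlgebra ℤ G)) : rm u (ga k x) = ga k (rm u x) := by
  have e : (rm u).comp (ac (1 : L →* MonoidAlgebra ℤ G) k.1) = (ac (1 : L →* MonoidAlgebra ℤ G) k.1).comp (rm u) := by
    refine Finsupp.lhom_ext fun l a => ?_
    rw [LinearMap.comp_apply, LinearMap.comp_apply, ac_single, rm_single, rm_single, ac_single, MonoidHom.one_apply,
      mul_one, mul_one]
  rw [ga_apply, ga_apply, map_smul]
  congr 1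
  exact LinearMap.congr_fun e x

theorem ga_dg (k : L × G) {n : ℕ} {x : XM L (MonoidAlgebra ℤ G)} (hx : x ∈ dg L (MonoidAlgebra ℤ G) n) :
    ga k x ∈ dg L (MonoidAlgebra ℤ G) n := Submodule.smul_mem _ _ (ac_dg _ _ hx)

/-- the action of a group element on families -/
def act (k : L × G) : FM L (MonoidAlgebra ℤ G) r →+ FM L (MonoidAlgebra ℤ G) r where
  toFun z := fun q i => ga k (z q i)
  map_zero' := by funext q i; exact map_zero _
  map_add' x y := by funext q i; exact map_add _ _ _

theorem act_apply (k : L × G) (z : FM L (MonoidAlgebra ℤ G) r) (q : ℕ) (i : Fin (r q)) : act k z q i = ga k (z q i) :=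
  rfl

theorem act_mem (k : L × G) {n : ℕ} {z : FM L (MonoidAlgebra ℤ G) r} (hz : z ∈ XS L (MonoidAlgebra ℤ G) r n) :
    act k z ∈ XS L (MonoidAlgebra ℤ G) r n := fun q i => ⟨fun h => ga_dg k ((hz q i).1 h), fun h => by
  rw [act_apply, (hz q i).2 h, map_zero]⟩

theorem act_em (k : L × G) (q : ℕ) (i : Fin (r q)) (x : XM L (MonoidAlgebra ℤ G)) :
    act k (em q i x) = em q i (ga k x) := by
  funext q' j
  rw [act_apply]
  by_cases h : q' = q
  · subst h
    by_cases hj : j = i
    · subst hj
      rw [em_same, em_same]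
    · rw [em_ne_i _ _ _ _ hj, em_ne_i _ _ _ _ hj, map_zero]
  · rw [em_ne_q _ _ _ _ _ h, em_ne_q _ _ _ _ _ h, map_zero]

theorem act_TT (k : L × G) (D : ∀ n, Matrix (Fin (r (n + 1))) (Fin (r n)) (MonoidAlgebra ℤ G)) (s : ℤ) (n : ℕ)
    (z : FM L (MonoidAlgebra ℤ G) r) : TT D s n (act k z) = act k (TT D s n z) := by
  funext q i
  rw [act_apply]
  by_cases hq : q ≤ n
  · rw [TT_apply D s _ hq, TT_apply D s _ hq, act_apply, ga_dd, map_add, map_zsmul]
    congr 2
    unfold xv
    rw [map_sum]
    exact Finset.sum_congr rfl fun j _ => ga_rm k _ _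
  · rw [TT_zero D s _ (by omega), TT_zero D s _ (by omega), map_zero]

/-- the module of the families of total degree `n` -/
def XN (L G : Type) [Group L] [Group G] (r : ℕ → ℕ) (n : ℕ) : Type := XS L (MonoidAlgebra ℤ G) r n

@[reducible] def xnAdd (n : ℕ) : AddCommGroup (XN L G r n) := inferInstanceAs (AddCommGroup (XS L (MonoidAlgebra ℤ G) r n))

attribute [local instance] xnAdd

/-- the representation -/
def xnRep (n : ℕ) : L × G →* Module.End ℤ (XS L (MonoidAlgebra ℤ G) r n) where
  toFun k :=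
    { toFun := fun x => ⟨act k x.1, act_mem k x.2⟩
      map_add' := fun x y => Subtype.ext (map_add (act k) x.1 y.1)
      map_smul' := fun m x => Subtype.ext (map_zsmul (act k) m x.1) }
  map_one' := by
    apply LinearMap.ext
    intro x
    apply Subtype.ext
    funext q i
    exact ga_one _
  map_mul' k k' := by
    apply LinearMap.ext
    intro x
    apply Subtype.ext
    funext q i
    exact ga_mul _ _ _

@[reducible] def xnMod (n : ℕ) : Module (MonoidAlgebra ℤ (L × G)) (XN L G r n) :=
  Module.compHom (XS L (MonoidAlgebra ℤ G) r n)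
    (MonoidAlgebra.lift ℤ (Module.End ℤ (XS L (MonoidAlgebra ℤ G) r n)) (L × G) (xnRep n)).toRingHom

attribute [local instance] xnMod

/-- the underlying family -/
def vl {n : ℕ} (x : XN L G r n) : FM L (MonoidAlgebra ℤ G) r := (show XS L (MonoidAlgebra ℤ G) r n from x).1

def xk {n : ℕ} (z : FM L (MonoidAlgebra ℤ G) r) (hz : z ∈ XS L (MonoidAlgebra ℤ G) r n) : XN L G r n :=
  (⟨z, hz⟩ : XS L (MonoidAlgebra ℤ G) r n)

theorem vl_mem {n : ℕ} (x : XN L G r n) : vl x ∈ XS L (MonoidAlgebra ℤ G) r n :=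
  (show XS L (MonoidAlgebra ℤ G) r n from x).2

theorem vl_ext {n : ℕ} {x y : XN L G r n} (h : vl x = vl y) : x = y := Subtype.ext h

theorem vl_add {n : ℕ} (x y : XN L G r n) : vl (x + y) = vl x + vl y := rfl

theorem vl_zero {n : ℕ} : vl (0 : XN L G r n) = 0 := rfl

theorem vl_zsmul {n : ℕ} (m : ℤ) (x : XN L G r n) : vl (m • x) = m • vl x := rfl

theorem vl_smul {n : ℕ} (k : L × G) (m : ℤ) (x : XN L G r n) :
    vl (MonoidAlgebra.single k m • x) = m • act k (vl x) := by
  have h : (MonoidAlgebra.lift ℤ (Module.End ℤ (XS L (MonoidAlgebra ℤ G) r n)) (L × G) (xnRep (r := r) n))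
      (MonoidAlgebra.single k m) = m • (xnRep (L := L) (G := G) (r := r) n k) := MonoidAlgebra.lift_single _ _ _
  change (((MonoidAlgebra.lift ℤ (Module.End ℤ (XS L (MonoidAlgebra ℤ G) r n)) (L × G) (xnRep n))
    (MonoidAlgebra.single k m)) (show XS L (MonoidAlgebra ℤ G) r n from x) : XS L (MonoidAlgebra ℤ G) r n).1 = _
  rw [h]
  rfl

/-- linearity over the group ring -/
def mkL {K M N : Type} [Group K] [AddCommGroup M] [Module (MonoidAlgebra ℤ K) M] [AddCommGroup N]
    [Module (MonoidAlgebra ℤ K) N] (f : M →+ N)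
    (h : ∀ (g : K) (m : ℤ) (x : M), f (MonoidAlgebra.single g m • x) = MonoidAlgebra.single g m • f x) :
    M →ₗ[MonoidAlgebra ℤ K] N where
  toFun := f
  map_add' := f.map_add
  map_smul' a x := by
    rw [RingHom.id_apply]
    induction a using MonoidAlgebra.induction_linear with
    | zero => rw [zero_smul, zero_smul, map_zero]
    | add a b ha hb => rw [add_smul, add_smul, map_add, ha, hb]
    | single g m => exact h g m x

/-- the differential -/
def dX (D : ∀ n, Matrix (Fin (r (n + 1))) (Fin (r n)) (MonoidAlgebra ℤ G)) (n : ℕ) :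
    XN L G r (n + 1) →ₗ[MonoidAlgebra ℤ (L × G)] XN L G r n :=
  mkL { toFun := fun x => xk (TT D ((-1) ^ (n + 1)) n (vl x)) (TT_mem D _ (vl_mem x))
        map_zero' := vl_ext (by
          change TT D ((-1) ^ (n + 1)) n (vl (0 : XN L G r (n + 1))) = 0
          rw [vl_zero, map_zero])
        map_add' := fun x y => vl_ext (by
          change TT D ((-1) ^ (n + 1)) n (vl (x + y)) = TT D ((-1) ^ (n + 1)) n (vl x) + TT D ((-1) ^ (n + 1)) n (vl y)
          rw [vl_add, map_add]) } (by
    intro k m x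
    apply vl_ext
    rw [vl_smul]
    change TT D ((-1) ^ (n + 1)) n (vl (MonoidAlgebra.single k m • x)) = m • act k (TT D ((-1) ^ (n + 1)) n (vl x))
    rw [vl_smul, map_zsmul, act_TT])

theorem vl_dX (D : ∀ n, Matrix (Fin (r (n + 1))) (Fin (r n)) (MonoidAlgebra ℤ G)) (n : ℕ) (x : XN L G r (n + 1)) :
    vl (dX D n x) = TT D ((-1) ^ (n + 1)) n (vl x) := rfl

/-- the basis -/
def bas (n q : ℕ) (i : Fin (r q)) (l : List L) : XN L G r n :=
  open scoped Classical in
  if h : q ≤ n ∧ l.length = n + 1 - q then xk (em q i (Finsupp.single l 1)) (em_mem h.1 i (single_mem_dg _ _ h.2)) else 0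

theorem vl_bas {n q : ℕ} (i : Fin (r q)) (l : List L) (h : q ≤ n ∧ l.length = n + 1 - q) :
    vl (bas n q i l : XN L G r n) = em q i (Finsupp.single l 1) := by
  unfold bas
  rw [dif_pos h]
  rfl

theorem XN_ind {n : ℕ} {P : XN L G r n → Prop} (h0 : P 0) (hadd : ∀ x y, P x → P y → P (x + y))
    (hg : ∀ (q : ℕ) (i : Fin (r q)) (l : List L) (g : G) (m : ℤ), q ≤ n → l.length = n + 1 - q →
      P (MonoidAlgebra.single ((1 : L), g) m • bas n q i l)) (x : XN L G r n) : P x := by
  have key : ∀ (w : FM L (MonoidAlgebra ℤ G) r)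
      (_ : w ∈ Submodule.span (MonoidAlgebra ℤ G) (gens L (MonoidAlgebra ℤ G) r n)),
      ∃ hw : w ∈ XS L (MonoidAlgebra ℤ G) r n, P (xk w hw) := by
    intro w hw
    refine Submodule.closure_induction (p := fun w _ => ∃ hw : w ∈ XS L (MonoidAlgebra ℤ G) r n, P (xk w hw))
      ?_ ?_ ?_ hw
    · exact ⟨Submodule.zero_mem _, h0⟩
    · rintro x y _ _ ⟨hx, hx'⟩ ⟨hy, hy'⟩
      exact ⟨Submodule.add_mem _ hx hy, hadd _ _ hx' hy'⟩
    · rintro a _ ⟨q, i, l, hq, hl, rfl⟩
      have hm : em q i (Finsupp.single l (1 : MonoidAlgebra ℤ G)) ∈ XS L (MonoidAlgebra ℤ G) r n :=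
        em_mem hq i (single_mem_dg _ _ hl)
      refine ⟨Submodule.smul_mem _ a hm, ?_⟩
      induction a using MonoidAlgebra.induction_linear with
      | zero =>
        have e : xk ((0 : MonoidAlgebra ℤ G) • em q i (Finsupp.single l 1)) (Submodule.smul_mem _ _ hm) =
            (0 : XN L G r n) := vl_ext (zero_smul _ _)
        rw [e]
        exact h0
      | add a b ha hb =>
        have e : xk ((a + b) • em q i (Finsupp.single l 1)) (Submodule.smul_mem _ _ hm) =
            (xk (a • em q i (Finsupp.single l 1)) (Submodule.smul_mem _ _ hm) +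
              xk (b • em q i (Finsupp.single l 1)) (Submodule.smul_mem _ _ hm) : XN L G r n) :=
          vl_ext (add_smul _ _ _)
        rw [e]
        exact hadd _ _ ha hb
      | single g m =>
        have e : xk (MonoidAlgebra.single g m • em q i (Finsupp.single l 1)) (Submodule.smul_mem _ _ hm) =
            (MonoidAlgebra.single ((1 : L), g) m • bas n q i l : XN L G r n) := by
          apply vl_ext
          rw [vl_smul, vl_bas i l ⟨hq, hl⟩, act_em, ga_single]
          change MonoidAlgebra.single g m • em q i (Finsupp.single l 1) = _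
          have h1 : l.map ((1 : L) * ·) = l := by simp
          rw [h1, mul_one, ← map_smul, ← map_zsmul, Finsupp.smul_single, Finsupp.smul_single, smul_eq_mul, mul_one,
            MonoidAlgebra.smul_single, smul_eq_mul, mul_one]
        rw [e]
        exact hg q i l g m hq hl
  obtain ⟨hw, hP⟩ := key (vl x) (XS_span (vl_mem x))
  exact hP

/-! ### projectivity -/

/-- additive maps on chains -/
def bl {M : Type} [AddCommGroup M] (F : List L → G → M) : XM L (MonoidAlgebra ℤ G) →+ M :=
  Finsupp.liftAddHom fun l => (Finsupp.liftAddHom fun g => (smulAddHom ℤ M).flip (F l g)).comp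
    MonoidAlgebra.coeffAddEquiv.toAddMonoidHom

theorem bl_single {M : Type} [AddCommGroup M] (F : List L → G → M) (l : List L) (g : G) (m : ℤ) :
    bl F (Finsupp.single l (MonoidAlgebra.single g m)) = m • F l g := by
  unfold bl
  rw [Finsupp.liftAddHom_apply_single]
  change (Finsupp.liftAddHom fun g => (smulAddHom ℤ M).flip (F l g)) (Finsupp.single g m) = _
  rw [Finsupp.liftAddHom_apply_single]
  rfl

/-- the section -/
def sec0 (n : ℕ) : FM L (MonoidAlgebra ℤ G) r →+ (XN L G r n →₀ MonoidAlgebra ℤ (L × G)) where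
  toFun z := ∑ q ∈ Finset.range (n + 1), ∑ i, bl (fun l g => Finsupp.single
    (bas n q i (l.map ((l.headD 1)⁻¹ * ·)) : XN L G r n) (MonoidAlgebra.single (l.headD 1, g) (1 : ℤ))) (z q i)
  map_zero' := Finset.sum_eq_zero fun _ _ => Finset.sum_eq_zero fun _ _ => map_zero _
  map_add' x y := by
    rw [← Finset.sum_add_distrib]
    refine Finset.sum_congr rfl fun q _ => ?_
    rw [← Finset.sum_add_distrib]
    exact Finset.sum_congr rfl fun i _ => map_add _ _ _

theorem sec0_em (n q : ℕ) (hq : q ≤ n) (i : Fin (r q)) (l : List L) (g : G) (m : ℤ) :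
    sec0 n (em q i (Finsupp.single l (MonoidAlgebra.single g m))) = m • Finsupp.single
    (bas n q i (l.map ((l.headD 1)⁻¹ * ·)) : XN L G r n) (MonoidAlgebra.single (l.headD 1, g) (1 : ℤ)) := by
  change ∑ q' ∈ Finset.range (n + 1), ∑ j, bl (fun l g => Finsupp.single
    (bas n q' j (l.map ((l.headD 1)⁻¹ * ·)) : XN L G r n) (MonoidAlgebra.single (l.headD 1, g) (1 : ℤ)))
      (em q i (Finsupp.single l (MonoidAlgebra.single g m)) q' j) = _
  rw [Finset.sum_eq_single q]
  · rw [Finset.sum_eq_single i]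
    · rw [em_same, bl_single]
    · intro j _ hj
      rw [em_ne_i _ _ _ _ hj, map_zero]
    · intro h
      exact absurd (Finset.mem_univ _) h
  · intro q' _ hq'
    refine Finset.sum_eq_zero fun j _ => ?_
    rw [em_ne_q _ _ _ _ _ hq', map_zero]
  · intro h
    exact absurd (Finset.mem_range.mpr (Nat.lt_succ_of_le hq)) h

theorem vl_gen {n q : ℕ} (i : Fin (r q)) (l : List L) (h : q ≤ n ∧ l.length = n + 1 - q) (k : L × G) (m : ℤ) :
    vl (MonoidAlgebra.single k m • bas n q i l : XN L G r n) =
      em q i (Finsupp.single (l.map (k.1 * ·)) (MonoidAlgebra.single k.2 m)) := by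
  rw [vl_smul, vl_bas i l h, act_em, ga_single, mul_one, ← map_zsmul, Finsupp.smul_single, MonoidAlgebra.smul_single,
    smul_eq_mul, mul_one]

theorem sec0_smul {n : ℕ} (k : L × G) (m : ℤ) (x : XN L G r n) :
    sec0 n (vl (MonoidAlgebra.single k m • x)) = MonoidAlgebra.single k m • sec0 n (vl x) := by
  induction x using XN_ind with
  | h0 => rw [smul_zero, vl_zero, map_zero, smul_zero]
  | hadd x y hx hy => rw [smul_add, vl_add, vl_add, map_add, map_add, smul_add, hx, hy]
  | hg q i l g m' hq hl =>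
    rw [smul_smul, MonoidAlgebra.single_mul_single, vl_gen i l ⟨hq, hl⟩, vl_gen i l ⟨hq, hl⟩, sec0_em n q hq,
      sec0_em n q hq]
    obtain ⟨a, l', rfl⟩ := List.exists_cons_of_ne_nil (l := l) (by rintro rfl; simp at hl; omega)
    have e1 : ∀ b : L, ((a :: l').map (b * ·)).headD 1 = b * a := fun _ => rfl
    rw [e1, e1, List.map_map, List.map_map]
    have e2 : ∀ b : L, (fun x => (b * a)⁻¹ * x) ∘ (fun x => b * x) = fun x => a⁻¹ * x := by
      intro b
      funext x
      simp [mul_assoc]
    rw [e2, e2]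
    rw [smul_comm (MonoidAlgebra.single k m) m', Finsupp.smul_single (MonoidAlgebra.single k m), smul_eq_mul,
      MonoidAlgebra.single_mul_single, mul_one]
    rw [Finsupp.smul_single, Finsupp.smul_single, MonoidAlgebra.smul_single, MonoidAlgebra.smul_single, smul_eq_mul,
      smul_eq_mul, mul_one]
    congr 2
    · simp [Prod.ext_iff]
    · ring

theorem xn_proj (n : ℕ) : Module.Projective (MonoidAlgebra ℤ (L × G)) (XN L G r n) := by
  let s : XN L G r n →ₗ[MonoidAlgebra ℤ (L × G)] (XN L G r n →₀ MonoidAlgebra ℤ (L × G)) :=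
    mkL { toFun := fun x => sec0 n (vl x)
          map_zero' := by rw [vl_zero, map_zero]
          map_add' := fun x y => by rw [vl_add, map_add] } (fun k m x => sec0_smul k m x)
  refine ⟨⟨s, ?_⟩⟩
  intro x
  have hs : ∀ y, s y = sec0 n (vl y) := fun _ => rfl
  induction x using XN_ind with
  | h0 => rw [map_zero, map_zero]
  | hadd x y hx hy => rw [map_add, map_add, hx, hy]
  | hg q i l g m hq hl =>
    rw [hs, vl_gen i l ⟨hq, hl⟩, sec0_em n q hq, map_zsmul, Finsupp.linearCombination_single]
    obtain ⟨a, l', rfl⟩ := List.exists_cons_of_ne_nil (l := l) (by rintro rfl; simp at hl; omega)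
    apply vl_ext
    have e1 : ∀ b : L, ((a :: l').map (b * ·)).headD 1 = b * a := fun _ => rfl
    rw [e1, List.map_map, vl_zsmul]
    have e2 : (fun x => ((1 : L) * a)⁻¹ * x) ∘ (fun x => (1 : L) * x) = fun x => a⁻¹ * x := by
      funext x
      simp
    rw [e2]
    change m • vl (MonoidAlgebra.single ((1 : L) * a, g) (1 : ℤ) • bas n q i ((a :: l').map (a⁻¹ * ·)) : XN L G r n) = _
    rw [vl_gen i _ ⟨hq, by rw [List.length_map]; exact hl⟩, vl_gen i _ ⟨hq, hl⟩, List.map_map, ← map_zsmul,
      Finsupp.smul_single, MonoidAlgebra.smul_single, smul_eq_mul, mul_one]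
    congr 2
    apply List.map_congr_left
    intro x _
    simp

end act

end Pool.Agent.H77B.KVT
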