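import Pool.Agent.H77B.KVTb

/-!
# KVT, part C: the resolution
-/

set_option autoImplicit false
set_option linter.unusedSectionVars false

noncomputable section

attribute [local instance] VN831.bcFunctor_additive VN831.viaAdd VN831.viaMod V7N.bcF_additive
  Pool.Agent.H77B.KVT.xnAdd Pool.Agent.H77B.KVT.xnMod

namespace Pool.Agent.H77B.KVT

open CategoryTheory Pool.Agent.H77GP

open scoped TensorProduct

section res

variable {L G : Type} [Group L] [Group G] (C : V7N.FreeRes G)

theorem d_sq (n : ℕ) : C.d (n + 1) * C.d n = 0 := by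
  classical
  refine Matrix.ext fun i j => ?_
  have h := (C.exact_succ n (Matrix.vecMul (Pi.single i 1) (C.d (n + 1)))).2 ⟨_, rfl⟩
  rw [Matrix.vecMul_vecMul] at h
  have h2 := congrFun h j
  rw [Matrix.single_one_vecMul] at h2
  exact h2

theorem xsq (n : ℕ) : ModuleCat.ofHom (dX (L := L) C.d (n + 1)) ≫ ModuleCat.ofHom (dX (L := L) C.d n) = 0 := by
  rw [← ModuleCat.ofHom_comp]
  have : (dX (L := L) C.d n).comp (dX C.d (n + 1)) = 0 := by
    apply LinearMap.ext
    intro x
    apply vl_ext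
    rw [LinearMap.comp_apply, vl_dX, vl_dX]
    exact TT_TT C.d (d_sq C) _ _ (by ring) n (vl x)
  rw [this]
  rfl

/-- the complex -/
def totC (L : Type) [Group L] : ChainComplex (ModuleCat.{0} (MonoidAlgebra ℤ (L × G))) ℕ :=
  ChainComplex.of (fun n => ModuleCat.of (MonoidAlgebra ℤ (L × G)) (XN L G C.r n))
    (fun n => ModuleCat.ofHom (dX C.d n)) (xsq C)

theorem totC_d (n : ℕ) : (totC C L).d (n + 1) n = ModuleCat.ofHom (dX C.d n) :=
  ChainComplex.of_d (fun n => ModuleCat.of (MonoidAlgebra ℤ (L × G)) (XN L G C.r n))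
    (fun n => ModuleCat.ofHom (dX C.d n)) n

theorem ac_dg0 {S : Type} [Ring S] (h : L) {y : XM L S} (hy : y ∈ dg L S 0) : ac (1 : L →* S) h y = y := by
  have e := map_dg (ac (1 : L →* S) h - LinearMap.id) ⊥ (n := 0) (fun l hl => by
    rw [Submodule.mem_bot, LinearMap.sub_apply, LinearMap.id_apply, List.length_eq_zero_iff.mp hl, ac_single]
    simp) hy
  rw [Submodule.mem_bot, LinearMap.sub_apply, LinearMap.id_apply, sub_eq_zero] at e
  exact e

/-- the values at the empty list -/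
def ev0 (x : XN L G C.r 0) : Fin (C.r 0) → MonoidAlgebra ℤ G := fun i => (dd (vl x 0 i)) []

theorem ev0_add (x y : XN L G C.r 0) : ev0 C (x + y) = ev0 C x + ev0 C y := by
  funext i
  change (dd (vl x 0 i + vl y 0 i)) [] = (dd (vl x 0 i)) [] + (dd (vl y 0 i)) []
  rw [map_add]
  rfl

theorem ev0_zero : ev0 C (0 : XN L G C.r 0) = 0 := by
  funext i
  change (dd (0 : XM L (MonoidAlgebra ℤ G))) [] = 0
  rw [map_zero]
  rfl

theorem ev0_smul (k : L × G) (m : ℤ) (x : XN L G C.r 0) :
    ev0 C (MonoidAlgebra.single k m • x) = m • fun i => MonoidAlgebra.single k.2 (1 : ℤ) * ev0 C x i := by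
  funext i
  change (dd (vl (MonoidAlgebra.single k m • x) 0 i)) [] = m • (MonoidAlgebra.single k.2 (1 : ℤ) * (dd (vl x 0 i)) [])
  rw [vl_smul]
  change (dd (m • ga k (vl x 0 i))) [] = _
  rw [map_zsmul, ga_dd, ga_apply, ac_dg0 k.1 (dd_dg ((vl_mem x 0 i).1 le_rfl))]
  rfl

/-- the augmentation -/
def augX : XN L G C.r 0 →ₗ[MonoidAlgebra ℤ (L × G)] V7N.trivG (L × G) :=
  mkL { toFun := fun x => (show ℤ from C.ε (ev0 C x))
        map_zero' := by
          change C.ε (ev0 C 0) = (0 : ℤ)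
          rw [ev0_zero, map_zero]
        map_add' := fun x y => by
          change C.ε (ev0 C (x + y)) = C.ε (ev0 C x) + C.ε (ev0 C y)
          rw [ev0_add, map_add] } (by
    intro k m x
    change C.ε (ev0 C (MonoidAlgebra.single k m • x)) = V7N.augG (L × G) (MonoidAlgebra.single k m) * C.ε (ev0 C x)
    rw [augG_single, ev0_smul, map_zsmul, C.ε_smul, smul_eq_mul])

theorem augX_apply (x : XN L G C.r 0) : augX C x = (show ℤ from C.ε (ev0 C x)) := rfl

theorem w0_mem {S : Type} [Ring S] {r : ℕ → ℕ} (s' : ℤ) (N : ℕ) (b : Fin (r N) → S) :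
    (w0 s' N b : FM L S r) ∈ XS L S r N :=
  Submodule.sum_mem _ fun i _ => em_mem le_rfl i (Submodule.smul_of_tower_mem _ s' (single_mem_dg _ _ (by simp)))

theorem dd_one {S : Type} [Ring S] (a : S) : dd (Finsupp.single [(1 : L)] a) = Finsupp.single [] a := by
  rw [dd_single]
  have h3 : dl S [(1 : L)] = Finsupp.single [] 1 := by
    rw [dl_cons]
    have : dl S ([] : List L) = 0 := rfl
    rw [this, map_zero, sub_zero]
  rw [h3, Finsupp.smul_single, smul_eq_mul, mul_one]

theorem of_dg0 {S : Type} [Ring S] {y : XM L S} (hy : y ∈ dg L S 0) : y = Finsupp.single [] (y []) := by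
  classical
  ext l
  by_cases hl : l = []
  · subst hl
    rw [Finsupp.single_eq_same]
  · rw [Finsupp.single_eq_of_ne hl]
    by_contra h2
    have h3 : l ∈ y.support := Finsupp.mem_support_iff.mpr h2
    exact hl (List.length_eq_zero_iff.mp (hy h3))

theorem sg (n : ℕ) : ((-1 : ℤ) ^ n) * ((-1 : ℤ) ^ n) = 1 := by
  rw [← mul_pow]
  norm_num

def augXH : ModuleCat.of (MonoidAlgebra ℤ (L × G)) (XN L G C.r 0) ⟶ V7N.trivG (L × G) :=
  ModuleCat.ofHom (X := XN L G C.r 0) (Y := V7N.trivG (L × G)) (augX C)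

theorem tot_res : ∃ P : ProjectiveResolution (V7N.trivG (L × G)), P.complex = totC C L := by
  refine V7N.gen_res (fun n => ModuleCat.of (MonoidAlgebra ℤ (L × G)) (XN L G C.r n))
    (fun n => ModuleCat.ofHom (dX C.d n)) (xsq C) (V7N.trivG (L × G)) (augXH C) ?_ ?_ ?_ ?_ ?_
  · intro n
    have := xn_proj (L := L) (G := G) (r := C.r) n
    exact (IsProjective.iff_projective _).mp this
  · ext1
    apply LinearMap.ext
    intro x
    change augX C (dX C.d 0 x) = 0
    rw [augX_apply]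
    change C.ε (ev0 C (dX C.d 0 x)) = 0
    have h1 : ev0 C (dX C.d 0 x) = Matrix.vecMul (fun j => (dd (((-1 : ℤ) ^ (0 + 1)) • vl x 1 j)) []) (C.d 0) := by
      funext i
      change (dd (vl (dX C.d 0 x) 0 i)) [] = _
      rw [vl_dX, TT_apply _ _ _ le_rfl, map_add, dd_dd, zero_add, map_zsmul, xv_dd]
      have h2 : (fun j => dd (vl x (0 + 1) j)) = fun j => (Finsupp.single [] ((dd (vl x 1 j)) []) : XM L (MonoidAlgebra ℤ G)) := by
        funext j
        refine of_dg0 (dd_dg (n := 0) ?_)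
        exact (vl_mem x 1 j).1 le_rfl
      rw [h2, xv_empty]
      have h3 : (fun j => (dd (((-1 : ℤ) ^ (0 + 1)) • vl x 1 j)) []) = ((-1 : ℤ) ^ (0 + 1)) • fun j => (dd (vl x 1 j)) [] := by
        funext j
        rw [map_zsmul]
        rfl
      rw [h3, Matrix.smul_vecMul, Finsupp.smul_apply, Finsupp.single_eq_same]
      rfl
    rw [h1]
    exact (C.exact_zero _).2 ⟨_, rfl⟩
  · intro m
    obtain ⟨v, hv⟩ := C.ε_surj (show ℤ from m)
    refine ⟨xk (w0 1 0 v) (w0_mem 1 0 v), ?_⟩
    change C.ε (ev0 C (xk (w0 1 0 v) (w0_mem 1 0 v))) = (show ℤ from m)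
    have h1 : ev0 C (xk (w0 1 0 v) (w0_mem 1 0 v) : XN L G C.r 0) = v := by
      funext i
      change (dd ((w0 1 0 v : FM L (MonoidAlgebra ℤ G) C.r) 0 i)) [] = v i
      rw [w0_same, one_smul, dd_one, Finsupp.single_eq_same]
    rw [h1, hv]
  · intro x hx
    have hx' : C.ε (ev0 C (show XN L G C.r 0 from x)) = 0 := hx
    obtain ⟨b, hb⟩ := (C.exact_zero _).1 hx'
    obtain ⟨w, hw, hw2⟩ := exact_fam C.d (d_sq C) (-((-1 : ℤ) ^ (0 + 1))) ((-1 : ℤ) ^ (0 + 1)) (by ring) (sg _) 0 b
      (vl_mem (show XN L G C.r 0 from x)) (fun q hq => absurd hq (by omega)) (fun i => by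
        rw [← hb]
        exact of_dg0 (dd_dg (n := 0) ((vl_mem (show XN L G C.r 0 from x) 0 i).1 le_rfl)))
    exact ⟨xk w hw, vl_ext hw2⟩
  · intro n x hx
    have hx1 : dX C.d n (show XN L G C.r (n + 1) from x) = 0 := hx
    have hx' : TT C.d ((-1) ^ (n + 1)) n (vl (show XN L G C.r (n + 1) from x)) = 0 := congrArg vl hx1
    set z := vl (show XN L G C.r (n + 1) from x) with hz
    have hzm : z ∈ XS L (MonoidAlgebra ℤ G) C.r (n + 1) := vl_mem _
    have hT : ∀ q < n + 1, ∀ i, dd (z q i) + ((-1 : ℤ) ^ (n + 1)) • xv (z (q + 1)) (C.d q) i = 0 := by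
      intro q hq i
      have := congrFun (congrFun hx' q) i
      rw [TT_apply _ _ _ (by omega : q ≤ n)] at this
      exact this
    have ha : ∀ j, dd (z (n + 1) j) = Finsupp.single [] ((dd (z (n + 1) j)) []) := fun j => by
      refine of_dg0 (dd_dg (n := 0) ?_)
      have := (hzm (n + 1) j).1 le_rfl
      rw [show n + 1 + 1 - (n + 1) = 0 + 1 by omega] at this
      exact this
    have hv : Matrix.vecMul (fun j => (dd (z (n + 1) j)) []) (C.d n) = 0 := by
      funext i
      have h1 := congrArg (fun y => ((-1 : ℤ) ^ (n + 1)) • dd y) (hT n (by omega) i)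
      simp only [map_add, dd_dd, zero_add, map_zsmul, map_zero, smul_zero, smul_smul, sg, one_smul] at h1
      rw [xv_dd] at h1
      have h2 : (fun j => dd (z (n + 1) j)) = fun j => (Finsupp.single [] ((dd (z (n + 1) j)) []) : XM L (MonoidAlgebra ℤ G)) := by
        funext j
        exact ha j
      rw [h2, xv_empty] at h1
      have h3 := DFunLike.congr_fun h1 []
      rw [Finsupp.single_eq_same] at h3
      exact h3
    obtain ⟨b, hb⟩ := (C.exact_succ n _).1 hv
    obtain ⟨w, hw, hw2⟩ := exact_fam C.d (d_sq C) ((-1 : ℤ) ^ (n + 1)) ((-1 : ℤ) ^ (n + 1 + 1)) (by ring) (sg _) (n + 1) b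
      hzm hT (fun i => by
        rw [← hb]
        exact ha i)
    exact ⟨xk w hw, vl_ext hw2⟩

end res

end Pool.Agent.H77B.KVT
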