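import Pool.Agent.H77B.Geo2
import Pool.Agent.H77B.Ind2
import Pool.Agent.H77GP.Main

/-!
# The strong form of the conjecture passes to graph products
-/

set_option autoImplicit false
set_option linter.unusedSectionVars false

noncomputable section

attribute [local instance] V7N.bcF_additive

namespace Pool.Agent.H77B

open Finset Pool.Agent.H77RA Pool.Agent.H77GP Pool.Agent.H77N Pool.Agent.Helper655.VN Pool.Agent.RK
open scoped Manifold ContDiff

/-- The group `K` has a normal subgroup `N` such that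
* either `N` is of type `FP_∞`, all `L²`-Betti numbers of `N` are zero and `K` is not a torsion group,
* or the center of `N` contains an element of infinite order. -/
def TypeA (K : Type) [Group K] : Prop :=
  ∃ N : Subgroup K, N.Normal ∧
    ((Nonempty (V7N.FreeRes N) ∧ (∀ k, N496.CV.HasL2Betti N k 0) ∧ ∃ z : K, ¬ IsOfFinOrder z) ∨
      ∃ z ∈ N, ¬ IsOfFinOrder z ∧ ∀ n ∈ N, z * n = n * z)

/-- The group `K` is of type `FP_∞`, it is not a torsion group, and for every `i` such that the `i`-th `L²`-Betti number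
of `K` is not zero
* either `K` has an obstructor of dimension `2 i`,
* or `i = 1` and `K` contains elements of infinite order generating cyclic subgroups which meet trivially,
* or `i = 1` and `K` is torsion free. -/
def TypeC (K : Type) [Group K] : Prop :=
  Nonempty (V7N.FreeRes K) ∧ (∃ z : K, ¬ IsOfFinOrder z) ∧
    ∀ i, N496.CV.HasL2Betti K i 0 ∨ Nob K (2 * i) ∨
      (i = 1 ∧ ((∃ x y : K, ¬ IsOfFinOrder x ∧ ¬ IsOfFinOrder y ∧ Subgroup.zpowers x ⊓ Subgroup.zpowers y = ⊥) ∨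
        ∀ g : K, g ≠ 1 → ¬ IsOfFinOrder g))

theorem unit_gi {V : Type} (Γ : SimpleGraph V) (G : V → Type) [∀ v, Group (G v)] {U : Type} [Ring U]
    (ι : NG (GP Γ G) →+* U) (hι : Loc ι) {v : V} {z : G v} (hz : ¬ IsOfFinOrder z) :
    IsUnit (((ι : NG (GP Γ G) →* U).comp canL) (gi Γ G v z) - 1) := by
  have h0 : ¬ IsOfFinOrder (gi Γ G v z) := fun h => hz ((gi_inj Γ G v).isOfFinOrder_iff.mp h)
  have h1 : Nz ((canL (gi Γ G v z) : NG (GP Γ G)) - 1) := nz_canL (injective_pow_iff_not_isOfFinOrder.mpr h0)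
  have h2 := hι.unit _ h1
  rw [map_sub, map_one] at h2
  exact h2

theorem PE_central (hCYC : CYC) {V : Type} (Γ : SimpleGraph V) (G : V → Type) [∀ v, Group (G v)] {U : Type} [Ring U]
    (ι : NG (GP Γ G) →+* U) (hι : Loc ι) {v : V} (N : Subgroup (G v)) {z : G v} (hzN : z ∈ N)
    (hz : ¬ IsOfFinOrder z) (hc : ∀ n ∈ N, z * n = n * z) :
    PE ((ι : NG (GP Γ G) →* U).comp canL) (N.map (gi Γ G v)) := by
  refine hCYC (GP Γ G) U _ _ (gi Γ G v z) ⟨z, hzN, rfl⟩ ?_ (unit_gi Γ G ι hι hz)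
  rintro _ ⟨n, hn, rfl⟩
  have : Commute z n := hc n hn
  exact this.map (gi Γ G v)

/-- **Main theorem**, from the stubs. -/
theorem main2_of (hEQV : EQV) (hSHR : SHR) (hINFP : INFP) (hVANS : VANS) (hCYC : CYC) (hHZR : HZR) (hGRG : GRG)
    (hKVG : KVG) (hKVT : KVT) (hPRD : PRD) (hTRN : TRN) (hDIC : DIC) (hFGR : FGR)
    (hPRO : PRO) (hINJ : INJ) (hVKJ : VKJ) (hRGO : RGO) (hSEPL : SEPL) (hPAO : PAO)
    {V : Type} [Fintype V] (Γ : SimpleGraph V) (G : V → Type) [∀ v, Group (G v)]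
    (hG : ∀ v, TypeA (G v) ∨ TypeC (G v)) (k : ℕ) :
    N496.CV.HasL2Betti (GP Γ G) k 0 ∨ Nob (GP Γ G) (2 * k) := by
  classical
  obtain ⟨o⟩ : Nonempty (LinearOrder V) := ⟨LinearOrder.lift' (Fintype.equivFin V) (Fintype.equivFin V).injective⟩
  by_cases hnob : Nob (GP Γ G) (2 * k)
  · exact Or.inr hnob
  refine Or.inl ?_
  obtain ⟨U, hU, ι, hι⟩ := Pool.Agent.RK.LocEx.loc_exists (vn_NG (G := GP Γ G))
  suffices h0 : VN831.l2Betti (GP Γ G) k = 0 by
    rw [← h0]
    exact N496.CV.hasL2Betti (GP Γ G) k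
  refine l2_zero ι hι k fun x hx hdx => ?_
  set c : GP Γ G →* U := (ι : NG (GP Γ G) →* U).comp canL with hc
  -- the two kinds of vertices
  let P1 : V → Prop := fun v => (∃ N : Subgroup (G v), N.Normal ∧ PE c (N.map (gi Γ G v))) ∧
    ∃ z : G v, ¬ IsOfFinOrder z
  let P2 : V → Prop := fun v => Nonempty (V7N.FreeRes (G v)) ∧ (∃ z : G v, ¬ IsOfFinOrder z) ∧
    ∀ i, VN831.l2Betti (G v) i = 0 ∨ Nob (G v) (2 * i)
  have hP : ∀ v, P1 v ∨ P2 v := by
    intro v
    rcases hG v with ⟨N, hN, (⟨⟨C⟩, hb, z, hz⟩ | ⟨z, hzN, hz, hcz⟩)⟩ | ⟨⟨C⟩, ⟨z, hz⟩, h⟩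
    · refine Or.inl ⟨⟨N, hN, ?_⟩, z, hz⟩
      have h1 := PE_of_l2 ((gi Γ G v).comp N.subtype) ((gi_inj Γ G v).comp N.subtype_injective) ι hι C
        (fun k => l2_of_has C k (hb k))
      have h2 : ((gi Γ G v).comp N.subtype).range = N.map (gi Γ G v) := by
        rw [MonoidHom.range_comp, Subgroup.range_subtype]
      rw [h2] at h1
      exact h1
    · exact Or.inl ⟨⟨N, hN, PE_central hCYC Γ G ι hι N hzN hz hcz⟩, z, hz⟩
    · by_cases htf : ∀ g : G v, g ≠ 1 → ¬ IsOfFinOrder g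
      · have hFG := hFGR (G v) C
        have hnt : Nontrivial (G v) := ⟨z, 1, fun h1 => hz (by rw [h1]; exact IsOfFinOrder.one)⟩
        rcases hDIC (G v) htf with ⟨x, y, hx, hy, hxy⟩ | ⟨w, hw, hcw⟩
        · refine Or.inr ⟨⟨C⟩, ⟨z, hz⟩, fun i => ?_⟩
          rcases h i with h1 | h1 | ⟨rfl, _⟩
          · exact Or.inl (l2_of_has C i h1)
          · exact Or.inr h1
          · exact Or.inr (nob_pair hRGO hPAO (htf x hx) (htf y hy) hxy)
        · exact Or.inl ⟨⟨⊤, inferInstance, PE_central hCYC Γ G ι hι ⊤ trivial (htf w hw) fun n _ => hcw n⟩, z, hz⟩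
      · refine Or.inr ⟨⟨C⟩, ⟨z, hz⟩, fun i => ?_⟩
        rcases h i with h1 | h1 | ⟨rfl, ⟨x, y, hx, hy, hxy⟩ | h1⟩
        · exact Or.inl (l2_of_has C i h1)
        · exact Or.inr h1
        · exact Or.inr (nob_pair hRGO hPAO hx hy hxy)
        · exact absurd h1 htf
  set B : Finset V := univ.filter fun v => ¬ P1 v with hB
  have hBA : ∀ v, v ∉ B → P1 v := by
    intro v hv
    by_contra h
    exact hv (mem_filter.mpr ⟨mem_univ v, h⟩)
  have hBB : ∀ v, v ∈ B → P2 v := by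
    intro v hv
    rcases hP v with h | h
    · exact absurd h (mem_filter.mp hv).2
    · exact h
  have hw : ∀ v, ∃ z : G v, ¬ IsOfFinOrder z := by
    intro v
    rcases hP v with h | h
    · exact h.2
    · exact h.2.1
  choose w hw1 using hw
  have key := ind2 Γ G ι hEQV hSHR hINFP hVANS hCYC hHZR hGRG hKVG hKVT hPRD hι w B
    (fun v hv => (hBA v hv).1) (fun v hv => (hBB v hv).1) (fun v _ => unit_gi Γ G ι hι (hw1 v)) _ B univ k
    subset_rfl rfl (by
      intro J hJ hcl i hi hJk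
      have hJB : J ⊆ B := hJ.trans inter_subset_left
      rw [inter_univ]
      refine RX_of_QEx2 (ι.comp (ratN (GP Γ G))) ?_
      by_contra hQ
      refine hnob (geo2 Γ G hPRO hVKJ hINJ hRGO hSEPL hTRN hPRD w hw1 J hcl i (fun v hv => ?_) k hJk hQ)
      exact ((hBB v (hJB hv)).2.2 (i v)).resolve_left (hi v hv))
  have htop : GsP Γ G (PF2 G w B B) univ = ⊤ := by
    rw [← Gs_univ Γ G, ← GsP_top]
    exact GsP_congr Γ G _ _ fun v _ => PF2_top G _ id
  rw [htop] at key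
  exact key x hx hdx

theorem main3_of (hEQV : EQV) (hSHR : SHR) (hINFP : INFP) (hVANS : VANS) (hCYC : CYC) (hHZR : HZR) (hGRG : GRG)
    (hKVG : KVG) (hKVT : KVT) (hPRD : PRD) (hTRN : TRN) (hDIC : DIC) (hFGR : FGR)
    (hPRO : PRO) (hINJ : INJ) (hVKJ : VKJ) (hRGO : RGO) (hSEPL : SEPL) (hPAO : PAO) (hACT : ACT)
    {V : Type} [Fintype V] (Γ : SimpleGraph V) (G : V → Type) [∀ v, Group (G v)]
    (hG : ∀ v, TypeA (G v) ∨ TypeC (G v)) {E : Type} [NormedAddCommGroup E] [NormedSpace ℝ E]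
    [FiniteDimensional ℝ E] {HH : Type} [TopologicalSpace HH] (I : ModelWithCorners ℝ E HH) {W : Type}
    [TopologicalSpace W] [T2Space W] [ChartedSpace HH W] [ContractibleSpace W]
    [MulAction (GP Γ G) W] [ContinuousConstSMul (GP Γ G) W] [ProperlyDiscontinuousSMul (GP Γ G) W]
    {k : ℕ} (hk : Module.finrank ℝ E < 2 * k) : N496.CV.HasL2Betti (GP Γ G) k 0 := by
  refine (main2_of hEQV hSHR hINFP hVANS hCYC hHZR hGRG hKVG hKVT hPRD hTRN hDIC hFGR hPRO hINJ hVKJ hRGO hSEPL hPAO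
    Γ G hG k).resolve_right fun h => ?_
  have := nob_act hACT h I (W := W)
  omega

end Pool.Agent.H77B
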