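import Pool.Agent.H77B.Stm

/-!
# Stub SEPB of project GB: separation
-/

set_option autoImplicit false
set_option linter.unusedSectionVars false

noncomputable section

namespace Pool.Agent.H77B.SEPB

open Finset Pool.Agent.H77RA Pool.Agent.H77GP Pool.Agent.W326.DU

theorem pow_inj {K : Type} [Group K] {x y : K} (hx : ¬ IsOfFinOrder x) (hy : ¬ IsOfFinOrder y)
    (h : Subgroup.zpowers x ⊓ Subgroup.zpowers y = ⊥) :
    Function.Injective (fun p : ℤ × ℤ => x ^ p.1 * y ^ p.2) := by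
  have ix := injective_zpow_iff_not_isOfFinOrder.mpr hx
  have iy := injective_zpow_iff_not_isOfFinOrder.mpr hy
  rintro ⟨n, m⟩ ⟨n', m'⟩ he
  simp only at he
  have h1 : x ^ (n - n') = y ^ (m' - m) := by
    have h2 : x ^ (-n') * (x ^ n * y ^ m) * y ^ (-m) = x ^ (-n') * (x ^ n' * y ^ m') * y ^ (-m) := by rw [he]
    have h3 : x ^ (-n') * (x ^ n * y ^ m) * y ^ (-m) = x ^ (n - n') := by
      rw [← mul_assoc, ← zpow_add, mul_assoc, ← zpow_add, add_neg_cancel, zpow_zero, mul_one]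
      congr 1
      ring
    have h4 : x ^ (-n') * (x ^ n' * y ^ m') * y ^ (-m) = y ^ (m' - m) := by
      rw [← mul_assoc, ← zpow_add, mul_assoc, ← zpow_add, neg_add_cancel, zpow_zero, one_mul]
      congr 1
    rw [← h3, h2, h4]
  have h5 : x ^ (n - n') ∈ Subgroup.zpowers x ⊓ Subgroup.zpowers y :=
    ⟨Subgroup.mem_zpowers_iff.mpr ⟨_, rfl⟩, Subgroup.mem_zpowers_iff.mpr ⟨_, h1.symm⟩⟩
  rw [h, Subgroup.mem_bot] at h5
  have h6 : n - n' = 0 := ix (by
    change x ^ (n - n') = x ^ (0 : ℤ)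
    rw [h5, zpow_zero])
  have h7 : m' - m = 0 := iy (by
    change y ^ (m' - m) = y ^ (0 : ℤ)
    rw [← h1, h5, zpow_zero])
  ext
  · simp only; omega
  · simp only; omega

theorem fin_bd {N : Set ℤ} (h : N.Finite) : ∃ C : ℕ, ∀ n ∈ N, |n| ≤ C := by
  refine ⟨h.toFinset.sup Int.natAbs, fun n hn => ?_⟩
  have h2 : n.natAbs ≤ h.toFinset.sup Int.natAbs :=
    Finset.le_sup (f := Int.natAbs) (h.mem_toFinset.mpr hn)
  rw [Int.abs_eq_natAbs]
  exact_mod_cast h2

/-- the bound for one vertex -/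
theorem fin3 {K : Type} [Group K] (x y : K) (P : Prop) (hx : ¬ IsOfFinOrder x)
    (hy : P → ¬ IsOfFinOrder y ∧ Subgroup.zpowers x ⊓ Subgroup.zpowers y = ⊥) {T : Set K} (hT : T.Finite) :
    ∃ C : ℕ, (∀ n : ℤ, x ^ n ∈ T → |n| ≤ C) ∧
      (P → ∀ n m : ℤ, x ^ n * y ^ m ∈ T → |n| ≤ C) ∧ (P → ∀ n m : ℤ, y ^ m * x ^ n ∈ T → |n| ≤ C) := by
  have ix := injective_zpow_iff_not_isOfFinOrder.mpr hx
  obtain ⟨C1, h1⟩ := fin_bd (hT.preimage (f := fun n : ℤ => x ^ n) ix.injOn)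
  by_cases hP : P
  · obtain ⟨hy1, hy2⟩ := hy hP
    have i2 := pow_inj hx hy1 hy2
    have i3 := pow_inj hy1 hx (by rw [inf_comm]; exact hy2)
    obtain ⟨C2, h2⟩ := fin_bd ((hT.preimage (f := fun p : ℤ × ℤ => x ^ p.1 * y ^ p.2) i2.injOn).image Prod.fst)
    obtain ⟨C3, h3⟩ := fin_bd ((hT.preimage (f := fun p : ℤ × ℤ => y ^ p.1 * x ^ p.2) i3.injOn).image Prod.snd)
    refine ⟨max C1 (max C2 C3), fun n hn => ?_, fun _ n m hn => ?_, fun _ n m hn => ?_⟩
    · exact (h1 n hn).trans (by exact_mod_cast le_max_left _ _)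
    · exact (h2 n ⟨(n, m), hn, rfl⟩).trans (by exact_mod_cast (le_max_left _ _).trans (le_max_right _ _))
    · exact (h3 n ⟨(m, n), hn, rfl⟩).trans (by exact_mod_cast (le_max_right _ _).trans (le_max_right _ _))
  · exact ⟨C1, h1, fun h => absurd h hP, fun h => absurd h hP⟩

theorem t : Pool.Agent.H77B.SEPB := by
  intro V _ _ Γ G _ w S hfo hin
  classical
  let z : ∀ p : {p // p ∈ S}, G (ofLex p.1).1 := fun p => w (ofLex p.1).1 (ofLex p.1).2
  let ρ : RAAG ((G2 Γ).comap (fun p : {p // p ∈ S} => p.1)).Adj →* GP Γ G :=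
    PresentedGroup.toGroup (f := fun p => gi Γ G (ofLex p.1).1 (z p)) (by
      rintro r ⟨a, b, h, rfl⟩
      simp only [map_mul, map_inv, FreeGroup.lift_apply_of]
      have h' : Γ.Adj (ofLex a.1).1 (ofLex b.1).1 := h
      rw [(gi_comm Γ G h' (z a) (z b)).eq]
      group)
  have ρgen : ∀ p : {p // p ∈ S},
      ρ (gen ((G2 Γ).comap (fun p : {p // p ∈ S} => p.1)).Adj p) = gi Γ G (ofLex p.1).1 (z p) :=
    fun p => PresentedGroup.toGroup.of _
  -- the components of the image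
  have key : ∀ (a : {p // p ∈ S} → ℤ) (v : V) (b : Bool) (hb : toLex (v, b) ∈ S),
      (∀ hc : toLex (v, !b) ∈ S, a ⟨_, hc⟩ = 0) →
      gpi Γ G (ρ (gL ((G2 Γ).comap (fun p : {p // p ∈ S} => p.1)) a)) v = w v b ^ a ⟨_, hb⟩ := by
    intro a v b hb h0
    unfold gL
    rw [map_list_prod, map_list_prod, List.map_map, List.map_map]
    have hl : ∀ l : List (∀ v, G v), (l.prod) v = (l.map (fun x => x v)).prod := by
      intro l
      exact map_list_prod (Pi.evalMonoidHom G v) l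
    rw [hl, List.map_map]
    rw [List.prod_map_eq_pow_single (⟨toLex (v, b), hb⟩ : {p // p ∈ S})]
    · have hcnt := @List.count_eq_one_of_mem {p // p ∈ S} instBEqOfDecidableEq _ (⟨toLex (v, b), hb⟩) _
        (nodup_toList univ) (mem_toList.mpr (mem_univ _))
      rw [hcnt, pow_one]
      simp only [Function.comp_apply, map_zpow, ρgen, gpi_gi, Pi.pow_apply]
      congr 1
      exact Pi.mulSingle_eq_same v (w v b)
    · rintro ⟨q, hq⟩ hne _
      simp only [Function.comp_apply, map_zpow, ρgen, gpi_gi, Pi.pow_apply]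
      by_cases hv : (ofLex q).1 = v
      · have hq2 : (ofLex q).2 = !b := by
          rcases h3 : (ofLex q).2 with _ | _ <;> rcases b with _ | _
          · exact absurd (Subtype.ext (show q = toLex (v, false) by rw [← hv, ← h3]; rfl)) hne
          · rfl
          · rfl
          · exact absurd (Subtype.ext (show q = toLex (v, true) by rw [← hv, ← h3]; rfl)) hne
        have hq3 : q = toLex (v, !b) := by rw [← hv, ← hq2]; rfl
        subst hq3
        rw [h0 hq, zpow_zero]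
      · rw [Pi.mulSingle_eq_of_ne (fun h => hv h.symm), one_zpow]
  refine ⟨ρ, ?_⟩
  intro T hT
  -- the bound for one vertex
  have hbd : ∀ p : {p // p ∈ S}, ∃ C : ℕ,
      (∀ n : ℤ, w (ofLex p.1).1 (ofLex p.1).2 ^ n ∈ (fun t => gpi Γ G t (ofLex p.1).1) '' T → |n| ≤ C) ∧
      (toLex ((ofLex p.1).1, !(ofLex p.1).2) ∈ S → ∀ n m : ℤ, w (ofLex p.1).1 (ofLex p.1).2 ^ n *
        w (ofLex p.1).1 (!(ofLex p.1).2) ^ m ∈ (fun t => gpi Γ G t (ofLex p.1).1) '' T → |n| ≤ C) ∧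
      (toLex ((ofLex p.1).1, !(ofLex p.1).2) ∈ S → ∀ n m : ℤ, w (ofLex p.1).1 (!(ofLex p.1).2) ^ m *
        w (ofLex p.1).1 (ofLex p.1).2 ^ n ∈ (fun t => gpi Γ G t (ofLex p.1).1) '' T → |n| ≤ C) := by
    rintro ⟨p, hp⟩
    refine fin3 _ _ _ (hfo p hp) ?_ (hT.image _)
    intro hc
    refine ⟨hfo _ hc, ?_⟩
    rcases h3 : (ofLex p).2 with _ | _
    · simp only [h3] at hc
      exact hin _ (by rw [← h3]; exact hp) hc
    · simp only [h3] at hc
      rw [inf_comm]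
      exact hin _ hc (by rw [← h3]; exact hp)
  choose C hC using hbd
  refine ⟨univ.sup C, ?_⟩
  intro a a' ha ha' hmem p
  suffices h : |a' p - a p| ≤ C p from h.trans (by exact_mod_cast Finset.le_sup (f := C) (mem_univ p))
  obtain ⟨c1, c2, c3⟩ := hC p
  obtain ⟨p, hp⟩ := p
  obtain ⟨⟨v, b⟩, rfl⟩ := toLex.surjective p
  have hval : ∀ a : {p // p ∈ S} → ℤ,
      ((G2 Γ).comap (fun p : {p // p ∈ S} => p.1)).IsClique {p | a p ≠ 0} →
      gpi Γ G (ρ (gL ((G2 Γ).comap (fun p : {p // p ∈ S} => p.1)) a)) v = w v b ^ a ⟨toLex (v, b), hp⟩ ∨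
      ∃ hc : toLex (v, !b) ∈ S, a ⟨toLex (v, b), hp⟩ = 0 ∧
        gpi Γ G (ρ (gL ((G2 Γ).comap (fun p : {p // p ∈ S} => p.1)) a)) v = w v (!b) ^ a ⟨toLex (v, !b), hc⟩ := by
    intro a ha
    by_cases h0 : ∀ hc : toLex (v, !b) ∈ S, a ⟨_, hc⟩ = 0
    · exact Or.inl (key a v b hp h0)
    · push Not at h0
      obtain ⟨hc, h0⟩ := h0
      have h1 : a ⟨toLex (v, b), hp⟩ = 0 := by
        by_contra h1
        have h2 : ((G2 Γ).comap (fun p : {p // p ∈ S} => p.1)).Adj ⟨toLex (v, b), hp⟩ ⟨toLex (v, !b), hc⟩ := by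
          refine ha h1 h0 fun h => ?_
          have h3 := congrArg (fun q : {p // p ∈ S} => (ofLex q.1).2) h
          simp at h3
        have h3 : Γ.Adj v v := h2
        exact Γ.irrefl h3
      refine Or.inr ⟨hc, h1, key a v (!b) hc ?_⟩
      intro hc'
      have : (⟨toLex (v, !(!b)), hc'⟩ : {p // p ∈ S}) = ⟨toLex (v, b), hp⟩ := by
        apply Subtype.ext
        simp
      rw [this, h1]
  have hT' : ∀ x x' : G v, gpi Γ G (ρ (gL ((G2 Γ).comap (fun p : {p // p ∈ S} => p.1)) a)) v = x →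
      gpi Γ G (ρ (gL ((G2 Γ).comap (fun p : {p // p ∈ S} => p.1)) a')) v = x' →
      x⁻¹ * x' ∈ (fun t => gpi Γ G t v) '' T := by
    rintro x x' rfl rfl
    refine ⟨_, hmem, ?_⟩
    simp only [map_mul, map_inv, Pi.mul_apply, Pi.inv_apply]
  rcases hval a ha with h1 | ⟨hc, h0, h1⟩ <;> rcases hval a' ha' with h2 | ⟨hc', h0', h2⟩
  · have h3 := hT' _ _ h1 h2
    rw [← zpow_neg, ← zpow_add] at h3
    have h4 := c1 _ h3
    rwa [neg_add_eq_sub] at h4
  · have h3 := hT' _ _ h1 h2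
    rw [← zpow_neg] at h3
    have h4 := c2 hc' _ _ h3
    rw [h0', zero_sub]
    exact h4
  · have h3 := hT' _ _ h1 h2
    rw [← zpow_neg] at h3
    have h4 := c3 hc _ _ h3
    rw [h0, sub_zero]
    exact h4
  · rw [h0, h0', sub_zero, abs_zero]
    exact_mod_cast Nat.zero_le _

end Pool.Agent.H77B.SEPB
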