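import Pool.Agent.H77B.Stm2
import Pool.Agent.H77B.SEPB

/-!
# Stub PAO of project GB: two elements of infinite order
-/

set_option autoImplicit false
set_option linter.unusedSectionVars false

noncomputable section

namespace Pool.Agent.H77B.PAO

open Finset Pool.Agent.H77RA Pool.Agent.H77GP Pool.Agent.W326.DU Pool.Agent.H77B.SEPB

theorem t : Pool.Agent.H77B.PAO := by
  intro H _ x y hx hy hxy
  classical
  let w : Bool → H := fun b => if b then x else y
  let ρ : RAAG (⊥ : SimpleGraph Bool).Adj →* H :=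
    PresentedGroup.toGroup (f := w) (by
      rintro r ⟨a, b, h, rfl⟩
      exact absurd h (by simp))
  have ρgen : ∀ b : Bool, ρ (gen (⊥ : SimpleGraph Bool).Adj b) = w b := fun b => PresentedGroup.toGroup.of _
  have hw : ∀ b, ¬ IsOfFinOrder (w b) := by
    intro b
    rcases b with _ | _
    · exact hy
    · exact hx
  have hww : ∀ b, Subgroup.zpowers (w b) ⊓ Subgroup.zpowers (w !b) = ⊥ := by
    intro b
    rcases b with _ | _
    · rw [inf_comm]; exact hxy
    · exact hxy
  have key : ∀ (a : Bool → ℤ) (b : Bool), a (!b) = 0 → ρ (gL (⊥ : SimpleGraph Bool) a) = w b ^ a b := by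
    intro a b h0
    unfold gL
    rw [map_list_prod, List.map_map]
    rw [List.prod_map_eq_pow_single b]
    · have hcnt := @List.count_eq_one_of_mem Bool instBEqOfDecidableEq _ b _
        (nodup_toList univ) (mem_toList.mpr (mem_univ _))
      rw [hcnt, pow_one]
      simp only [Function.comp_apply, map_zpow, ρgen]
    · intro v hne _
      have hv : v = !b := by
        rcases v with _ | _ <;> rcases b with _ | _ <;> simp_all
      simp only [Function.comp_apply, map_zpow, ρgen]
      rw [hv, h0, zpow_zero]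
  refine ⟨ρ, ?_⟩
  intro T hT
  have hbd : ∀ b : Bool, ∃ C : ℕ, (∀ n : ℤ, w b ^ n ∈ T → |n| ≤ C) ∧
      (True → ∀ n m : ℤ, w b ^ n * w (!b) ^ m ∈ T → |n| ≤ C) ∧
      (True → ∀ n m : ℤ, w (!b) ^ m * w b ^ n ∈ T → |n| ≤ C) := fun b =>
    fin3 (w b) (w !b) True (hw b) (fun _ => ⟨hw _, hww b⟩) hT
  choose C hC using hbd
  refine ⟨univ.sup C, ?_⟩
  intro a a' ha ha' hmem b
  suffices h : |a' b - a b| ≤ C b from h.trans (by exact_mod_cast Finset.le_sup (f := C) (mem_univ b))
  obtain ⟨c1, c2, c3⟩ := hC b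
  have hval : ∀ a : Bool → ℤ, (⊥ : SimpleGraph Bool).IsClique {v | a v ≠ 0} →
      ρ (gL (⊥ : SimpleGraph Bool) a) = w b ^ a b ∨
      (a b = 0 ∧ ρ (gL (⊥ : SimpleGraph Bool) a) = w (!b) ^ a (!b)) := by
    intro a ha
    by_cases h0 : a (!b) = 0
    · exact Or.inl (key a b h0)
    · have h1 : a b = 0 := by
        by_contra h1
        have h2 := ha (x := b) h1 (y := !b) h0 (by simp)
        simp at h2
      refine Or.inr ⟨h1, key a (!b) ?_⟩
      rw [Bool.not_not, h1]
  rw [map_mul, map_inv] at hmem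
  rcases hval a ha with h1 | ⟨h0, h1⟩ <;> rcases hval a' ha' with h2 | ⟨h0', h2⟩
  · rw [h1, h2, ← zpow_neg, ← zpow_add] at hmem
    have h4 := c1 _ hmem
    rwa [neg_add_eq_sub] at h4
  · rw [h1, h2, ← zpow_neg] at hmem
    have h4 := c2 trivial _ _ hmem
    rw [abs_neg] at h4
    rw [h0', zero_sub, abs_neg]
    exact h4
  · rw [h1, h2, ← zpow_neg] at hmem
    have h4 := c3 trivial _ _ hmem
    rw [h0, sub_zero]
    exact h4
  · rw [h0, h0', sub_zero, abs_zero]
    exact_mod_cast Nat.zero_le _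

end Pool.Agent.H77B.PAO
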