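import Pool.Agent.H77B.Stm

set_option autoImplicit false
set_option linter.unusedSectionVars false

noncomputable section

namespace Pool.Agent.H77B.PRD

open Finset Pool.Agent.H77RA Pool.Agent.H77GP Pool.Agent.H77B

theorem t : Pool.Agent.H77B.PRD := by
  intro V _ Γ G _ P L v hL hP
  have hvL : v ∉ L := fun h => (Γ.ne_of_adj (hL v h)) rfl
  have hcomm : ∀ (l : GsP Γ G P L) (g : G v), Commute ((GsP Γ G P L).subtype l) (gi Γ G v g) := by
    rintro ⟨l, hl⟩ g
    change Commute l (gi Γ G v g)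
    have : GsP Γ G P L ≤ Subgroup.centralizer {gi Γ G v g} := by
      refine GsP_le Γ G P fun u hu a _ => ?_
      rw [Subgroup.mem_centralizer_singleton_iff]
      exact (gi_comm Γ G (hL u hu) a g).eq
    have h1 := this hl
    rw [Subgroup.mem_centralizer_singleton_iff] at h1
    exact h1
  refine ⟨MonoidHom.noncommCoprod (GsP Γ G P L).subtype (gi Γ G v) hcomm, ?_, ?_, ?_, ?_⟩
  · rw [injective_iff_map_eq_one]
    rintro ⟨⟨l, hl⟩, g⟩ h
    rw [MonoidHom.noncommCoprod_apply] at h
    change l * gi Γ G v g = 1 at h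
    have h1 := congrArg (rho Γ G L) h
    rw [map_mul, map_one, rho_fix Γ G (GsP_le_Gs Γ G P L hl), rho_out Γ G hvL, mul_one] at h1
    subst h1
    rw [one_mul] at h
    have h2 : g = 1 := gi_inj Γ G v (by rw [h, map_one])
    subst h2
    rfl
  · apply le_antisymm
    · rintro _ ⟨⟨⟨l, hl⟩, g⟩, rfl⟩
      rw [MonoidHom.noncommCoprod_apply]
      exact Subgroup.mul_mem _ (GsP_mono Γ G P (Finset.subset_insert v L) hl)
        (gsp_mem Γ G P (Finset.mem_insert_self v L) (by rw [hP]; exact Subgroup.mem_top _))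
    · refine GsP_le Γ G P fun u hu a ha => ?_
      rcases Finset.mem_insert.mp hu with rfl | hu
      · exact ⟨(1, a), by rw [MonoidHom.noncommCoprod_apply]; simp⟩
      · exact ⟨(⟨gi Γ G u a, gsp_mem Γ G P hu ha⟩, 1), by rw [MonoidHom.noncommCoprod_apply]; simp⟩
  · intro l
    rw [MonoidHom.noncommCoprod_apply]
    simp
  · intro g
    rw [MonoidHom.noncommCoprod_apply]
    simp

end Pool.Agent.H77B.PRD
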