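import Pool.Agent.H77B.Stm2

/-!
# Products of obstructors
-/

set_option autoImplicit false

namespace Pool.Agent.H77B.PRO

open Finset Pool.Agent.H77B

variable {n1 n2 : ℕ}

theorem lft_sp (a : Fin (n1 + n2) → ℕ) : lft (sp a) = sp fun i => a (Fin.castAdd n2 i) := by
  ext i
  rw [mem_lft, mem_sp, mem_sp]

theorem rgt_sp (a : Fin (n1 + n2) → ℕ) : rgt (sp a) = sp fun i => a (Fin.natAdd n1 i) := by
  ext i
  rw [mem_rgt, mem_sp, mem_sp]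

theorem lft_union (σ τ : Finset (Fin (n1 + n2))) : lft (σ ∪ τ) = lft σ ∪ lft τ := by
  ext i
  rw [mem_lft, mem_union, mem_union, mem_lft, mem_lft]

theorem rgt_union (σ τ : Finset (Fin (n1 + n2))) : rgt (σ ∪ τ) = rgt σ ∪ rgt τ := by
  ext i
  rw [mem_rgt, mem_union, mem_union, mem_rgt, mem_rgt]

theorem lft_mono {σ τ : Finset (Fin (n1 + n2))} (h : σ ⊆ τ) : lft σ ⊆ lft τ := fun i hi =>
  mem_lft.mpr (h (mem_lft.mp hi))

theorem rgt_mono {σ τ : Finset (Fin (n1 + n2))} (h : σ ⊆ τ) : rgt σ ⊆ rgt τ := fun i hi =>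
  mem_rgt.mpr (h (mem_rgt.mp hi))

theorem lft_disj {σ τ : Finset (Fin (n1 + n2))} (h : Disjoint σ τ) : Disjoint (lft σ) (lft τ) := by
  rw [disjoint_left] at h ⊢
  exact fun i hi hi' => h (mem_lft.mp hi) (mem_lft.mp hi')

theorem rgt_disj {σ τ : Finset (Fin (n1 + n2))} (h : Disjoint σ τ) : Disjoint (rgt σ) (rgt τ) := by
  rw [disjoint_left] at h ⊢
  exact fun i hi hi' => h (mem_rgt.mp hi) (mem_rgt.mp hi')

theorem lft_empty : lft (∅ : Finset (Fin (n1 + n2))) = ∅ := by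
  ext i
  rw [mem_lft]
  simp

theorem rgt_empty : rgt (∅ : Finset (Fin (n1 + n2))) = ∅ := by
  ext i
  rw [mem_rgt]
  simp

theorem t : Pool.Agent.H77B.PRO := by
  intro H1 H2 _ _ n1 n2 L1 L2 g1 g2 o1 o2
  refine ⟨⟨?_, ?_⟩, ?_, ?_⟩
  · rw [mem_joinF, lft_empty, rgt_empty]
    exact ⟨o1.cx.1, o2.cx.1⟩
  · intro σ hσ τ hτ
    rw [mem_joinF] at hσ ⊢
    exact ⟨o1.cx.2 _ hσ.1 _ (lft_mono hτ), o2.cx.2 _ hσ.2 _ (rgt_mono hτ)⟩
  · refine (o1.lip.prod o2.lip).subset ?_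
    rintro _ ⟨a, a', h1, h2, rfl⟩
    rw [mem_joinF, lft_union, rgt_union, lft_sp, lft_sp, rgt_sp, rgt_sp] at h1
    exact ⟨⟨_, _, h1.1, fun i => h2 _, rfl⟩, ⟨_, _, h1.2, fun i => h2 _, rfl⟩⟩
  · intro T hT
    obtain ⟨C1, hC1⟩ := o1.sep (Prod.fst '' T) (hT.image _)
    obtain ⟨C2, hC2⟩ := o2.sep (Prod.snd '' T) (hT.image _)
    refine ⟨max C1 C2, fun a a' h1 h2 h3 h4 => ?_⟩
    rw [mem_joinF, lft_sp, rgt_sp] at h1 h2
    have h5 := lft_disj h3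
    have h6 := rgt_disj h3
    rw [lft_sp, lft_sp] at h5
    rw [rgt_sp, rgt_sp] at h6
    have h7 := hC1 _ _ h1.1 h2.1 h5 ⟨_, h4, rfl⟩
    have h8 := hC2 _ _ h1.2 h2.2 h6 ⟨_, h4, rfl⟩
    intro i
    refine Fin.addCases (fun j => ?_) (fun j => ?_) i
    · exact ⟨(h7 j).1.trans (le_max_left _ _), (h7 j).2.trans (le_max_left _ _)⟩
    · exact ⟨(h8 j).1.trans (le_max_right _ _), (h8 j).2.trans (le_max_right _ _)⟩

end Pool.Agent.H77B.PRO
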