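import Pool.Agent.H77B.Stm2

/-!
# Stub RGO of project GB: obstructors from right-angled Artin groups
-/

set_option autoImplicit false
set_option linter.unusedSectionVars false

noncomputable section

namespace Pool.Agent.H77B.RGO

open Finset Pool.Agent.H77RA Pool.Agent.H77GP Pool.Agent.W326.DU Pool.Agent.R782.Bal

section

variable {V : Type} [Fintype V] [DecidableEq V] (G : SimpleGraph V) {n : ℕ} (e : V × Bool ≃ Fin n)

/-- the integral vector -/
def bb (a : Fin n → ℕ) (v : V) : ℤ := (a (e (v, true)) : ℤ) - (a (e (v, false)) : ℤ)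

theorem clF_adj {σ : Finset (Fin n)} (hσ : σ ∈ clF (OG G) e) {p q : V × Bool} (hp : e p ∈ σ) (hq : e q ∈ σ)
    (hpq : p ≠ q) : G.Adj p.1 q.1 := by
  rw [mem_clF] at hσ
  exact hσ (x := p) (by
    rw [mem_coe, mem_map]
    exact ⟨e p, hp, by simp⟩) (y := q) (by
    rw [mem_coe, mem_map]
    exact ⟨e q, hq, by simp⟩) hpq

theorem one_zero {a : Fin n → ℕ} (ha : sp a ∈ clF (OG G) e) (v : V) (b : Bool) (h : a (e (v, b)) ≠ 0) :
    a (e (v, !b)) = 0 := by
  by_contra h1
  have h2 := clF_adj G e ha (p := (v, b)) (q := (v, !b)) (mem_sp.mpr h) (mem_sp.mpr h1) (by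
    intro h3
    have h4 := congrArg Prod.snd h3
    simp at h4)
  exact G.irrefl h2

theorem clq {a : Fin n → ℕ} (ha : sp a ∈ clF (OG G) e) : G.IsClique {v | bb e a v ≠ 0} := by
  have key : ∀ v, bb e a v ≠ 0 → ∃ b, a (e (v, b)) ≠ 0 := by
    intro v hv
    by_contra h
    push Not at h
    apply hv
    unfold bb
    rw [h true, h false]
    simp
  intro u hu w hw huw
  obtain ⟨s, hs⟩ := key u hu
  obtain ⟨t, ht⟩ := key w hw
  exact clF_adj G e ha (p := (u, s)) (q := (w, t)) (mem_sp.mpr hs) (mem_sp.mpr ht) (by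
    intro h
    exact huw (congrArg Prod.fst h))

end

theorem t : Pool.Agent.H77B.RGO := by
  intro V _ _ G H _ ρ hρ n e
  classical
  have hcx := clF_cx (OG G) e
  refine ⟨hcx, ?_, ?_⟩
  · refine ((SS_finite G).image ρ).subset ?_
    rintro _ ⟨a, a', h1, h2, rfl⟩
    have ha := clq G e (hcx.2 _ h1 _ subset_union_left)
    have ha' := clq G e (hcx.2 _ h1 _ subset_union_right)
    refine Pool.Agent.H77AR.nearG_mem G ρ ha ha' fun v => ?_
    have h3 := h2 (e (v, true))
    have h4 := h2 (e (v, false))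
    rw [abs_le]
    constructor <;> omega
  · intro T hT
    obtain ⟨C, hC⟩ := hρ T hT
    refine ⟨C, ?_⟩
    intro a a' h1 h2 h3 h4
    rw [← map_inv, ← map_mul] at h4
    have h5 := hC (bb e a) (bb e a') (clq G e h1) (clq G e h2) h4
    have hd : ∀ i, a i = 0 ∨ a' i = 0 := by
      intro i
      by_contra h6
      push Not at h6
      exact (disjoint_left.mp h3) (mem_sp.mpr h6.1) (mem_sp.mpr h6.2)
    intro i
    obtain ⟨⟨v, b⟩, rfl⟩ := e.surjective i
    have h6 := abs_le.mp (h5 v)
    unfold bb at h6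
    have ht := hd (e (v, true))
    have hf := hd (e (v, false))
    have o1 : a (e (v, true)) = 0 ∨ a (e (v, false)) = 0 := by
      by_cases h : a (e (v, true)) = 0
      · exact Or.inl h
      · exact Or.inr (one_zero G e h1 v true h)
    have o2 : a' (e (v, true)) = 0 ∨ a' (e (v, false)) = 0 := by
      by_cases h : a' (e (v, true)) = 0
      · exact Or.inl h
      · exact Or.inr (one_zero G e h2 v true h)
    rcases b with _ | _ <;> constructor <;> omega

end Pool.Agent.H77B.RGO
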