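import Pool.Agent.H77B.Stm2
import Pool.Agent.H77B.SEPB

/-!
# Stub SEPL of project GB: separation for the subgroup of a set of vertices
-/

set_option autoImplicit false
set_option linter.unusedSectionVars false

noncomputable section

namespace Pool.Agent.H77B.SEPL

open Finset Pool.Agent.H77RA Pool.Agent.H77GP Pool.Agent.W326.DU

theorem t : Pool.Agent.H77B.SEPL := by
  intro V _ _ Γ G _ z S hz
  classical
  let ρ : RAAG (Γ.comap (fun u : {u // u ∈ S} => u.1)).Adj →* Gs Γ G S :=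
    PresentedGroup.toGroup (f := fun u => (⟨gi Γ G u.1 (z u.1), gi_mem Γ G u.2 _⟩ : Gs Γ G S)) (by
      rintro r ⟨a, b, h, rfl⟩
      simp only [map_mul, map_inv, FreeGroup.lift_apply_of]
      have h' : Γ.Adj a.1 b.1 := h
      have h2 : (⟨gi Γ G a.1 (z a.1), gi_mem Γ G a.2 _⟩ : Gs Γ G S) * ⟨gi Γ G b.1 (z b.1), gi_mem Γ G b.2 _⟩ =
          ⟨gi Γ G b.1 (z b.1), gi_mem Γ G b.2 _⟩ * ⟨gi Γ G a.1 (z a.1), gi_mem Γ G a.2 _⟩ :=
        Subtype.ext (gi_comm Γ G h' (z a.1) (z b.1)).eq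
      rw [h2]
      group)
  have ρgen : ∀ u : {u // u ∈ S}, (ρ (gen (Γ.comap (fun u : {u // u ∈ S} => u.1)).Adj u) : GP Γ G) =
      gi Γ G u.1 (z u.1) := fun u => congrArg Subtype.val (PresentedGroup.toGroup.of _)
  -- the components of the image
  have key : ∀ (a : {u // u ∈ S} → ℤ) (u : {u // u ∈ S}),
      gpi Γ G (ρ (gL (Γ.comap (fun u : {u // u ∈ S} => u.1)) a) : GP Γ G) u.1 = z u.1 ^ a u := by
    intro a u
    set ψ : RAAG (Γ.comap (fun u : {u // u ∈ S} => u.1)).Adj →* G u.1 :=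
      (Pi.evalMonoidHom G u.1).comp ((gpi Γ G).comp ((Gs Γ G S).subtype.comp ρ)) with hψ
    change ψ (gL (Γ.comap (fun u : {u // u ∈ S} => u.1)) a) = z u.1 ^ a u
    have hψg : ∀ v : {u // u ∈ S}, ψ (gen (Γ.comap (fun u : {u // u ∈ S} => u.1)).Adj v) =
        (Pi.mulSingle v.1 (z v.1) : ∀ v, G v) u.1 := by
      intro v
      change gpi Γ G (ρ (gen (Γ.comap (fun u : {u // u ∈ S} => u.1)).Adj v) : GP Γ G) u.1 = _
      rw [ρgen, gpi_gi]
    unfold gL
    rw [map_list_prod, List.map_map]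
    rw [List.prod_map_eq_pow_single u]
    · have hcnt := @List.count_eq_one_of_mem {u // u ∈ S} instBEqOfDecidableEq _ u _
        (nodup_toList univ) (mem_toList.mpr (mem_univ _))
      rw [hcnt, pow_one]
      simp only [Function.comp_apply, map_zpow, hψg]
      congr 1
      exact Pi.mulSingle_eq_same u.1 (z u.1)
    · intro v hne _
      simp only [Function.comp_apply, map_zpow, hψg]
      rw [Pi.mulSingle_eq_of_ne (fun h => hne (Subtype.ext h.symm)), one_zpow]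
  refine ⟨ρ, ?_⟩
  intro T hT
  have hbd : ∀ u : {u // u ∈ S}, ∃ C : ℕ, ∀ n : ℤ,
      z u.1 ^ n ∈ (fun t : Gs Γ G S => gpi Γ G (t : GP Γ G) u.1) '' T → |n| ≤ C := by
    intro u
    have ix := injective_zpow_iff_not_isOfFinOrder.mpr (hz u.1)
    obtain ⟨C, hC⟩ := Pool.Agent.H77B.SEPB.fin_bd
      ((hT.image (fun t : Gs Γ G S => gpi Γ G (t : GP Γ G) u.1)).preimage (f := fun n : ℤ => z u.1 ^ n) ix.injOn)
    exact ⟨C, fun n hn => hC n hn⟩
  choose C hC using hbd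
  refine ⟨univ.sup C, ?_⟩
  intro a a' _ _ hmem u
  suffices h : |a' u - a u| ≤ C u from h.trans (by exact_mod_cast Finset.le_sup (f := C) (mem_univ u))
  refine hC u _ ⟨_, hmem, ?_⟩
  have h1 : (ρ ((gL (Γ.comap (fun u : {u // u ∈ S} => u.1)) a)⁻¹ *
      gL (Γ.comap (fun u : {u // u ∈ S} => u.1)) a') : GP Γ G) =
      (ρ (gL (Γ.comap (fun u : {u // u ∈ S} => u.1)) a) : GP Γ G)⁻¹ *
        (ρ (gL (Γ.comap (fun u : {u // u ∈ S} => u.1)) a') : GP Γ G) := by
    rw [map_mul, map_inv]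
    rfl
  simp only
  rw [h1, map_mul, map_inv, Pi.mul_apply, Pi.inv_apply, key, key, ← zpow_neg, ← zpow_add]
  congr 1
  ring

end Pool.Agent.H77B.SEPL
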