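import Pool.Agent.H77B.Stm

set_option autoImplicit false
set_option linter.unusedSectionVars false

noncomputable section

namespace Pool.Agent.H77B.SHR

open Finset Pool.Agent.H77RA Pool.Agent.H77GP Pool.Agent.H77B

section

variable {Q R : Type} [Group Q] [Ring R] (c : Q →* R)

theorem exJ {K : Subgroup Q} {n : ℕ} (h : PEn c K n) {x : XM Q R} (hx : x ∈ dg Q R n) (hxJ : x ∈ Jt c K)
    (hd : dd x = 0) : ∃ z ∈ dg Q R (n + 1), z ∈ Jt c K ∧ dd z = x := by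
  have h1 : dd (cn 1 x) = x := by rw [dd_cn, hd, map_zero, sub_zero]
  obtain ⟨y, hy, hyJ⟩ := h (cn 1 x) (cn_dg 1 hx) (by rw [h1]; exact hxJ)
  refine ⟨cn 1 x - dd y, Submodule.sub_mem _ (cn_dg 1 hx) (dd_dg hy), hyJ, ?_⟩
  rw [map_sub, h1, dd_dd, sub_zero]

/-- splitting in a fixed degree -/
theorem split {A B H : Subgroup Q} (h : Jt c H ≤ Jt c A ⊔ Jt c B) {n : ℕ} {x : XM Q R} (hx : x ∈ dg Q R n)
    (hxJ : x ∈ Jt c H) : ∃ a ∈ Jt c A, ∃ b ∈ Jt c B, a ∈ dg Q R n ∧ b ∈ dg Q R n ∧ a + b = x := by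
  obtain ⟨a, ha, b, hb, hab⟩ := Submodule.mem_sup.mp (h hxJ)
  refine ⟨pn n a, pn_Jt c n ha, pn n b, pn_Jt c n hb, pn_dg n a, pn_dg n b, ?_⟩
  rw [← map_add, hab, pn_of_dg hx]

end

theorem t : Pool.Agent.H77B.SHR := by
  intro Q R _ _ c A B B' C H H' k hCB' hB'B hBH hAH hH hH' hAH' hB'H' hinf h1 h2 h3 x hx hxJ
  obtain ⟨a, ha, b, hb, had, hbd, hab⟩ := split c hH (dd_dg hx) hxJ
  have hdab : dd a + dd b = 0 := by rw [← map_add, hab, dd_dd]
  have hda : dd a ∈ Jt c C := by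
    refine hinf (Submodule.mem_inf.mpr ⟨dd_Jt c ha, ?_⟩)
    rw [eq_neg_of_add_eq_zero_left hdab]
    exact Submodule.neg_mem _ (dd_Jt c hb)
  obtain ⟨b', hb'd, hb', hdb'⟩ := exJ c h3 (dd_dg had) (Jt_mono c hCB' hda) (dd_dd a)
  obtain ⟨y', hy'd, hy', hdy'⟩ := exJ c h1 (x := a - b') (Submodule.sub_mem _ had hb'd)
    (Submodule.sub_mem _ (Jt_mono c hAH' ha) (Jt_mono c hB'H' hb')) (by rw [map_sub, hdb', sub_self])
  obtain ⟨y1, hy1, y2, hy2, hy1d, hy2d, hy12⟩ := split c hH' hy'd hy'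
  have hw : a - dd y1 = b' + dd y2 := by
    have e1 : dd y1 + dd y2 = a - b' := by rw [← map_add, hy12, hdy']
    have e2 : a = dd y1 + dd y2 + b' := by rw [e1]; abel
    rw [e2]; abel
  have hwB : a - dd y1 ∈ Jt c B := by
    rw [hw]
    exact Jt_mono c hB'B (Submodule.add_mem _ hb' (dd_Jt c hy2))
  obtain ⟨u, hud, hu, hdu⟩ := exJ c h2 (x := (a - dd y1) + b)
    (Submodule.add_mem _ (Submodule.sub_mem _ had (dd_dg hy1d)) hbd) (Submodule.add_mem _ hwB hb)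
    (by rw [map_add, map_sub, dd_dd, sub_zero, hdab])
  have he : dd x = dd (y1 + u) := by
    rw [map_add, hdu, ← hab]; abel
  refine ⟨cn 1 (x - (y1 + u)), cn_dg 1 (Submodule.sub_mem _ hx (Submodule.add_mem _ hy1d hud)), ?_⟩
  rw [dd_cn, map_sub dd x, he, sub_self, map_zero, sub_zero, sub_sub_cancel]
  exact Submodule.add_mem _ (Jt_mono c hAH hy1) (Jt_mono c hBH hu)

end Pool.Agent.H77B.SHR
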