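import Pool.Agent.H77B.Stm

/-!
# Stub SUS of project GB: suspensions

The primitive `w` of `x - y` is split into the part with the sets containing `p` and the rest;
`x - bd w1 = y + bd w2` is supported on cliques of `S` and has boundary `a`.
-/

set_option autoImplicit false
set_option linter.unusedSectionVars false

noncomputable section

namespace Pool.Agent.H77B.SUS

open Finset Pool.Agent.H77RA Pool.Agent.H77GP Pool.Agent.H77N Pool.Agent.W326.DU

theorem t : Pool.Agent.H77B.SUS := by
  intro V _ _ G S p q k hpq hpS hqS hadj hp hq h a ha hba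
  classical
  have hba' : bd a = 0 := hba
  have hsp : S ⊆ insert p S := subset_insert p S
  have hsq : S ⊆ insert q S := subset_insert q S
  obtain ⟨x, hx, hbx⟩ := cone_exact (G := G) (S := insert p S) (v := p) (mem_insert_self p S)
    (fun u hu hup => (hp u ((mem_insert.mp hu).resolve_left hup)).symm) (Sup_mono hsp ha) hba'
  obtain ⟨y, hy, hby⟩ := cone_exact (G := G) (S := insert q S) (v := q) (mem_insert_self q S)
    (fun u hu huq => (hq u ((mem_insert.mp hu).resolve_left huq)).symm) (Sup_mono hsq ha) hba'
  have hpsub : insert p S ⊆ insert p (insert q S) := insert_subset_insert p hsq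
  have hqsub : insert q S ⊆ insert p (insert q S) := subset_insert p _
  have hcl : bd (x - y) = 0 := by rw [bd_sub, hbx, hby, sub_self]
  obtain ⟨w, hw, hbw⟩ := h (x - y) (Sup_sub (Sup_mono hpsub hx) (Sup_mono hqsub hy)) hcl
  have hbw' : bd w = x - y := hbw
  set w1 : Finset V → ℚ := fun T => if p ∈ T then w T else 0 with hw1
  set w2 : Finset V → ℚ := fun T => if p ∈ T then 0 else w T with hw2
  have hw12 : w = w1 + w2 := by
    funext T
    rw [Pi.add_apply]
    simp only [hw1, hw2]
    split_ifs <;> simp
  have s1 : Sup G (insert p S) (k + 1 + 1) w1 := by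
    intro T hT
    have hpT : p ∈ T := by
      by_contra hn
      exact hT (if_neg hn)
    have hwT : w T ≠ 0 := by
      intro h0
      apply hT
      simp only [hw1, if_pos hpT, h0]
    obtain ⟨h1, h2, h3⟩ := hw T hwT
    refine ⟨fun u hu => ?_, h2, h3⟩
    have huq : u ≠ q := by
      rintro rfl
      exact hadj (h2 (mem_coe.mpr hpT) (mem_coe.mpr hu) hpq)
    have := h1 hu
    rw [mem_insert, mem_insert] at this
    rw [mem_insert]
    tauto
  have s2 : Sup G (insert q S) (k + 1 + 1) w2 := by
    intro T hT
    have hpT : p ∉ T := by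
      intro hn
      exact hT (if_pos hn)
    have hwT : w T ≠ 0 := by
      intro h0
      apply hT
      simp only [hw2, if_neg hpT, h0]
    obtain ⟨h1, h2, h3⟩ := hw T hwT
    refine ⟨fun u hu => ?_, h2, h3⟩
    have hup : u ≠ p := by
      rintro rfl
      exact hpT hu
    exact (mem_insert.mp (h1 hu)).resolve_left hup
  have e1 : x - bd w1 = y + bd w2 := by
    have : bd w1 + bd w2 = x - y := by rw [← bd_add, ← hw12, hbw']
    rw [sub_eq_iff_eq_add, add_assoc, add_comm (bd w2), this]
    abel
  have sx : Sup G (insert p S) (k + 1) (x - bd w1) := Sup_sub hx (Sup_bd s1)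
  have sy : Sup G (insert q S) (k + 1) (x - bd w1) := e1 ▸ Sup_add hy (Sup_bd s2)
  refine ⟨x - bd w1, ?_, ?_⟩
  · intro T hT
    obtain ⟨h1, h2, h3⟩ := sx T hT
    obtain ⟨h4, _, _⟩ := sy T hT
    refine ⟨fun u hu => ?_, h2, h3⟩
    have a1 := h1 hu
    have a2 := h4 hu
    rw [mem_insert] at a1 a2
    rcases a1 with a1 | a1
    · rcases a2 with a2 | a2
      · exact absurd (a1.symm.trans a2) hpq
      · exact a2
    · exact a1
  · show bd (x - bd w1) = a
    rw [bd_sub, hbx, bd_bd (G := G) fun T hT => (s1 T hT).2.1, sub_zero]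

end Pool.Agent.H77B.SUS
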