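import Pool.Agent.H77B.Defs

/-!
# Graph products with more general vertex groups: the list of statements

Aim (MP_8fe54c_gt, slot 3, replacing GraphProducts): vertex groups may also be groups of type `FP_∞` whose
`L²`-Betti numbers vanish except in degree 1 (surface groups, 3-manifold groups, limit groups, free groups).

Each stub `X` below: prove `theorem Pool.Agent.H77B.X.t : Pool.Agent.H77B.X` in the file `Pool/Agent/H77B/X.lean`
(`import Pool.Agent.H77B.Stm`, `namespace Pool.Agent.H77B.X`; no double quote character in the file).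
The basic objects are in H77GP/A1.lean: `XM Q R = List Q →₀ R`, `dd` the differential, `cn a` the cone
(`dd (cn a x) = x - cn a (dd x)`), `ac c g` the action, `ac c g (single l r) = single (l.map (g * ·)) (r * c g⁻¹)`,
`dg Q R n` the chains of lists of length `n`, `Jt c H` the submodule generated by `dg Q R 0` and the `x - ac c h x`,
`h ∈ H` (tools `Jt_le, Jt_le', Jt_mono, Jt_sup, dd_Jt, rel_mem, dg0_le, pn, pn_dg, pn_of_dg, pn_Jt, map_dg`).
-/

set_option autoImplicit false
set_option linter.unusedSectionVars false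

noncomputable section

attribute [local instance] V7N.bcF_additive

namespace Pool.Agent.H77B

open Finset Pool.Agent.H77RA Pool.Agent.H77GP Pool.Agent.H77N Pool.Agent.Helper655.VN Pool.Agent.RK
open Pool.Agent.W326.DU

/-- **EQV** (about 90 lines).  The derived functor vanishes in degree `n` if and only if the complex of lists is exact.
Proof.  From `HV` to `PEn`: this is `PE_of_homR` (H77GP/A7.lean), whose proof uses the
hypothesis only in the degree considered (copy it; see also H77N/PEK.lean).  Converse: with `homR_zero`, `homR_succ` the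
derived functor is a quotient; take a class, represent it by `Psi i c n x` (`Psi_surj`), `x ∈ dg (n+1)`; for `n = m+1`
the class is in the kernel, so `Psi i c m (dd x) = 0` (`Psi_dd`), so `dd x ∈ Jt c i.range` by `mem_Jt_of_Psi`
(for `n = 0` use `dg0_le`); `PEn` gives `y` with `x - dd y ∈ Jt`, so `Psi x = bcM (bD i n) (Psi y)` by `Psi_Jt`,
`Psi_dd`, and the class is zero. -/
def EQV : Prop := ∀ (K Q R : Type) [Group K] [Group Q] [Ring R] (i : K →* Q) (c : Q →* R) (n : ℕ),
  Function.Injective i → (HV (c.comp i) n ↔ PEn c i.range n)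

/-- **SHR** (about 80 lines).  Comparison of two Mayer–Vietoris situations `H = A *_C B`, `H' = A *_C B'`, `B' ≤ B`.
Proof.  First: `PEn c K n` implies (J) for `x ∈ dg n`, `x ∈ Jt c K`, `dd x = 0` there is `z ∈ dg (n+1)`, `z ∈ Jt c K`,
`dd z = x` (proof of `PE.exact` in H77GP/A1.lean).  Let `x ∈ dg (k+2)`, `e = dd x ∈ Jt H`.  Write `e = a + b`,
`a ∈ Jt A`, `b ∈ Jt B`, both in `dg (k+1)` (apply `pn (k+1)`).  `dd e = 0`, so `dd a = - dd b ∈ Jt A ⊓ Jt B ≤ Jt C`.
By (J) for `B'` in degree `k` (`C ≤ B'`) there is `b' ∈ Jt B'`, `b' ∈ dg (k+1)`, with `dd b' = dd a`.  Then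
`a - b' ∈ Jt H'` is closed, by (J) for `H'` it is `dd y'`, `y' ∈ Jt H'`, `y' ∈ dg (k+2)`, and `y' = y1 + y2`,
`y1 ∈ Jt A`, `y2 ∈ Jt B'` in `dg (k+2)`.  `w = a - dd y1 = b' + dd y2 ∈ Jt A ⊓ Jt B ≤ Jt C ≤ Jt B`.  `w + b ∈ Jt B` is
closed, so `w + b = dd u`, `u ∈ Jt B`, `u ∈ dg (k+2)`.  `e = dd (y1 + u)`, so `x - (y1 + u)` is closed and is
`dd (cn 1 (x - y1 - u))`. -/
def SHR : Prop := ∀ (Q R : Type) [Group Q] [Ring R] (c : Q →* R) (A B B' C H H' : Subgroup Q) (k : ℕ),
  C ≤ B' → B' ≤ B → B ≤ H → A ≤ H → Jt c H ≤ Jt c A ⊔ Jt c B → Jt c H' ≤ Jt c A ⊔ Jt c B' → A ≤ H' → B' ≤ H' →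
  Jt c A ⊓ Jt c B ≤ Jt c C → PEn c H' (k + 1) → PEn c B (k + 1) → PEn c B' k → PEn c H (k + 1)

/-- **INFP** (about 70 lines).  The intersection lemma for the subgroups `GsP`.
Proof.  As `Gs_Jt_inf` in H77GP/A5.lean (the case `P v = ⊤`): take `F1, F2` from `decomp` with
`L' = univ.filter fun u => Γ.Adj u v` and multiply them with the indicator function of `GsP Γ G P S`; apply
`Jt_inf_le`.  If `g ∈ GsP Γ G P S` and `g ∈ Gs Γ G L'`, then `g = rho Γ G L' g ∈ GsP Γ G P L` (`rho_fix`; `rho` maps the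
generators `gi u a`, `u ∈ S`, `a ∈ P u`, of `GsP Γ G P S` to `1` or to themselves with `u ∈ L' ∩ S = L`). -/
def INFP : Prop := ∀ (V : Type) [Fintype V] [DecidableEq V] (Γ : SimpleGraph V) (G : V → Type) [∀ v, Group (G v)]
  (P : ∀ v, Subgroup (G v)) (R : Type) [Ring R] (c : GP Γ G →* R) (S : Finset V) (v : V) (L : Finset V),
  v ∈ S → (∀ u, u ∈ L ↔ u ∈ S.erase v ∧ Γ.Adj u v) →
  Jt c (GsP Γ G P (S.erase v)) ⊓ Jt c (GsP Γ G P (insert v L)) ≤ Jt c (GsP Γ G P L)

/-- **VANS** (about 120 lines).  `GP_vanish` (H77GP/A5.lean) for the subgroups `GsP Γ G P S` instead of the whole group.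
`INFP` may be used as a hypothesis (then prove `theorem t (h : INFP) : VANS`).
Proof.  (1) As `Gs_PE`: if all vertices of `S` different from `v ∈ S` are adjacent to `v`, then `PE c (GsP Γ G P S)`, by
`PE_of_normal` with the subgroup `(N v).map (gi Γ G v)` (normalized by `gi v h`, `h ∈ P v`, and by `gi u a`, `u ≠ v`).
(2) `exists_phi`, `all_Ex` (H77GP/A2.lean) for `Gs = GsP Γ G P` give `Ex Γ c (GsP Γ G P) φ S` (`GsP_mono, GsP_empty,
GsP_sup`).  (3) Copy the proof of `vanish` (H77GP/A2.lean) with `univ` replaced by `S`. -/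
def VANS : Prop := ∀ (V : Type) [Fintype V] [LinearOrder V] (Γ : SimpleGraph V) (G : V → Type) [∀ v, Group (G v)]
  (R : Type) [Ring R] (c : GP Γ G →* R) (P N : ∀ v, Subgroup (G v)), (∀ v, N v ≤ P v) →
  (∀ v, ∀ h ∈ P v, ∀ a ∈ N v, h * a * h⁻¹ ∈ N v) → (∀ v, PE c ((N v).map (gi Γ G v))) →
  ∀ (S : Finset V) (k : ℕ), RX R Γ S k → PEn c (GsP Γ G P S) k

/-- **CYC** (about 100 lines).  A central element `z` of `H` such that `c z - 1` is a unit kills the homology.
Proof.  Let `θ (single l r) = single (l.map (z * ·)) r` and let `pr : XM Q R →ₗ XM Q R` be given on lists by `pr [] = 0`,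
`pr (a :: l) = single (a :: (a :: l).map (z * ·)) 1 - cn a (pr l)`.  By induction on the list
`dd (pr x) + pr (dd x) = θ x - x` (up to the sign; check with `dd (cn a y) = y - cn a (dd y)`), `pr` raises the degree by
one, and `pr (ac c h x) = ac c h (pr x)`, `θ (ac c h x) = ac c h (θ x)` for `h` commuting with `z`; so `pr` maps
`Jt c H` to itself.  Moreover `θ x = rm (c z) (ac c z x)` (`rm` = right multiplication of the coefficients, Defs.lean),
and `rm (c z)`, `rm w` preserve `Jt c H`, where `w` is the inverse of `c z - 1`, since they commute with `c h`,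
`h ∈ H`.  For `x ∈ dg (n+1)` with `dd x ∈ Jt c H`:  `rm (c z - 1) x = (θ x - x) - rm (c z) (ac c z x - x)
∈ dd (pr x) + Jt c H`, and apply `rm w` (`rm` commutes with `dd`; `rm u (rm v x) = rm (v * u) x`). -/
def CYC : Prop := ∀ (Q R : Type) [Group Q] [Ring R] (c : Q →* R) (H : Subgroup Q) (z : Q), z ∈ H →
  (∀ h ∈ H, Commute z h) → IsUnit (c z - 1) → PE c H

/-- **HZR** (about 40 lines).  Degree zero: if `H` contains `h` such that `c h - 1` is a unit, then `PEn c H 0`.
Proof.  For a list `[q]`: `single [h * q] r - single [q] r = dd (single [q, h * q] r)`, and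
`single [q] r - single [h * q] (r * c h⁻¹) ∈ Jt c H`, so `single [q] (r * (1 - c h⁻¹))` is in `dd (dg 2) + Jt c H` for all
`r`, and `1 - c h⁻¹ = (c h - 1) * c h⁻¹` is a unit. -/
def HZR : Prop := ∀ (Q R : Type) [Group Q] [Ring R] (c : Q →* R) (H : Subgroup Q) (h : Q), h ∈ H →
  IsUnit (c h - 1) → PEn c H 0

/-- **GRN** (about 170 lines).  The contraction of the complex of a group with `L²`-homology only in degree 1.
Write `c' = (ι ∘ canL) ∘ i`, `D n = (C.d n).map (V7N.evM c')`.
Proof.  Tools in H77GP/A10.lean: `Lap`, `lap_inj`, `Lap_inj` (its proof for degree `n` uses the hypothesis only in degree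
`n`: `(zero_iff C).1`, `(succ_iff C n).1`), `Lap_comm`, `jK`, `jK_canL`, `jK_inj_mat`, `U_surj`, `U_inj`, `evM_comp`; with
`θ = ι.comp (jK i hi)` one has `D n = (nm C n).map θ` (see `homR_subsingleton`).  Let
`E n = ((nm C n)ᴴ).map θ`, `Λ n = (Lap C n).map θ`, so `Λ 0 = E 0 * D 0`, `Λ (n+1) = E (n+1) * D (n+1) + D n * E n`.
For `n ≠ 1` the matrix `Λ n` has a two-sided inverse `g n` over `U` (rows of a left inverse by `U_surj`; then
`(Λ * g - 1) * Λ = 0` and `U_inj`).  Put `K 0 = g 0 * E 0`, `K n = E n * g (n+1)` for `n ≥ 1`, and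
`Π = 1 - D 0 * K 0 - K 1 * D 1`.  With `D (n+1) * D n = 0`, `E n * E (n+1) = 0`, `Λ (n+1) * D n = D n * Λ n`
(`Lap_comm`), hence `g (n+1) * D n = D n * g n` and dually: `K 0 * D 0 = g 0 * Λ 0 = 1`; for `n ≥ 1`:
`D n * K n + K (n+1) * D (n+1) = D n * E n * g (n+1) + E (n+1) * D (n+1) * g (n+1) = 1`; `p = D 0 * g 0 * E 0` and
`q = E 1 * g 2 * D 1` are idempotent with `p q = 0 = q p` (for `q`: `D 1 * E 1 = Λ 2 - E 2 * D 2` and
`D 2 * g 2 * D 1 = g 3 * D 2 * D 1 = 0`), `D 1 * Π = 0`, `Π * D 0 = 0`.  Commutation: entries of `D n` and `E n` are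
images under `evM` of elements of `ℤ[G]` (star of a group element is its inverse), so they commute with `ι (canL q)` if
`q` commutes with `i g` for all `g`; an entrywise commuting scalar also commutes with the entries of the inverse. -/
def GRN : Prop := ∀ (G Q U : Type) [Group G] [Group Q] [Ring U] (i : G →* Q) (_ : Function.Injective i)
  (ι : NG Q →+* U) (_ : Loc ι) (C : V7N.FreeRes G) (_ : ∀ k, k ≠ 1 → VN831.l2Betti G k = 0),
  ∃ (K : ∀ n, Matrix (Fin (C.r n)) (Fin (C.r (n + 1))) U) (P : Matrix (Fin (C.r 1)) (Fin (C.r 1)) U),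
    K 0 * (C.d 0).map (V7N.evM (((ι : NG Q →* U).comp canL).comp i)) = 1 ∧
    (C.d 0).map (V7N.evM (((ι : NG Q →* U).comp canL).comp i)) * K 0 +
      K 1 * (C.d 1).map (V7N.evM (((ι : NG Q →* U).comp canL).comp i)) = 1 - P ∧
    (∀ n, (C.d (n + 1)).map (V7N.evM (((ι : NG Q →* U).comp canL).comp i)) * K (n + 1) +
      K (n + 2) * (C.d (n + 2)).map (V7N.evM (((ι : NG Q →* U).comp canL).comp i)) = 1) ∧
    (C.d 1).map (V7N.evM (((ι : NG Q →* U).comp canL).comp i)) * P = 0 ∧
    P * (C.d 0).map (V7N.evM (((ι : NG Q →* U).comp canL).comp i)) = 0 ∧ P * P = P ∧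
    ∀ q : Q, (∀ g, Commute q (i g)) → (∀ n a b, Commute (((ι : NG Q →* U).comp canL) q) (K n a b)) ∧
      ∀ a b, Commute (((ι : NG Q →* U).comp canL) q) (P a b)

/-- **KVC** (about 120 lines).  The total complex is exact in degree `k` if the homology of `L` vanishes in degree `k-1`.
Proof.  For a matrix `M` whose entries commute with all `c l`: `xv · M` maps chains with entries in `Jt c ⊤` to such chains
(`rm u (ac c l x) = ac c l (rm u x)` if `u` commutes with `c l⁻¹`), commutes with `dd`, preserves `dg`, and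
`xv (xv z M) M' = xv z (M * M')`, `xv z 1 = z`, additive in `z` and `M`.  Let `z` be as in `TotEx` and write `≡` for
congruence modulo `Jt c ⊤`, `s = (-1)^k`.  So `dd (z q) ≡ - s • (z (q+1) * D q)`.  Put `y 0 = 0`,
`y (q+1) = - s • (z q * K q)` for `q ≠ 0` and `y 1 = - s • (z 0 * K 0) + u * P`, where: the chain `z 1 * P` (entries in
`dg (k+1-1)`) has `dd (z 1 * P) ≡ - s • (z 2 * D 1 * P) = 0`, so `u : Fin (r 1) → XM` with `z 1 * P - dd u ≡ 0`,
`u i ∈ dg (k+1)` exists by `PEn c ⊤ m` if `k = m+1`; if `k = 0` then `z 1 * P` is in `dg 0 ≤ Jt`, `u = 0`.  Then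
`z 1 * P = z 1 * P * P ≡ dd (u * P)` and `u * P * D 0 = 0`.  Check for `q = 0`: `dd (y 0) - s • (y 1 * D 0) =
z 0 * K 0 * D 0 = z 0` (`s * s = 1`).  For `q ≥ 1`: `dd (y q) - s • (y (q+1) * D q) = - s • dd (z (q-1)) * K (q-1) +
z q * K q * D q (+ dd (u * P) for q = 1) ≡ z q * (D (q-1) * K (q-1) + K q * D q) (+ z 1 * P)`, which is `z q`. -/
def KVC : Prop := ∀ (L R : Type) [Group L] [Ring R] (c : L →* R) (r : ℕ → ℕ)
  (D : ∀ n, Matrix (Fin (r (n + 1))) (Fin (r n)) R) (K : ∀ n, Matrix (Fin (r n)) (Fin (r (n + 1))) R)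
  (P : Matrix (Fin (r 1)) (Fin (r 1)) R) (k : ℕ),
  (∀ l n a b, Commute (c l) (D n a b)) → (∀ l n a b, Commute (c l) (K n a b)) → (∀ l a b, Commute (c l) (P a b)) →
  K 0 * D 0 = 1 → D 0 * K 0 + K 1 * D 1 = 1 - P → (∀ n, D (n + 1) * K (n + 1) + K (n + 2) * D (n + 2) = 1) →
  D 1 * P = 0 → P * D 0 = 0 → P * P = P → (∀ m, k = m + 1 → PEn c ⊤ m) → TotEx c r D k

/-- **KVT** (about 350 lines; the largest one; may be split).  The homology of a product `L × G` from the total complex of
the lists in `L` and the free resolution `C` of `G`.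
Proof.  Let `X n` be the abelian group of families `z = (z q i)`, `q ≤ n`, `i : Fin (C.r q)`, where `z q i` is a finitely
supported function `G × {l : List L // l.length = n - q + 1} →₀ ℤ`; equivalently `X n = (Y n →₀ ℤ)`, where `Y n` is the
set of the `(q, i, g, l)`.  `L × G` acts freely on `Y n` by `(h, g') (q, i, g, l) = (q, i, g' * g, l.map (h * ·))`, so
`X n` is a free `ℤ[L × G]`-module (representatives of orbits: `g = 1` and normalized lists as in `bN_proj`,
H77GP/A6.lean).  Differential `X (n+1) → X n`: `(q, i, g, l) ↦ (q, i, g, dl l) + (-1)^(n+1) ∑_{j, x} (D_{q-1} i j)(x)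
(q-1, j, g * x, l)`, with `D_q = C.d q`, where the first term is dropped if `l` has length 1 and the second if `q = 0`;
augmentation on `X 0`: `(0, i, g, [a]) ↦ C.ε (e_i g)`.  It is exact: rows (`q` fixed) are exact by `cn 1` except at lists
of length 1, where the cokernel is `ℤ[G]^{r q}` by the augmentation `[a] ↦ 1`, and this last column is exact since `C` is
a resolution (`C.exact_zero, C.exact_succ, C.ε_surj`).  So `V7N.gen_res` (Helper970/V7/P_proj_res.lean; see `bar_res`,
`homR_zero`, `homR_succ`, H77GP/A6.lean, A7.lean) gives a projective resolution, and the derived functor in degree `k` is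
the homology of `R ⊗ X`.  There are maps `Φ : V7N.BCG c (X n) → ∏_{q ≤ n} (Fin (C.r q) → XM L R ⧸ Jt c_L ⊤)`,
`r ⊗ (q, i, g, l) ↦ single l (r * c (1, g))` at `(q, i)`, and `Ψ` back, `single l r ↦ r ⊗ (q, i, 1, l)`, as `Psi`, `Tht`
in A7.lean (`Φ Ψ = id` and `Ψ` is onto), compatible with the differentials of `TotEx`.  So a cycle of `R ⊗ X` in degree
`k` is `Ψ z` with `z` as in `TotEx`, and `y` from `TotEx` shows that it is a boundary. -/
def KVT : Prop := ∀ (L G R : Type) [Group L] [Group G] [Ring R] (c : L × G →* R) (C : V7N.FreeRes G) (k : ℕ),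
  TotEx (c.comp (MonoidHom.inl L G)) C.r (fun n => (C.d n).map (V7N.evM (c.comp (MonoidHom.inr L G)))) k → HV c k

/-- **PRD** (about 60 lines).  The subgroup of a cone is a direct product.
Proof.  `MonoidHom.noncommCoprod` of the inclusion of `GsP Γ G P L` and `gi Γ G v`; the elements commute by `gi_comm` and
closure induction.  Injective: apply `rho Γ G L` (`rho_fix`, `GsP_le_Gs`, `rho_out`), then `gi_inj`. -/
def PRD : Prop := ∀ (V : Type) [DecidableEq V] (Γ : SimpleGraph V) (G : V → Type) [∀ v, Group (G v)]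
  (P : ∀ v, Subgroup (G v)) (L : Finset V) (v : V), (∀ u ∈ L, Γ.Adj u v) → P v = ⊤ →
  ∃ i : (GsP Γ G P L) × G v →* GP Γ G, Function.Injective i ∧ i.range = GsP Γ G P (insert v L) ∧
    (∀ l : GsP Γ G P L, i (l, 1) = (l : GP Γ G)) ∧ ∀ g, i (1, g) = gi Γ G v g

/-- **SUS** (about 120 lines).  Suspensions: `p, q` are not adjacent, and adjacent to all vertices of `S`.
Proof.  `QEx` is exactness for `sb a = bdR (fun _ => AddMonoidHom.id ℚ) a`, `(bdR R z) T = ∑ v ∈ Tᶜ, sgn v T • R v (z (insert v T))`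
(H77RA/A1.lean; `sgn_insert`, `bdR_bdR`, `bdR_add`; H77GP/A2.lean: `bd_add`, `sgn_sq`, `cone_exact`, `Sup_add`, ...).
Let `a` be a closed chain on `S` with `k` vertices.  Put `(p * a) T = sgn p (T.erase p) • a (T.erase p)` if `p ∈ T` and
`0` otherwise, similarly `q * a`.  Then `bd (p * a) = a - p * bd a = a` (signs!), so `z = p * a - q * a` is a closed chain
on `insert p (insert q S)` with `k + 1` vertices; so `z = bd w`.  Put `b T = sgn p T • w (insert p T)` for `T ⊆ S`, `p ∉ T`
(zero otherwise); cliques containing `p` do not contain `q`, so `b` is supported on cliques of `S` with `k + 1` vertices,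
and comparing the coefficients of `z = bd w` at the sets `insert p T`, `T ⊆ S` (where `z (insert p T) = sgn p T • a T`)
gives `bd b = ± a`. -/
def SUS : Prop := ∀ (V : Type) [Fintype V] [LinearOrder V] (G : SimpleGraph V) (S : Finset V) (p q : V) (k : ℕ),
  p ≠ q → p ∉ S → q ∉ S → ¬ G.Adj p q → (∀ u ∈ S, G.Adj p u) → (∀ u ∈ S, G.Adj q u) →
  QEx G (insert p (insert q S)) (k + 1) → QEx G S k

/-- **TRN** (about 100 lines).  Exactness is invariant under increasing embeddings of vertex sets.
Proof.  For a chain `a` on `V'` let `(f_* a) T = a T'` if `T = T'.map f` and `0` if `T` is not contained in the image of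
`f`; for a chain `b` on `V` let `(f^* b) T' = b (T'.map f)`.  Both commute with the boundary on chains with support in
`S'.map f`, since `sgn (f v) (T.map f) = sgn v T` (`f` is increasing). -/
def TRN : Prop := ∀ (V V' : Type) [Fintype V] [LinearOrder V] [Fintype V'] [LinearOrder V'] (G : SimpleGraph V)
  (f : V' ↪o V) (S' : Finset V') (k : ℕ),
  QEx (G.comap f) S' k ↔ QEx G (S'.map f.toEmbedding) k

/-- **SEPB** (about 120 lines).  Separation.
Proof.  As `rhoA`, `rhoA_gen`, `rhoA_gL`, `sepH_GP` in H77GP/A9.lean.  `ρ` maps the generator of `p = (v, b)` to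
`gi v (w v b)`; the component of `gpi (ρ (gL a))` at `v` is the product of `w v false ^ a (v, false)` and
`w v true ^ a (v, true)` (in the order of a list) and if the support of `a` is a clique at most one of the two exponents is
nonzero.  If `ρ ((gL a)⁻¹ * gL a') ∈ T`, then in the component `v` one gets `x ^ (-m) * y ^ n ∈ T_v` with
`x, y ∈ {w v false, w v true}` and `T_v` finite; for `x = y` this bounds `n - m`; for `x ≠ y` the map
`(m, n) ↦ x ^ (-m) * y ^ n` is injective, since the cyclic groups meet trivially and `x, y` have infinite order, so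
`m` and `n` are bounded. -/
def SEPB : Prop := ∀ (V : Type) [Fintype V] [LinearOrder V] (Γ : SimpleGraph V) (G : V → Type) [∀ v, Group (G v)]
  (w : ∀ v, Bool → G v) (S : Finset (V ×ₗ Bool)),
  (∀ p ∈ S, ¬ IsOfFinOrder (w (ofLex p).1 (ofLex p).2)) →
  (∀ v, toLex (v, false) ∈ S → toLex (v, true) ∈ S →
    Subgroup.zpowers (w v false) ⊓ Subgroup.zpowers (w v true) = ⊥) →
  ∃ ρ : RAAG ((G2 Γ).comap (fun p : {p // p ∈ S} => p.1)).Adj →* GP Γ G,
    Pool.Agent.H77AR.SepH ((G2 Γ).comap (fun p : {p // p ∈ S} => p.1)) ρ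

/-- **DIC** (about 50 lines).
Proof.  Otherwise any two elements `≠ 1` have a common nontrivial power (up to exponents): let `z ≠ 1` be any element and
`S` a finite generating set.  For each `s ∈ S`, `s ≠ 1`, there are `m, n` with `z ^ m = s ^ n ≠ 1`, so `m ≠ 0` and `z ^ m`
commutes with `s`.  The product `M` of these exponents is nonzero and `z ^ M` commutes with all of `S`, hence is central;
`z ^ M ≠ 1` as the group is torsion free. -/
def DIC : Prop := ∀ (G : Type) [Group G] [Group.FG G] [Nontrivial G], (∀ g : G, g ≠ 1 → ¬ IsOfFinOrder g) →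
  (∃ x y : G, x ≠ 1 ∧ y ≠ 1 ∧ Subgroup.zpowers x ⊓ Subgroup.zpowers y = ⊥) ∨ ∃ z : G, z ≠ 1 ∧ ∀ g, Commute z g

/-- **FGR** (about 80 lines).  A group with a resolution by free modules of finite rank is finitely generated.
Proof.  `C.ε v = ∑ i, (augmentation of v i) * C.ε e_i` (`ε_smul`).  Choose `w` with `C.ε w = 1` (`ε_surj`).  For `g : G`
let `v_g = (g - 1) w`; it is in the kernel of `ε`, so in the row space of `C.d 0`.  Let `H` be the subgroup generated by
the (finite) supports of the entries of the rows of `C.d 0` and of `w`.  Claim `H = ⊤`.  Consider the additive map from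
`Fin (C.r 0) → ℤ[G]` to `(G ⧸ H) →₀ ℤ` (left cosets `g H`) given by `v ↦ ∑ i, (C.ε e_i) • (v i pushed to G ⧸ H)`; a left
translate `x • row` of a row of `C.d 0` has all group elements in the coset `x H`, so its image is
`(C.ε row) • [x H] = 0`; hence the image of `v_g` is zero; but the image of `g • w` is `(C.ε w) [g H] = [g H]` and the
image of `w` is `[H]`, so `g ∈ H`. -/
def FGR : Prop := ∀ (G : Type) [Group G], V7N.FreeRes G → Group.FG G

end Pool.Agent.H77B
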