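import Pool.Agent.H77B.Defs2
import Pool.Agent.H77AR.F1

/-!
# Graph products of groups with obstructors: the list of statements

Aim (MP_8fe54c_gt, slot 3): the strong form of the conjecture (`b_i(G) ≠ 0` implies that `G` has an obstructor of
dimension `2 i` in the sense of Bestvina–Kapovich–Kleiner, so `G` does not act properly discontinuously on a contractible
manifold of dimension less than `2 i`) passes to graph products.

Each stub `X` below: prove `theorem Pool.Agent.H77B.X.t : Pool.Agent.H77B.X` in the file `Pool/Agent/H77B/X.lean`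
(`import Pool.Agent.H77B.Stm2`, `namespace Pool.Agent.H77B.X`; no double quote character in the file).
-/

set_option autoImplicit false
set_option linter.unusedSectionVars false

noncomputable section

attribute [local instance] V7N.bcF_additive

namespace Pool.Agent.H77B

open Finset Pool.Agent.H77RA Pool.Agent.H77GP Pool.Agent.H77N Pool.Agent.Helper655.VN Pool.Agent.RK
open Pool.Agent.W326.DU Pool.Agent.W555.KS Pool.Agent.Y131.KS Pool.Agent.R782.Bal

/-- **ACT** (about 220 lines).  The map of the cone over the deleted join for a general obstructor.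
Proof.  Adapt the proof of `Pool.Agent.H77AR.exists_f1g` (H77AR/F1.lean; `foldF, stepF, KK, KK_compact, KK_mono,
foldF_mem, foldF_cont` are in H77RA/D1.lean, `sF, count_le` in H77RA/D2.lean, `id_nullhomotopic` is used there); it becomes
simpler.  For `a : Fin n → ℕ` let `s a y = projIcc 0 1 (2 - 2 * ‖y - a‖)`: it is 1 if `|y i - a i| ≤ 1/2` for all `i`, and
nonzero only if `|y i - a i| < 1` for all `i` (at most `3 ^ n` such `a`).  Let `F y = foldF HH l y p` for the list `l` of the
`(g a, s a)` with `a i ≤ R + 1`, `sp a ∈ L`, `K = KK HH p S (3 ^ n)` with `S` the finite set of `h.lip`.  For `y` with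
`0 ≤ y i ≤ R` whose support is contained in `σ ∈ L` take `a i = (round (y i)).toNat`; then `sp a ⊆ σ` (if `y i = 0` then
`a i = 0`), `|y i - a i| ≤ 1/2`, and all `a'` with `s a' y ≠ 0` have `sp a' ⊆ σ` and `|a i - a' i| ≤ 1`, so
`(g a)⁻¹ • F y ∈ K` by `foldF_mem`.  `T = {γ | γ K ∩ K ≠ ∅}` is finite, `C` from `h.sep T`, `R = n * (C + 1) + 1`,
`f1 x = F (fun i => R * max (x i) 0)`.  If `x ∈ dJoin L` and `f1 x = f1 (-x)`, then `(g a)⁻¹ * g a' ∈ T` for the lattice
points `a`, `a'` near `R x₊`, `R x₋`, whose supports are in the disjoint simplices given by the positive and the negative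
support of `x`; so `R |x i| ≤ C + 1` for all `i`, contradiction to `∑ |x i| = 1`. -/
def ACT : Prop := ∀ (Q : Type) [Group Q] (n : ℕ) (L : Finset (Finset (Fin n))) (g : (Fin n → ℕ) → Q), Obs Q L g →
  ∀ (W : Type) [TopologicalSpace W] [ContractibleSpace W] [MulAction Q W] [ContinuousConstSMul Q W]
    [ProperlyDiscontinuousSMul Q W],
    ∃ f1 : (Fin n → ℝ) → W, Continuous f1 ∧ ∀ x ∈ dJoin L, f1 x ≠ f1 (-x)

/-- **PRO** (about 80 lines).  Products.
Proof.  `lip`: the set is contained in the product of the two finite sets of `h1.lip`, `h2.lip`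
(`lft (sp a ∪ sp a') = sp (a ∘ castAdd) ∪ sp (a' ∘ castAdd)`).  `sep`: for finite `T` take the bounds for the two projections
of `T` and their maximum (`Fin.addCases` to treat all `i`). -/
def PRO : Prop := ∀ (H1 H2 : Type) [Group H1] [Group H2] (n1 n2 : ℕ) (L1 : Finset (Finset (Fin n1)))
  (L2 : Finset (Finset (Fin n2))) (g1 : (Fin n1 → ℕ) → H1) (g2 : (Fin n2 → ℕ) → H2), Obs H1 L1 g1 → Obs H2 L2 g2 →
  Obs (H1 × H2) (joinF L1 L2) (fun a => (g1 fun i => a (Fin.castAdd n2 i), g2 fun i => a (Fin.natAdd n1 i)))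

/-- **INJ** (about 30 lines).  Supergroups.  `lip`: image of a finite set; `sep`: preimage of a finite set under an
injective map. -/
def INJ : Prop := ∀ (H Q : Type) [Group H] [Group Q] (f : H →* Q), Function.Injective f → ∀ (n : ℕ)
  (L : Finset (Finset (Fin n))) (g : (Fin n → ℕ) → H), Obs H L g → Obs Q L (fun a => f (g a))

/-- **VKJ** (about 170 lines).  Join lemma for the mod 2 van Kampen classes.
Proof.  `VK2` is defined in Y131/KS/Obs.lean, `evenPart`, `oddPart` (elements of even and odd rank) in W555/KS/Defs.lean.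
Let `Z1`, `Z2` be symmetric functions as in the negation of `VK2 L1 D1`, `VK2 L2 D2`; their final sums are nonzero.  Put
`Z σ τ = Z1 (lft σ) (lft τ) * Z2 (rgt σ) (rgt τ)` if `(lft σ).card + (lft τ).card = D1` and
`(rgt σ).card + (rgt τ).card = D2`, and `0` otherwise.  Cycle condition for disjoint `ρ, τ` with
`ρ.card + τ.card + 1 = D1 + D2`: the sum over `v` splits into the `v = castAdd i` and `v = natAdd j`.  The terms of the
first kind are nonzero only if `(lft ρ).card + (lft τ).card + 1 = D1` and `(rgt ρ).card + (rgt τ).card = D2`, and then their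
sum is the cycle condition of `Z1` times `Z2 (rgt ρ) (rgt τ)`; similarly for the second kind.  Evaluation: the sets `U` with
`D1 + D2` elements and `(lft U).card = D1`, `(rgt U).card = D2` are the disjoint unions of `U1` and `U2`;
`lft (evenPart U) = evenPart U1`, `lft (oddPart U) = oddPart U1`, and `(rgt (evenPart U), rgt (oddPart U))` is
`(evenPart U2, oddPart U2)` if `D1` is even and `(oddPart U2, evenPart U2)` if `D1` is odd (all elements of the first part
are smaller than those of the second part); by symmetry of `Z2` the sum is the product of the two sums, and `ZMod 2` is a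
field. -/
def VKJ : Prop := ∀ (n1 n2 : ℕ) (L1 : Finset (Finset (Fin n1))) (L2 : Finset (Finset (Fin n2))) (D1 D2 : ℕ),
  ¬ VK2 L1 D1 → ¬ VK2 L2 D2 → ¬ VK2 (joinF L1 L2) (D1 + D2)

/-- **RGO** (about 100 lines).  Homomorphisms from right-angled Artin groups with the separation property give obstructors.
Proof.  Write `b a v = a (e (v, true)) - a (e (v, false))`.  `mem_clF` describes `clF`; in the graph `OG G` the vertices
`(v, true)`, `(v, false)` are not adjacent, so if `sp a ∈ clF (OG G) e` then at most one of `a (e (v, true))`,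
`a (e (v, false))` is nonzero and the support of `b a` is a clique of `G`.  `lip`: `|b a v - b a' v| ≤ 2`, and
`Pool.Agent.H77AR.nearG_mem` (H77AR/F1.lean), `SS_finite` (H77RA/D1.lean).  `sep`: by `SepH` one has
`|b a' v - b a v| ≤ C`; if `a (e (v, true)) ≠ 0`, then `a (e (v, false)) = 0` and `a' (e (v, true)) = 0` by disjointness, so
`b a v - b a' v = a (e (v, true)) + a' (e (v, false)) ≥ a (e (v, true))`; similarly in the other cases. -/
def RGO : Prop := ∀ (V : Type) [Fintype V] [DecidableEq V] (G : SimpleGraph V) (H : Type) [Group H]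
  (ρ : RAAG G.Adj →* H), Pool.Agent.H77AR.SepH G ρ → ∀ (n : ℕ) (e : V × Bool ≃ Fin n),
  Obs H (clF (OG G) e) (fun a => ρ (gL G fun v => (a (e (v, true)) : ℤ) - (a (e (v, false)) : ℤ)))

/-- **SEPL** (about 90 lines).  Separation for the subgroup generated by the vertex groups in `S`.
Proof.  As `rhoA`, `rhoA_gen`, `rhoA_gL`, `sepH_GP` (H77GP/A9.lean): `ρ` maps the generator of `u` to `gi Γ G u (z u)`,
which is in `Gs Γ G S` by `gi_mem`; compose with the inclusion of `Gs Γ G S` and with `gpi Γ G`, component `u`, to get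
`z u ^ a u`. -/
def SEPL : Prop := ∀ (V : Type) [Fintype V] [LinearOrder V] (Γ : SimpleGraph V) (G : V → Type) [∀ v, Group (G v)]
  (z : ∀ v, G v) (S : Finset V), (∀ v, ¬ IsOfFinOrder (z v)) →
  ∃ ρ : RAAG (Γ.comap (fun u : {u // u ∈ S} => u.1)).Adj →* Gs Γ G S,
    Pool.Agent.H77AR.SepH (Γ.comap (fun u : {u // u ∈ S} => u.1)) ρ

/-- **PAO** (about 80 lines).  Two elements of infinite order which generate cyclic groups with trivial intersection.
Proof.  `ρ` maps the generator of `true` to `x` and that of `false` to `y`.  If the support of `a` is a clique of `⊥`, at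
most one of `a true`, `a false` is nonzero, so `ρ (gL a)` is `x ^ a true` or `y ^ a false` (`gL` is a product over a list of
the vertices).  If `ρ ((gL a)⁻¹ * gL a') ∈ T`, then `u ^ (-m) * w ^ n ∈ T` with `u, w ∈ {x, y}`; for `u = w` this bounds
`n - m`; for `u ≠ w` the map `(m, n) ↦ u ^ (-m) * w ^ n` is injective, so `m` and `n` are bounded. -/
def PAO : Prop := ∀ (H : Type) [Group H] (x y : H), ¬ IsOfFinOrder x → ¬ IsOfFinOrder y →
  Subgroup.zpowers x ⊓ Subgroup.zpowers y = ⊥ →
  ∃ ρ : RAAG (⊥ : SimpleGraph Bool).Adj →* H, Pool.Agent.H77AR.SepH (⊥ : SimpleGraph Bool) ρ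

/-- **GRG** (about 220 lines).  The Hodge decomposition over the localization `U`.
Write `c' = (ι ∘ canL) ∘ i`, `D n = (C.d n).map (V7N.evM c')`.
Proof.  Tools: H77GP/A10.lean (`nm`, `Lap`, `lap_inj` as a model, `Lap_comm`, `jK`, `jK_canL`, `jK_inj_mat`, `U_surj`,
`U_inj`, `evM_comp`) and `projections` (N496/CV/Dual.lean), `zero_iff`, `succ_iff`.  For each `n` let `A = nm C n` and
`B = nm C (n-1)` (a matrix with no columns for `n = 0`), `p, q` the projections of `projections A B`, and `π n = 1 - p - q`: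
a self-adjoint idempotent over `NG G` with `A * π n = 0`, `π n * B = 0`, and `Tr (π n) = l2Betti n` up to cast; if
`l2Betti G n = 0` then `π n = 0` (see the beginning of the proof of `lap_inj`).  `Lap C n + π n` has no kernel: if
`x (Lap + π) = 0` then `x Aᴴ = 0`, `x B = 0`, `x π = 0` as in `lap_inj`, hence `x q = 0`, `x p = 0` and
`x = x p + x q + x π = 0`.  Let `θ = ι.comp (jK i hi)`, `D n = (nm C n).map θ`, `E n = ((nm C n)ᴴ).map θ`,
`Λ n = (Lap C n).map θ`, `P n = (π n).map θ`.  `Λ n + P n` has a two-sided inverse `W n` over `U` (rows of a left inverse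
by `U_surj`; then `U_inj`).  `Λ n * P n = 0 = P n * Λ n`.  Put `g n = W n - P n`, so `g n * Λ n = Λ n * g n = 1 - P n`,
and `K n = E n * g (n+1)`.  `Λ (n+1) * D n = D n * Λ n`, `P (n+1) * D n = 0`, `D n * P n = 0`, so
`g (n+1) * D n = D n * g n`; hence `K 0 * D 0 = E 0 * D 0 * g 0 = Λ 0 * g 0 = 1 - P 0` and
`D n * K n + K (n+1) * D (n+1) = (D n * E n + E (n+1) * D (n+1)) * g (n+1) = 1 - P (n+1)`.
Commutation: if `q : Q` commutes with all `i g`, then `canL q` commutes with `jK i hi x` for all `x : NG G` (an element of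
`NG Q` is determined by its value at `dl 1`, since the `rho` translates of `dl 1` span; `jK i hi x (dl 1)` is supported in
the image of `i`, and `q` times it is it times `q`).  So `ι (canL q)` commutes with the entries of `D, E, Λ, P`, hence with
those of the inverse `W`. -/
def GRG : Prop := ∀ (G Q U : Type) [Group G] [Group Q] [Ring U] (i : G →* Q) (_ : Function.Injective i)
  (ι : NG Q →+* U) (_ : Loc ι) (C : V7N.FreeRes G),
  ∃ (K : ∀ n, Matrix (Fin (C.r n)) (Fin (C.r (n + 1))) U) (P : ∀ n, Matrix (Fin (C.r n)) (Fin (C.r n)) U),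
    K 0 * (C.d 0).map (V7N.evM (((ι : NG Q →* U).comp canL).comp i)) = 1 - P 0 ∧
    (∀ n, (C.d n).map (V7N.evM (((ι : NG Q →* U).comp canL).comp i)) * K n +
      K (n + 1) * (C.d (n + 1)).map (V7N.evM (((ι : NG Q →* U).comp canL).comp i)) = 1 - P (n + 1)) ∧
    (∀ n, (C.d n).map (V7N.evM (((ι : NG Q →* U).comp canL).comp i)) * P n = 0) ∧
    (∀ n, P (n + 1) * (C.d n).map (V7N.evM (((ι : NG Q →* U).comp canL).comp i)) = 0) ∧
    (∀ n, P n * P n = P n) ∧ (∀ n, VN831.l2Betti G n = 0 → P n = 0) ∧
    ∀ q : Q, (∀ g, Commute q (i g)) → (∀ n a b, Commute (((ι : NG Q →* U).comp canL) q) (K n a b)) ∧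
      ∀ n a b, Commute (((ι : NG Q →* U).comp canL) q) (P n a b)

/-- **KVG** (about 130 lines).  The total complex is exact in degree `k` if the homology of `L` vanishes in the degrees
`k - q` with `P q ≠ 0`.
Proof.  As for `KVC` (Stm.lean).  Let `z` be as in `TotEx`, `s = (-1)^k`, `≡` congruence modulo `Jt c ⊤`;
`dd (z q) ≡ - s • (z (q+1) * D q)`.  For each `q` there is `u q : Fin (r q) → XM` with entries in `dg (k + 2 - q)` and
`z q * P q ≡ dd (u q)`: if `P q = 0` take `0`; if `k + 1 ≤ q` the entries of `z q` are in `dg 0 ≤ Jt`, take `0`; if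
`k = m + q` use `PEn c ⊤ m` for the entries of `z q * P q` (in `dg (m+1)`, closed modulo `Jt` since
`dd (z q * P q) ≡ - s • (z (q+1) * D q * P q) = 0`).  Put `y 0 = u 0 * P 0`,
`y (q+1) = - s • (z q * K q) + u (q+1) * P (q+1)`.  Then `dd (y q) - s • (y (q+1) * D q) ≡ z q * (D (q-1) * K (q-1) +
K q * D q) + z q * P q * P q ≡ z q` (for `q = 0` without the first term), since `P (q+1) * D q = 0`. -/
def KVG : Prop := ∀ (L R : Type) [Group L] [Ring R] (c : L →* R) (r : ℕ → ℕ)
  (D : ∀ n, Matrix (Fin (r (n + 1))) (Fin (r n)) R) (K : ∀ n, Matrix (Fin (r n)) (Fin (r (n + 1))) R)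
  (P : ∀ n, Matrix (Fin (r n)) (Fin (r n)) R) (k : ℕ),
  (∀ l n a b, Commute (c l) (D n a b)) → (∀ l n a b, Commute (c l) (K n a b)) →
  (∀ l n a b, Commute (c l) (P n a b)) → K 0 * D 0 = 1 - P 0 →
  (∀ n, D n * K n + K (n + 1) * D (n + 1) = 1 - P (n + 1)) → (∀ n, D n * P n = 0) → (∀ n, P (n + 1) * D n = 0) →
  (∀ n, P n * P n = P n) → (∀ q m, k = m + q → P q = 0 ∨ PEn c ⊤ m) → TotEx c r D k

end Pool.Agent.H77B
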