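import Pool.Agent.H77B.Stm

/-!
# Stub TRN: exactness of clique complexes is invariant under increasing embeddings
-/

set_option autoImplicit false
set_option linter.unusedSectionVars false

noncomputable section

namespace Pool.Agent.H77B.TRN

open Finset Pool.Agent.H77RA Pool.Agent.H77GP Pool.Agent.H77N

variable {V V' : Type} [Fintype V] [LinearOrder V] [Fintype V'] [LinearOrder V'] (G : SimpleGraph V) (f : V' ↪o V)

/-- preimage of a set -/
def pb (T : Finset V) : Finset V' := univ.filter fun v => f v ∈ T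

theorem mem_pb (T : Finset V) (v : V') : v ∈ pb f T ↔ f v ∈ T := by
  unfold pb
  simp

theorem pb_map (T : Finset V') : pb f (T.map f.toEmbedding) = T := by
  ext v
  rw [mem_pb]
  constructor
  · intro h
    obtain ⟨w, hw, he⟩ := mem_map.mp h
    have : w = v := f.injective he
    rwa [← this]
  · intro h
    exact mem_map.mpr ⟨v, h, rfl⟩

theorem map_pb {T : Finset V} (hT : ∀ v ∈ T, ∃ w, f w = v) : (pb f T).map f.toEmbedding = T := by
  ext v
  constructor
  · intro h
    obtain ⟨w, hw, he⟩ := mem_map.mp h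
    rw [mem_pb] at hw
    have : f w = v := he
    rwa [← this]
  · intro h
    obtain ⟨w, hw⟩ := hT v h
    exact mem_map.mpr ⟨w, by rw [mem_pb, hw]; exact h, hw⟩

theorem sgn_map (v : V') (T : Finset V') : sgn (f v) (T.map f.toEmbedding) = sgn v T := by
  unfold sgn
  congr 1
  rw [filter_map, card_map]
  congr 1
  refine filter_congr fun u _ => ?_
  exact f.lt_iff_lt

open Classical in
/-- push forward of chains -/
def push (a : Finset V' → ℚ) (T : Finset V) : ℚ := if ∀ v ∈ T, ∃ w, f w = v then a (pb f T) else 0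

theorem push_map (a : Finset V' → ℚ) (T : Finset V') : push f a (T.map f.toEmbedding) = a T := by
  unfold push
  rw [if_pos, pb_map]
  intro v hv
  obtain ⟨w, _, he⟩ := mem_map.mp hv
  exact ⟨w, he⟩

theorem push_ne {a : Finset V' → ℚ} {T : Finset V} (h : push f a T ≠ 0) : ∀ v ∈ T, ∃ w, f w = v := by
  by_contra h2
  apply h
  unfold push
  rw [if_neg h2]

theorem sb_apply (a : Finset V → ℚ) (T : Finset V) : sb a T = ∑ v ∈ Tᶜ, sgn v T • a (insert v T) := rfl

theorem sb_pull {b : Finset V → ℚ} (hb : ∀ T, b T ≠ 0 → ∀ v ∈ T, ∃ w, f w = v) (T : Finset V') :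
    sb (fun U : Finset V' => b (U.map f.toEmbedding)) T = sb b (T.map f.toEmbedding) := by
  rw [sb_apply, sb_apply]
  have h1 : (Tᶜ).map f.toEmbedding ⊆ (T.map f.toEmbedding)ᶜ := by
    intro v hv
    obtain ⟨w, hw, he⟩ := mem_map.mp hv
    rw [mem_compl]
    intro h
    obtain ⟨u, hu, he2⟩ := mem_map.mp h
    have : u = w := f.injective (he2.trans he.symm)
    exact (mem_compl.mp hw) (this ▸ hu)
  rw [← sum_subset h1, sum_map]
  · refine sum_congr rfl fun v _ => ?_
    have h2 : sgn (f.toEmbedding v) (T.map f.toEmbedding) = sgn v T := sgn_map f v T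
    rw [h2, map_insert]
  · intro v hv hv2
    have h3 : b (insert v (T.map f.toEmbedding)) = 0 := by
      by_contra h
      obtain ⟨w, hw⟩ := hb _ h v (mem_insert_self _ _)
      apply hv2
      refine mem_map.mpr ⟨w, ?_, hw⟩
      rw [mem_compl] at hv ⊢
      intro hwT
      exact hv (mem_map.mpr ⟨w, hwT, hw⟩)
    rw [h3, smul_zero]

theorem sb_out {b : Finset V → ℚ} (hb : ∀ T, b T ≠ 0 → ∀ v ∈ T, ∃ w, f w = v) {T : Finset V}
    (hT : ¬ ∀ v ∈ T, ∃ w, f w = v) : sb b T = 0 := by
  rw [sb_apply]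
  refine sum_eq_zero fun v _ => ?_
  have h3 : b (insert v T) = 0 := by
    by_contra h
    exact hT fun u hu => hb _ h u (mem_insert_of_mem hu)
  rw [h3, smul_zero]

theorem clique_map {T : Finset V'} :
    (G.comap f).IsClique (T : Set V') ↔ G.IsClique ((T.map f.toEmbedding : Finset V) : Set V) := by
  constructor
  · intro h x hx y hy hxy
    rw [mem_coe] at hx hy
    obtain ⟨u, hu, rfl⟩ := mem_map.mp hx
    obtain ⟨w, hw, rfl⟩ := mem_map.mp hy
    exact h (mem_coe.mpr hu) (mem_coe.mpr hw) fun e => hxy (by rw [e])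
  · intro h x hx y hy hxy
    rw [mem_coe] at hx hy
    exact h (mem_coe.mpr (mem_map.mpr ⟨x, hx, rfl⟩)) (mem_coe.mpr (mem_map.mpr ⟨y, hy, rfl⟩))
      fun e => hxy (f.injective e)

theorem sup_pull {S' : Finset V'} {k : ℕ} {b : Finset V → ℚ} (hb : Sup G (S'.map f.toEmbedding) k b) :
    Sup (G.comap f) S' k (fun U : Finset V' => b (U.map f.toEmbedding)) := by
  intro T hT
  obtain ⟨h1, h2, h3⟩ := hb _ hT
  refine ⟨map_subset_map.mp h1, (clique_map G f).mpr h2, ?_⟩
  rwa [card_map] at h3

theorem sup_push {S' : Finset V'} {k : ℕ} {b : Finset V' → ℚ} (hb : Sup (G.comap f) S' k b) :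
    Sup G (S'.map f.toEmbedding) k (push f b) := by
  intro T hT
  have h0 := push_ne f hT
  have h4 := map_pb f h0
  rw [← h4] at hT ⊢
  rw [push_map] at hT
  obtain ⟨h1, h2, h3⟩ := hb _ hT
  refine ⟨map_subset_map.mpr h1, (clique_map G f).mp h2, ?_⟩
  rw [card_map]
  exact h3

theorem sup_im {S' : Finset V'} {k : ℕ} {b : Finset V → ℚ} (hb : Sup G (S'.map f.toEmbedding) k b) :
    ∀ T, b T ≠ 0 → ∀ v ∈ T, ∃ w, f w = v := by
  intro T hT v hv
  obtain ⟨w, _, he⟩ := mem_map.mp ((hb T hT).1 hv)
  exact ⟨w, he⟩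

theorem sb_push (a' : Finset V' → ℚ) (T : Finset V) : sb (push f a') T = push f (sb a') T := by
  by_cases h : ∀ v ∈ T, ∃ w, f w = v
  · have h4 := map_pb f h
    rw [← h4, push_map, ← sb_pull f (fun T hT => push_ne f hT)]
    congr 1
    funext U
    exact push_map f a' U
  · rw [sb_out f (fun T hT => push_ne f hT) h]
    unfold push
    rw [if_neg h]

theorem t : Pool.Agent.H77B.TRN := by
  intro V V' _ _ _ _ G f S' k
  constructor
  · intro h a ha hsa
    obtain ⟨b', hb', hbb'⟩ := h (fun U : Finset V' => a (U.map f.toEmbedding)) (sup_pull G f ha) (by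
      funext T
      rw [sb_pull f (sup_im G f ha), hsa]
      rfl)
    refine ⟨push f b', sup_push G f hb', ?_⟩
    funext T
    rw [sb_push, hbb']
    by_cases hT : ∀ v ∈ T, ∃ w, f w = v
    · have h4 := map_pb f hT
      rw [← h4, push_map]
    · unfold push
      rw [if_neg hT]
      by_contra h5
      exact hT (sup_im G f ha T (fun h6 => h5 h6.symm))
  · intro h a' ha' hsa
    obtain ⟨b, hb, hbb⟩ := h (push f a') (sup_push G f ha') (by
      funext T
      rw [sb_push, hsa]
      unfold push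
      simp)
    refine ⟨fun U : Finset V' => b (U.map f.toEmbedding), sup_pull G f hb, ?_⟩
    funext T
    rw [sb_pull f (sup_im G f hb), hbb, push_map]

end Pool.Agent.H77B.TRN
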