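import Pool.Agent.H77B.Stm

/-!
# Vanishing for the subgroups of a graph product generated by subgroups of the vertex groups
-/

set_option autoImplicit false
set_option linter.unusedSectionVars false

noncomputable section

namespace Pool.Agent.H77B.VANS

open Finset Pool.Agent.H77RA Pool.Agent.H77GP Pool.Agent.H77B

section

variable {V : Type} (Γ : SimpleGraph V) (G : V → Type) [∀ v, Group (G v)]

/-- the vanishing for cones -/
theorem GsP_PE {R : Type} [Ring R] (c : GP Γ G →* R) (P N : ∀ v, Subgroup (G v)) (hNP : ∀ v, N v ≤ P v)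
    (hN : ∀ v, ∀ h ∈ P v, ∀ a ∈ N v, h * a * h⁻¹ ∈ N v)
    (hPE : ∀ v, PE c ((N v).map (gi Γ G v))) (S : Finset V) (v : V) (hv : v ∈ S)
    (hS : ∀ u ∈ S, u ≠ v → Γ.Adj u v) : PE c (GsP Γ G P S) := by
  refine PE_of_normal c ?_ ?_ (hPE v)
  · rintro _ ⟨a, ha, rfl⟩
    exact gsp_mem Γ G P hv (hNP v ha)
  · have h : GsP Γ G P S ≤ Subgroup.normalizer ((N v).map (gi Γ G v) : Set (GP Γ G)) := by
      refine GsP_le Γ G P fun u hu a ha => ?_
      rw [Subgroup.mem_normalizer_iff]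
      by_cases huv : u = v
      · subst huv
        have hfw : ∀ a ∈ P u, ∀ (x : GP Γ G), x ∈ (N u).map (gi Γ G u) →
            gi Γ G u a * x * (gi Γ G u a)⁻¹ ∈ (N u).map (gi Γ G u) := by
          rintro a ha _ ⟨n, hn, rfl⟩
          exact ⟨a * n * a⁻¹, hN u a ha n hn, by rw [map_mul, map_mul, map_inv]⟩
        intro x
        constructor
        · exact hfw a ha x
        · intro hx
          have := hfw a⁻¹ ((P u).inv_mem ha) _ hx
          rw [map_inv] at this
          have e : (gi Γ G u a)⁻¹ * (gi Γ G u a * x * (gi Γ G u a)⁻¹) * (gi Γ G u a)⁻¹⁻¹ = x := by group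
          rw [e] at this
          exact this
      · have hadj := hS u hu huv
        have hfw : ∀ (a : G u) (x : GP Γ G), x ∈ (N v).map (gi Γ G v) →
            gi Γ G u a * x * (gi Γ G u a)⁻¹ ∈ (N v).map (gi Γ G v) := by
          rintro a _ ⟨n, hn, rfl⟩
          rw [(gi_comm Γ G hadj a n).eq, mul_inv_cancel_right]
          exact ⟨n, hn, rfl⟩
        intro x
        constructor
        · exact hfw a x
        · intro hx
          have := hfw a⁻¹ _ hx
          rw [map_inv] at this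
          have e : (gi Γ G u a)⁻¹ * (gi Γ G u a * x * (gi Γ G u a)⁻¹) * (gi Γ G u a)⁻¹⁻¹ = x := by group
          rw [e] at this
          exact this
    intro g hg a ha
    have := Subgroup.mem_normalizer_iff.mp (h hg)
    exact (this a).mp ha

end

section

variable {V Q R : Type} [Fintype V] [LinearOrder V] [Group Q] [Ring R] {G : SimpleGraph V}
  {c : Q →* R} {Gs : Finset V → Subgroup Q}

/-- **Comparison.** Where the clique complex of `S` is exact, the homology of the group of `S` vanishes. -/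
theorem vanishS {φ : Finset V → XM Q R} (hmono : ∀ S T, S ⊆ T → Gs S ≤ Gs T) (h0 : φ ∅ = Finsupp.single [] 1)
    (hφ : ∀ T : Finset V, G.IsClique (T : Set V) → φ T ∈ Jt c (Gs T) ∧ φ T ∈ dg Q R T.card ∧
        dd (φ T) = ∑ v ∈ T, sgn v (T.erase v) • φ (T.erase v)) (S : Finset V)
    (hE : Ex G c Gs φ S) (k : ℕ)
    (hk : ∀ a : Finset V → R, Sup G S k a → bd a = 0 → ∃ b, Sup G S (k + 1) b ∧ bd b = a)
    {x : XM Q R} (hx : x ∈ dg Q R (k + 1)) (hdx : dd x ∈ Jt c (Gs S)) :
    ∃ y ∈ dg Q R (k + 2), x - dd y ∈ Jt c (Gs S) := by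
  classical
  obtain ⟨a, y, ha, hyJ, hyd, hba, hay⟩ : ∃ a y, Sup G S k a ∧ y ∈ Jt c (Gs S) ∧ y ∈ dg Q R (k + 1) ∧
      bd a = 0 ∧ fi φ a + dd y = dd x := by
    cases k with
    | zero =>
      refine ⟨e0 (dd x []), 0, e0_Sup _ _, Submodule.zero_mem _, Submodule.zero_mem _, bd_e0 _, ?_⟩
      rw [map_zero, add_zero, fi_e0 h0 (dd_dg hx)]
    | succ k =>
      obtain ⟨a, y, h1, h2, h3, h4, h5⟩ := hE k 0 (dd x) (Sup_zero _ _) hdx (dd_dg hx) bd_zero
        (by rw [fi_zero, dd_dd, add_zero])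
      exact ⟨a, y, h1, h2, h3, by rw [h4, neg_zero], h5⟩
  obtain ⟨b, hb1, hb2⟩ := hk a ha hba
  have h1 : dd (x - (fi φ b + y)) = 0 := by
    rw [map_sub, map_add, fi_bd (fun T hT => (hφ T hT).2.2) (fun T hT => (hb1 T hT).2.1), hb2, hay, sub_self]
  refine ⟨cn 1 (x - (fi φ b + y)), cn_dg 1 (Submodule.sub_mem _ hx (Submodule.add_mem _ (fi_dg hφ hb1) hyd)), ?_⟩
  rw [dd_cn, h1, map_zero, sub_zero, sub_sub_cancel]
  exact Submodule.add_mem _ (fi_Jt hmono hφ hb1) hyJ

end

theorem t (h : INFP) : Pool.Agent.H77B.VANS := by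
  intro V _ _ Γ G _ R _ c P N hNP hN hPE S k hk x hx hdx
  have hP := GsP_PE Γ G c P N hNP hN hPE
  have hmono : ∀ S T : Finset V, S ⊆ T → GsP Γ G P S ≤ GsP Γ G P T := fun S T hST => GsP_mono Γ G P hST
  obtain ⟨φ, h0, hφ⟩ := exists_phi (G := Γ) c (GsP Γ G P) hmono (by
    intro T hT hne
    obtain ⟨v, hv⟩ := hne
    exact hP T v hv fun u hu huv => hT (mem_coe.mpr hu) (mem_coe.mpr hv) huv)
  have hE : Ex Γ c (GsP Γ G P) φ S :=
    all_Ex hmono h0 hφ (GsP_empty Γ G P) hP (fun S v hv L _ => GsP_sup Γ G P S v hv L)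
      (fun S v hv L hL => h V Γ G P R c S v L hv hL) S
  exact vanishS hmono h0 hφ S hE k hk hx hdx

end Pool.Agent.H77B.VANS
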