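import Pool.Agent.H77B.Stm2
import Pool.Agent.H77B.PRO

/-!
# Stub VKJ of project GB: the join lemma
-/

set_option autoImplicit false
set_option linter.unusedSectionVars false

noncomputable section

namespace Pool.Agent.H77B.VKJ

open Finset Pool.Agent.W555.KS Pool.Agent.Y131.KS

variable {n1 n2 : ℕ}

theorem ca_ne_na (i : Fin n1) (j : Fin n2) : Fin.castAdd n2 i ≠ Fin.natAdd n1 j := by
  intro h
  have h1 := congrArg Fin.val h
  simp only [Fin.val_castAdd, Fin.val_natAdd] at h1
  omega

theorem lft_ins1 (i : Fin n1) (σ : Finset (Fin (n1 + n2))) : lft (insert (Fin.castAdd n2 i) σ) = insert i (lft σ) := by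
  ext k
  rw [mem_lft, mem_insert, mem_insert, mem_lft, Fin.castAdd_inj]

theorem lft_ins2 (j : Fin n2) (σ : Finset (Fin (n1 + n2))) : lft (insert (Fin.natAdd n1 j) σ) = lft σ := by
  ext k
  rw [mem_lft, mem_insert, mem_lft]
  exact ⟨fun h => h.resolve_left (ca_ne_na k j), Or.inr⟩

theorem rgt_ins1 (i : Fin n1) (σ : Finset (Fin (n1 + n2))) : rgt (insert (Fin.castAdd n2 i) σ) = rgt σ := by
  ext k
  rw [mem_rgt, mem_insert, mem_rgt]
  exact ⟨fun h => h.resolve_left (ca_ne_na i k).symm, Or.inr⟩

theorem rgt_ins2 (j : Fin n2) (σ : Finset (Fin (n1 + n2))) : rgt (insert (Fin.natAdd n1 j) σ) = insert j (rgt σ) := by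
  ext k
  rw [mem_rgt, mem_insert, mem_insert, mem_rgt, Fin.natAdd_inj]

/-- subsets are pairs of subsets -/
def JE (n1 n2 : ℕ) : Finset (Fin (n1 + n2)) ≃ Finset (Fin n1) × Finset (Fin n2) where
  toFun U := (lft U, rgt U)
  invFun p := p.1.map (Fin.castAddEmb n2) ∪ p.2.map (Fin.natAddEmb n1)
  left_inv U := by
    ext v
    rw [mem_union, mem_map, mem_map]
    refine Fin.addCases (fun i => ?_) (fun j => ?_) v
    · constructor
      · rintro (⟨k, hk, hk'⟩ | ⟨k, _, hk'⟩)
        · rw [← hk']; exact mem_lft.mp hk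
        · exact absurd hk' (ca_ne_na i k).symm
      · intro h
        exact Or.inl ⟨i, mem_lft.mpr h, rfl⟩
    · constructor
      · rintro (⟨k, _, hk'⟩ | ⟨k, hk, hk'⟩)
        · exact absurd hk' (ca_ne_na k j)
        · rw [← hk']; exact mem_rgt.mp hk
      · intro h
        exact Or.inr ⟨j, mem_rgt.mpr h, rfl⟩
  right_inv p := by
    ext k
    · rw [mem_lft, mem_union, mem_map, mem_map]
      constructor
      · rintro (⟨l, hl, hl'⟩ | ⟨l, _, hl'⟩)
        · have : l = k := Fin.castAdd_injective n1 n2 hl'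
          rw [← this]; exact hl
        · exact absurd hl' (ca_ne_na k l).symm
      · intro h
        exact Or.inl ⟨k, h, rfl⟩
    · rw [mem_rgt, mem_union, mem_map, mem_map]
      constructor
      · rintro (⟨l, _, hl'⟩ | ⟨l, hl, hl'⟩)
        · exact absurd hl' (ca_ne_na l k)
        · have : l = k := Fin.natAdd_injective n2 n1 hl'
          rw [← this]; exact hl
      · intro h
        exact Or.inr ⟨k, h, rfl⟩

theorem card_lr (σ : Finset (Fin (n1 + n2))) : (lft σ).card + (rgt σ).card = σ.card := by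
  have h := (JE n1 n2).left_inv σ
  change (lft σ).map (Fin.castAddEmb n2) ∪ (rgt σ).map (Fin.natAddEmb n1) = σ at h
  conv_rhs => rw [← h]
  rw [card_union_of_disjoint, card_map, card_map]
  rw [disjoint_left]
  intro v h1 h2
  obtain ⟨i, _, rfl⟩ := mem_map.mp h1
  obtain ⟨j, _, h3⟩ := mem_map.mp h2
  exact ca_ne_na i j h3.symm

theorem sum_compl (ρ τ : Finset (Fin (n1 + n2))) (f : Fin (n1 + n2) → ZMod 2) :
    ∑ v ∈ (ρ ∪ τ)ᶜ, f v = ∑ i ∈ (lft ρ ∪ lft τ)ᶜ, f (Fin.castAdd n2 i) +
      ∑ j ∈ (rgt ρ ∪ rgt τ)ᶜ, f (Fin.natAdd n1 j) := by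
  have h1 : ∀ (m : ℕ) (s : Finset (Fin m)) (g : Fin m → ZMod 2),
      ∑ v ∈ sᶜ, g v = ∑ v, if v ∈ s then 0 else g v := by
    intro m s g
    have h2 : ∀ v, (if v ∈ s then 0 else g v) = if v ∈ sᶜ then g v else 0 := by
      intro v
      by_cases h : v ∈ s <;> simp [h]
    simp only [h2]
    rw [sum_ite_mem, univ_inter]
  rw [h1, h1, h1, Fin.sum_univ_add]
  congr 1
  · refine sum_congr rfl fun i _ => ?_
    simp only [mem_union, mem_lft]
  · refine sum_congr rfl fun i _ => ?_
    simp only [mem_union, mem_rgt]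

theorem flt_ca (U : Finset (Fin (n1 + n2))) (i : Fin n1) :
    (U.filter fun w => w < Fin.castAdd n2 i).card = ((lft U).filter fun w => w < i).card := by
  rw [← card_lr]
  have h1 : lft (U.filter fun w => w < Fin.castAdd n2 i) = (lft U).filter fun w => w < i := by
    ext k
    rw [mem_lft, mem_filter, mem_filter, mem_lft]
    exact Iff.rfl
  have h2 : rgt (U.filter fun w => w < Fin.castAdd n2 i) = ∅ := by
    ext k
    rw [mem_rgt, mem_filter]
    constructor
    · rintro ⟨_, h⟩
      exfalso
      have h3 : (n1 + k.val) < i.val := h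
      omega
    · intro h
      exact absurd h (notMem_empty _)
  rw [h1, h2, card_empty, add_zero]

theorem flt_na (U : Finset (Fin (n1 + n2))) (j : Fin n2) :
    (U.filter fun w => w < Fin.natAdd n1 j).card = (lft U).card + ((rgt U).filter fun w => w < j).card := by
  rw [← card_lr]
  have h1 : lft (U.filter fun w => w < Fin.natAdd n1 j) = lft U := by
    ext k
    rw [mem_lft, mem_filter, mem_lft]
    constructor
    · exact fun h => h.1
    · intro h
      refine ⟨h, ?_⟩
      change k.val < n1 + j.val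
      omega
  have h2 : rgt (U.filter fun w => w < Fin.natAdd n1 j) = (rgt U).filter fun w => w < j := by
    ext k
    rw [mem_rgt, mem_filter, mem_filter, mem_rgt]
    have h3 : Fin.natAdd n1 k < Fin.natAdd n1 j ↔ k < j := by
      change n1 + k.val < n1 + j.val ↔ k.val < j.val
      omega
    rw [h3]
  rw [h1, h2]

theorem lft_even (U : Finset (Fin (n1 + n2))) : lft (evenPart U) = evenPart (lft U) := by
  ext i
  unfold evenPart
  rw [mem_lft, mem_filter, mem_filter, mem_lft, flt_ca]

theorem lft_odd (U : Finset (Fin (n1 + n2))) : lft (oddPart U) = oddPart (lft U) := by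
  ext i
  unfold oddPart
  rw [mem_lft, mem_filter, mem_filter, mem_lft, flt_ca]

theorem rgt_even (U : Finset (Fin (n1 + n2))) :
    rgt (evenPart U) = if Even (lft U).card then evenPart (rgt U) else oddPart (rgt U) := by
  split_ifs with h
  · ext i
    unfold evenPart
    rw [mem_rgt, mem_filter, mem_filter, mem_rgt, flt_na, Nat.even_add]
    simp only [h, true_iff]
  · ext i
    unfold evenPart oddPart
    rw [mem_rgt, mem_filter, mem_filter, mem_rgt, flt_na, Nat.even_add]
    simp only [h, false_iff]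

theorem rgt_odd (U : Finset (Fin (n1 + n2))) :
    rgt (oddPart U) = if Even (lft U).card then oddPart (rgt U) else evenPart (rgt U) := by
  split_ifs with h
  · ext i
    unfold oddPart
    rw [mem_rgt, mem_filter, mem_filter, mem_rgt, flt_na, Nat.even_add]
    simp only [h, true_iff]
  · ext i
    unfold evenPart oddPart
    rw [mem_rgt, mem_filter, mem_filter, mem_rgt, flt_na, Nat.even_add]
    simp only [h, false_iff, not_not]

theorem card_eo {n : ℕ} (U : Finset (Fin n)) : (evenPart U).card + (oddPart U).card = U.card := by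
  unfold evenPart oddPart
  exact card_filter_add_card_filter_not _

theorem t : Pool.Agent.H77B.VKJ := by
  intro n1 n2 L1 L2 D1 D2 h1 h2 h
  unfold VK2 at h1 h2
  push Not at h1 h2
  obtain ⟨Z1, s1, p1, c1, e1⟩ := h1
  obtain ⟨Z2, s2, p2, c2, e2⟩ := h2
  let Z : Finset (Fin (n1 + n2)) → Finset (Fin (n1 + n2)) → ZMod 2 := fun σ τ =>
    if (lft σ).card + (lft τ).card = D1 ∧ (rgt σ).card + (rgt τ).card = D2 then
      Z1 (lft σ) (lft τ) * Z2 (rgt σ) (rgt τ) else 0
  have hZ : ∀ σ τ, Z σ τ = if (lft σ).card + (lft τ).card = D1 ∧ (rgt σ).card + (rgt τ).card = D2 then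
      Z1 (lft σ) (lft τ) * Z2 (rgt σ) (rgt τ) else 0 := fun _ _ => rfl
  have h3 := h Z ?_ ?_ ?_
  · -- evaluation
    have h4 : ∑ U ∈ powersetCard (D1 + D2) univ, Z (evenPart U) (oddPart U) =
        (∑ U ∈ powersetCard D1 univ, Z1 (evenPart U) (oddPart U)) *
          ∑ U ∈ powersetCard D2 univ, Z2 (evenPart U) (oddPart U) := by
      have hps : ∀ (m D : ℕ) (f : Finset (Fin m) → ZMod 2),
          ∑ U ∈ powersetCard D univ, f U = ∑ U, if U.card = D then f U else 0 := by
        intro m D f
        rw [← sum_filter]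
        refine sum_congr ?_ fun _ _ => rfl
        ext U
        rw [mem_powersetCard_univ, mem_filter]
        simp
      rw [hps, hps, hps, ← Equiv.sum_comp (JE n1 n2).symm, Fintype.sum_prod_type, sum_mul]
      refine sum_congr rfl fun U1 _ => ?_
      rw [mul_sum]
      refine sum_congr rfl fun U2 _ => ?_
      set U := (JE n1 n2).symm (U1, U2) with hU
      have hl : lft U = U1 := congrArg Prod.fst ((JE n1 n2).apply_symm_apply (U1, U2))
      have hr : rgt U = U2 := congrArg Prod.snd ((JE n1 n2).apply_symm_apply (U1, U2))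
      have hc : U.card = U1.card + U2.card := by rw [← card_lr, hl, hr]
      rw [hZ, lft_even, lft_odd, rgt_even, rgt_odd, hl, hr, hc, card_eo]
      have hce : (if Even U1.card then evenPart U2 else oddPart U2).card +
          (if Even U1.card then oddPart U2 else evenPart U2).card = U2.card := by
        split_ifs
        · exact card_eo U2
        · rw [add_comm]; exact card_eo U2
      have hze : Z2 (if Even U1.card then evenPart U2 else oddPart U2)
          (if Even U1.card then oddPart U2 else evenPart U2) = Z2 (evenPart U2) (oddPart U2) := by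
        split_ifs
        · rfl
        · rw [s2]
      rw [hce, hze]
      by_cases ha : U1.card = D1
      · by_cases hb : U2.card = D2
        · rw [if_pos (by rw [ha, hb]), if_pos ⟨ha, hb⟩, if_pos ha, if_pos hb]
        · rw [if_neg hb, mul_zero]
          split_ifs with h5 h6
          · exact absurd h6.2 hb
          · rfl
          · rfl
      · rw [if_neg ha, zero_mul]
        split_ifs with h5 h6
        · exact absurd h6.1 ha
        · rfl
        · rfl
    rw [h4] at h3
    rcases mul_eq_zero.mp h3 with h5 | h5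
    · exact e1 h5
    · exact e2 h5
  · -- symmetry
    intro σ τ
    rw [hZ, hZ, add_comm (lft τ).card, add_comm (rgt τ).card, s1 (lft σ), s2 (rgt σ)]
  · -- supports
    intro σ τ hne
    rw [hZ] at hne
    split_ifs at hne with h4
    · have h5 := p1 _ _ (left_ne_zero_of_mul hne)
      have h6 := p2 _ _ (right_ne_zero_of_mul hne)
      exact ⟨mem_joinF.mpr ⟨h5.1, h6.1⟩, mem_joinF.mpr ⟨h5.2, h6.2⟩⟩
    · exact absurd rfl hne
  · -- cycle condition
    intro ρ τ hd hcard
    rw [sum_compl]
    have hk1 := card_lr ρ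
    have hk2 := card_lr τ
    have e3 : ∑ i ∈ (lft ρ ∪ lft τ)ᶜ, (Z (insert (Fin.castAdd n2 i) ρ) τ + Z ρ (insert (Fin.castAdd n2 i) τ)) = 0 := by
      by_cases hcd : (lft ρ).card + (lft τ).card + 1 = D1 ∧ (rgt ρ).card + (rgt τ).card = D2
      · have h4 : ∀ i ∈ (lft ρ ∪ lft τ)ᶜ, Z (insert (Fin.castAdd n2 i) ρ) τ + Z ρ (insert (Fin.castAdd n2 i) τ) =
            (Z1 (insert i (lft ρ)) (lft τ) + Z1 (lft ρ) (insert i (lft τ))) * Z2 (rgt ρ) (rgt τ) := by
          intro i hi
          rw [mem_compl, mem_union, not_or] at hi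
          rw [hZ, hZ, lft_ins1, lft_ins1, rgt_ins1, rgt_ins1, card_insert_of_notMem hi.1,
            card_insert_of_notMem hi.2, if_pos ⟨by omega, hcd.2⟩, if_pos ⟨by omega, hcd.2⟩]
          ring
        rw [sum_congr rfl h4, ← sum_mul, c1 _ _ (Pool.Agent.H77B.PRO.lft_disj hd) hcd.1, zero_mul]
      · refine sum_eq_zero fun i hi => ?_
        rw [mem_compl, mem_union, not_or] at hi
        rw [hZ, hZ, lft_ins1, lft_ins1, rgt_ins1, rgt_ins1, card_insert_of_notMem hi.1,
          card_insert_of_notMem hi.2, if_neg (fun h => hcd ⟨by omega, h.2⟩), if_neg (fun h => hcd ⟨by omega, h.2⟩),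
          add_zero]
    have e4 : ∑ j ∈ (rgt ρ ∪ rgt τ)ᶜ, (Z (insert (Fin.natAdd n1 j) ρ) τ + Z ρ (insert (Fin.natAdd n1 j) τ)) = 0 := by
      by_cases hcd : (lft ρ).card + (lft τ).card = D1 ∧ (rgt ρ).card + (rgt τ).card + 1 = D2
      · have h4 : ∀ j ∈ (rgt ρ ∪ rgt τ)ᶜ, Z (insert (Fin.natAdd n1 j) ρ) τ + Z ρ (insert (Fin.natAdd n1 j) τ) =
            Z1 (lft ρ) (lft τ) * (Z2 (insert j (rgt ρ)) (rgt τ) + Z2 (rgt ρ) (insert j (rgt τ))) := by
          intro i hi
          rw [mem_compl, mem_union, not_or] at hi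
          rw [hZ, hZ, lft_ins2, lft_ins2, rgt_ins2, rgt_ins2, card_insert_of_notMem hi.1,
            card_insert_of_notMem hi.2, if_pos ⟨hcd.1, by omega⟩, if_pos ⟨hcd.1, by omega⟩]
          ring
        rw [sum_congr rfl h4, ← mul_sum, c2 _ _ (Pool.Agent.H77B.PRO.rgt_disj hd) hcd.2, mul_zero]
      · refine sum_eq_zero fun i hi => ?_
        rw [mem_compl, mem_union, not_or] at hi
        rw [hZ, hZ, lft_ins2, lft_ins2, rgt_ins2, rgt_ins2, card_insert_of_notMem hi.1,
          card_insert_of_notMem hi.2, if_neg (fun h => hcd ⟨h.1, by omega⟩), if_neg (fun h => hcd ⟨h.1, by omega⟩),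
          add_zero]
    rw [e3, e4, add_zero]

end Pool.Agent.H77B.VKJ
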